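import Pool.Agent.MP_a2955b_co.Up.Basic

/-! Cells of an arrangement, and free cutting of a cell. -/

set_option autoImplicit false

namespace Pool.Agent.MP_a2955b_co.Up

open Set Module

section

variable {E : Type} [NormedAddCommGroup E] [NormedSpace ℝ E]

open Classical in
/-- The cell of the sign pattern `P`. -/
def cell_Arr (σ : Set E) (G : Finset (Af E)) (P : Set G) : Set E :=
  σ ∩ {x | ∀ j ∈ (Finset.univ : Finset G), 0 < (if j ∈ P then j.1 else -j.1) x}

theorem mem_cell_Arr {σ : Set E} {G : Finset (Af E)} {P : Set G} {x : E} :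
    x ∈ cell_Arr σ G P ↔ x ∈ σ ∧ ∀ j : G, (j ∈ P → 0 < j.1 x) ∧ (j ∉ P → j.1 x < 0) := by
  classical
  unfold cell_Arr
  simp only [mem_inter_iff, mem_ofPred_eq, Finset.mem_univ, true_imp_iff]
  refine and_congr_right fun _ => forall_congr' fun j => ?_
  by_cases h : j ∈ P
  · simp [h]
  · simp [h]

theorem pat_Arr {σ : Set E} {G : Finset (Af E)} {P : Set G} {x : E} (hx : x ∈ cell_Arr σ G P) :
    P = {j : G | 0 < j.1 x} := by
  ext j
  have h := (mem_cell_Arr.1 hx).2 j
  constructor
  · exact h.1
  · intro hj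
    by_contra hn
    exact lt_asymm (show 0 < j.1 x from hj) (h.2 hn)

end

theorem arr_of (h : SgnStmt) : ArrStmt := by
  classical
  intro E _ _ _ σ hσ G hG
  have hcard := h E G (fun j => j.1)
  have hfin : {P : Set G | ∃ x, P = {i | 0 < i.1 x}}.Finite := Set.toFinite _
  refine ⟨hfin.toFinset.image (cell_Arr σ G), ⟨?_, ?_, ?_, ?_⟩, ?_, ?_, ?_⟩
  · intro O hO
    obtain ⟨P, _, rfl⟩ := Finset.mem_image.1 hO
    exact hσ.inter (op_family _ _)
  · intro O hO
    obtain ⟨P, _, rfl⟩ := Finset.mem_image.1 hO
    exact inter_subset_left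
  · intro O hO O' hO' hne
    obtain ⟨P, _, rfl⟩ := Finset.mem_image.1 hO
    obtain ⟨P', _, rfl⟩ := Finset.mem_image.1 hO'
    rw [Set.disjoint_left]
    intro x hx hx'
    exact hne (by rw [pat_Arr hx, pat_Arr hx'])
  · refine cover_of_off hσ.isOpen (G : Set (Af E)) G.finite_toSet hG ?_
    intro x hx hne
    simp only [mem_iUnion]
    refine ⟨cell_Arr σ G {i | 0 < i.1 x},
      Finset.mem_image_of_mem _ (hfin.mem_toFinset.2 ⟨x, rfl⟩), ?_⟩
    refine mem_cell_Arr.2 ⟨hx, fun j => ⟨fun hj => hj, fun hj => ?_⟩⟩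
    exact lt_of_le_of_ne (not_lt.1 hj) (hne j.1 j.2)
  · refine Finset.card_image_le.trans ?_
    rw [← Set.ncard_eq_toFinset_card _ hfin]
    simpa using hcard
  · intro O hO g hg x hx
    obtain ⟨P, _, rfl⟩ := Finset.mem_image.1 hO
    have h1 := (mem_cell_Arr.1 hx).2 ⟨g, hg⟩
    by_cases hP : (⟨g, hg⟩ : G) ∈ P
    · exact (h1.1 hP).ne'
    · exact (h1.2 hP).ne
  · intro O hO O' hO' x hx x' hx' hs
    obtain ⟨P, _, rfl⟩ := Finset.mem_image.1 hO
    obtain ⟨P', _, rfl⟩ := Finset.mem_image.1 hO'
    have : P = P' := by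
      rw [pat_Arr hx, pat_Arr hx']
      ext j
      simp only [mem_ofPred_eq]
      rw [← sign_eq_one_iff, ← sign_eq_one_iff, hs j.1 j.2]
    rw [this]

theorem free : FreeStmt := by
  classical
  intro E _ _ _ κ f ψ hconv hlin hzero O hO J
  induction J using Finset.induction_on with
  | empty =>
    intro _
    refine ⟨{O}, Part.refl hO, by simp, by simp, ?_⟩
    intro j _ p hp p' hp' _ _
    rw [Finset.mem_singleton.1 hp, Finset.mem_singleton.1 hp']
  | @insert i J hi ih =>
    intro hJ
    obtain ⟨C, hC, hcard, hdis, huniq⟩ :=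
      ih (fun i' hi' => hJ i' (Finset.mem_insert_of_mem hi'))
    choose! Sp hSp using fun (p : Set E) (hp : OP p) => Part.split hp (ψ i) (hlin i)
    let D : Set E → Finset (Set E) := fun p => if (p ∩ f i).Nonempty then Sp p else {p}
    have hD : ∀ p ∈ C, Part p (D p) := by
      intro p hp
      by_cases h : (p ∩ f i).Nonempty
      · simp only [D, if_pos h]
        exact (hSp p (hC.op p hp)).1
      · simp only [D, if_neg h]
        exact Part.refl (hC.op p hp)
    obtain ⟨C', hC', hcard', hmem⟩ := hC.bind D hD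
    refine ⟨C', hC', hcard'.trans ?_, ?_, ?_⟩
    · have h1 : ∀ p ∈ C, (D p).card ≤ 1 + if (p ∩ f i).Nonempty then 1 else 0 := by
        intro p hp
        by_cases h : (p ∩ f i).Nonempty
        · simp only [D, if_pos h]
          exact (hSp p (hC.op p hp)).2.1
        · simp only [D, if_neg h]
          simp
      have h2 : (C.filter fun p => (p ∩ f i).Nonempty).card ≤ 1 := by
        rw [Finset.card_le_one]
        intro p hp p' hp'
        rw [Finset.mem_filter] at hp hp'
        exact huniq i hi p hp.1 p' hp'.1 hp.2 hp'.2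
      refine (Finset.sum_le_sum h1).trans ?_
      rw [Finset.sum_add_distrib, Finset.sum_boole, Finset.card_insert_of_notMem hi]
      simp only [Finset.sum_const, smul_eq_mul, mul_one, Nat.cast_id]
      omega
    · intro p' hp' i' hi'
      obtain ⟨p, hp, hpp⟩ := (hmem p').1 hp'
      rcases Finset.mem_insert.1 hi' with rfl | hi'
      · by_cases h : (p ∩ f i').Nonempty
        · simp only [D, if_pos h] at hpp
          rw [Set.disjoint_left]
          intro x hx hxf
          have h0 := hzero i' x hxf
          rcases (hSp p (hC.op p hp)).2.2 p' hpp with rfl | rfl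
          · exact (show 0 < ψ i' x from hx.2).ne' h0
          · exact (show ψ i' x < 0 from hx.2).ne h0
        · simp only [D, if_neg h, Finset.mem_singleton] at hpp
          rw [hpp, Set.disjoint_iff_inter_eq_empty]
          exact Set.not_nonempty_iff_eq_empty.1 h
      · exact (hdis p hp i' hi').mono_left ((hD p hp).sub p' hpp)
    · intro j hj q hq q' hq' hne hne'
      obtain ⟨p, hp, hpq⟩ := (hmem q).1 hq
      obtain ⟨p', hp', hpq'⟩ := (hmem q').1 hq'
      have hji : j ≠ i := fun h => hj (h ▸ Finset.mem_insert_self _ _)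
      have hjJ : j ∉ J := fun h => hj (Finset.mem_insert_of_mem h)
      have hs := (hD p hp).sub q hpq
      have hs' := (hD p' hp').sub q' hpq'
      have hpp : p = p' := huniq j hjJ p hp p' hp'
        (hne.mono (inter_subset_inter_left _ hs)) (hne'.mono (inter_subset_inter_left _ hs'))
      subst hpp
      by_cases h : (p ∩ f i).Nonempty
      · simp only [D, if_pos h] at hpq hpq'
        obtain ⟨x, hx, hxf⟩ := hne
        obtain ⟨x', hx', hxf'⟩ := hne'
        have hsg := sign_eq_of_convex (((hC.op p hp).convex).inter (hconv j)) (ψ i)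
          (fun y hy => hJ i (Finset.mem_insert_self _ _) j hji y ⟨hC.sub p hp hy.1, hy.2⟩)
          (x := x) (y := x') ⟨hs hx, hxf⟩ ⟨hs' hx', hxf'⟩
        rcases (hSp p (hC.op p hp)).2.2 q hpq with rfl | rfl <;>
          rcases (hSp p (hC.op p hp)).2.2 q' hpq' with rfl | rfl
        · rfl
        · rw [sign_pos (show 0 < ψ i x from hx.2), sign_neg (show ψ i x' < 0 from hx'.2)] at hsg
          exact absurd hsg (by decide)
        · rw [sign_neg (show ψ i x < 0 from hx.2), sign_pos (show 0 < ψ i x' from hx'.2)] at hsg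
          exact absurd hsg (by decide)
        · rfl
      · simp only [D, if_neg h, Finset.mem_singleton] at hpq hpq'
        rw [hpq, hpq']

end Pool.Agent.MP_a2955b_co.Up
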