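import Pool.Agent.MP_a2955b_co.Up.Stmt

/-! Basic facts on open polyhedral sets and partitions. -/

set_option autoImplicit false

namespace Pool.Agent.MP_a2955b_co.Up

open Set Module

section alg

variable {E : Type} [NormedAddCommGroup E] [NormedSpace ℝ E]

theorem af_eq (g : Af E) (x : E) : g x = g.linear x + g 0 := by
  have := g.map_vadd (0 : E) x
  simpa using this

theorem af_sub (g : Af E) (x y : E) : g.linear (x - y) = g x - g y := by
  rw [af_eq g x, af_eq g y, map_sub]; ring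

theorem af_add (g : Af E) (x u : E) : g (x + u) = g x + g.linear u := by
  rw [af_eq g (x + u), af_eq g x, map_add]; ring

theorem af_sum {I : Type} (s : Finset I) (g : Af E) (μ : I → ℝ) (b : I → E)
    (h : ∑ l ∈ s, μ l = 1) : g (∑ l ∈ s, μ l • b l) = ∑ l ∈ s, μ l * g (b l) := by
  rw [af_eq g, map_sum]
  have : ∀ l ∈ s, μ l * g (b l) = g.linear (μ l • b l) + μ l * g 0 := by
    intro l _
    rw [af_eq g (b l), map_smul, smul_eq_mul]; ring
  rw [Finset.sum_congr rfl this, Finset.sum_add_distrib, ← Finset.sum_mul, h, one_mul]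

theorem af_combo (g : Af E) (x y : E) (a b : ℝ) (h : a + b = 1) :
    g (a • x + b • y) = a * g x + b * g y := by
  rw [af_eq g, af_eq g x, af_eq g y, map_add, map_smul, map_smul, smul_eq_mul, smul_eq_mul]
  have : g 0 = (a + b) * g 0 := by rw [h, one_mul]
  linarith

theorem convex_pos (g : Af E) : Convex ℝ {x | 0 < g x} :=
  (convex_Ioi (0 : ℝ)).affine_preimage g

theorem convex_neg (g : Af E) : Convex ℝ {x | g x < 0} :=
  (convex_Iio (0 : ℝ)).affine_preimage g

theorem convex_nonneg (g : Af E) : Convex ℝ {x | 0 ≤ g x} :=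
  (convex_Ici (0 : ℝ)).affine_preimage g

theorem convex_nonpos (g : Af E) : Convex ℝ {x | g x ≤ 0} :=
  (convex_Iic (0 : ℝ)).affine_preimage g

theorem convex_zero (g : Af E) : Convex ℝ {x | g x = 0} :=
  (convex_singleton (0 : ℝ)).affine_preimage g

/-- An affine function without zero on a convex set has constant sign there. -/
theorem sign_eq_of_convex {S : Set E} (hS : Convex ℝ S) (g : Af E) (hg : ∀ x ∈ S, g x ≠ 0)
    {x y : E} (hx : x ∈ S) (hy : y ∈ S) : SignType.sign (g x) = SignType.sign (g y) := by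
  have key : ∀ x ∈ S, ∀ y ∈ S, 0 < g x → g y < 0 → False := by
    intro x hx y hy h1 h2
    have hd : 0 < g x - g y := by linarith
    have ha : 0 ≤ -g y / (g x - g y) := div_nonneg (by linarith) hd.le
    have hb : 0 ≤ g x / (g x - g y) := div_nonneg h1.le hd.le
    have hab : -g y / (g x - g y) + g x / (g x - g y) = 1 := by field_simp; ring
    apply hg _ (hS hx hy ha hb hab)
    rw [af_combo g x y _ _ hab]
    field_simp; ring
  rcases lt_or_gt_of_ne (hg x hx) with h1 | h1 <;> rcases lt_or_gt_of_ne (hg y hy) with h2 | h2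
  · rw [sign_neg h1, sign_neg h2]
  · exact (key y hy x hx h2 h1).elim
  · exact (key x hx y hy h1 h2).elim
  · rw [sign_pos h1, sign_pos h2]

theorem OP.convex {O : Set E} (h : OP O) : Convex ℝ O := by
  obtain ⟨G, rfl⟩ := h
  intro x hx y hy a b ha hb hab g hg
  exact convex_pos g (hx g hg) (hy g hg) ha hb hab

theorem OP.inter {O O' : Set E} (h : OP O) (h' : OP O') : OP (O ∩ O') := by
  classical
  obtain ⟨G, rfl⟩ := h
  obtain ⟨G', rfl⟩ := h'
  refine ⟨G ∪ G', ?_⟩
  ext x
  simp only [mem_inter_iff, mem_ofPred_eq, Finset.mem_union]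
  constructor
  · rintro ⟨h1, h2⟩ g (hg | hg)
    · exact h1 g hg
    · exact h2 g hg
  · intro h
    exact ⟨fun g hg => h g (Or.inl hg), fun g hg => h g (Or.inr hg)⟩

theorem op_univ : OP (univ : Set E) := ⟨∅, by simp⟩

theorem op_pos (g : Af E) : OP {x | 0 < g x} := ⟨{g}, by simp⟩

theorem op_neg (g : Af E) : OP {x | g x < 0} := ⟨{-g}, by simp⟩

theorem op_family {κ : Type} (g : κ → Af E) (J : Finset κ) : OP {x | ∀ j ∈ J, 0 < g j x} := by
  classical
  exact ⟨J.image g, by simp⟩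

theorem Cell.op {k : ℕ} {τ : Set E} (h : Cell k τ) : OP τ := by
  obtain ⟨_, G, _, _, h⟩ := h
  exact ⟨G, h⟩

theorem OP.preimage {X : Type} [NormedAddCommGroup X] [NormedSpace ℝ X] {O : Set E} (h : OP O)
    (f : X →ᵃ[ℝ] E) : OP (f ⁻¹' O) := by
  classical
  obtain ⟨G, rfl⟩ := h
  exact ⟨G.image (fun g => g.comp f), by ext x; simp⟩

theorem OP.prod_univ {O : Set E} (h : OP O) : OP (O ×ˢ (univ : Set ℝ)) := by
  have := h.preimage (AffineMap.fst : E × ℝ →ᵃ[ℝ] E)
  convert this using 1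
  ext z; simp

/-- Only the points of `T` on the face `f = 0` matter. -/
theorem mem_hull_face {T : Set E} {p : E} (hp : p ∈ convexHull ℝ T) (f : Af E)
    (hf : ∀ q ∈ T, 0 ≤ f q) (h0 : f p = 0) : p ∈ convexHull ℝ {q | q ∈ T ∧ f q = 0} := by
  have hc : Convex ℝ {x | 0 ≤ f x ∧ (f x = 0 → x ∈ convexHull ℝ {q | q ∈ T ∧ f q = 0})} := by
    intro x hx y hy a b ha hb hab
    refine ⟨convex_nonneg f hx.1 hy.1 ha hb hab, fun h => ?_⟩
    rw [af_combo f x y a b hab] at h
    have h1 : 0 ≤ a * f x := mul_nonneg ha hx.1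
    have h2 : 0 ≤ b * f y := mul_nonneg hb hy.1
    have h3 : a * f x = 0 := by linarith
    have h4 : b * f y = 0 := by linarith
    rcases mul_eq_zero.1 h3 with h5 | h5
    · have hb1 : b = 1 := by linarith
      rw [h5, hb1, zero_smul, zero_add, one_smul]
      exact hy.2 (by rw [hb1, one_mul] at h4; exact h4)
    · rcases mul_eq_zero.1 h4 with h6 | h6
      · have ha1 : a = 1 := by linarith
        rw [h6, ha1, zero_smul, add_zero, one_smul]
        exact hx.2 h5
      · exact convex_convexHull ℝ _ (hx.2 h5) (hy.2 h6) ha hb hab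
  have hsub : T ⊆ {x | 0 ≤ f x ∧ (f x = 0 → x ∈ convexHull ℝ {q | q ∈ T ∧ f q = 0})} :=
    fun q hq => ⟨hf q hq, fun h => subset_convexHull ℝ _ ⟨hq, h⟩⟩
  exact (convexHull_min hsub hc hp).2 h0

theorem vx_spec {ι : Type} {D : ℕ} {φ : ι → Af E} {t : Fin D → ι} {p : E}
    (hp : ∀ i, φ (t i) p = 0) : ∀ i, φ (t i) (vx φ t) = 0 :=
  Classical.epsilon_spec (p := fun p => ∀ i, φ (t i) p = 0) ⟨p, hp⟩

theorem Vx.mono {ι : Type} {D : ℕ} {φ : ι → Af E} {τ τ' : Set E} {t : Fin D → ι}
    (h : Vx φ τ t) (hτ : τ ⊆ τ') : Vx φ τ' t := by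
  obtain ⟨h1, p, hp, h2⟩ := h
  exact ⟨h1, p, hτ hp, h2⟩

theorem Kills.mono {ι : Type} {D : ℕ} {φ h : ι → Af E} {W W' : Finset (Af E)}
    {G G' : Finset (Af (E × ℝ))} {t : Fin D → ι} (hk : Kills φ h W G t) (hW : W ⊆ W')
    (hG : G ⊆ G') : Kills φ h W' G' t :=
  fun S O h1 h2 h3 h4 h5 h6 h7 =>
    hk S O h1 h2 (fun w hw => h3 w (hW hw)) h4 h5 h6 (fun g hg => h7 g (hG hg))

theorem Part.refl {σ : Set E} (h : OP σ) : Part σ {σ} where
  op := by simpa using h
  sub := by simp
  disj := by simp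
  cover := by simpa using subset_closure

theorem Part.of_empty : Part (∅ : Set E) ∅ where
  op := by simp
  sub := by simp
  disj := by simp
  cover := by simp

/-- Refine every cell of a partition. -/
theorem Part.bind {σ : Set E} {C : Finset (Set E)} (hC : Part σ C) (D : Set E → Finset (Set E))
    (hD : ∀ O ∈ C, Part O (D O)) :
    ∃ C' : Finset (Set E), Part σ C' ∧ C'.card ≤ ∑ O ∈ C, (D O).card ∧
      ∀ O', O' ∈ C' ↔ ∃ O ∈ C, O' ∈ D O := by
  classical
  refine ⟨C.biUnion D, ⟨?_, ?_, ?_, ?_⟩, Finset.card_biUnion_le, fun O' => Finset.mem_biUnion⟩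
  · intro O' hO'
    obtain ⟨O, hO, h⟩ := Finset.mem_biUnion.1 hO'
    exact (hD O hO).op O' h
  · intro O' hO'
    obtain ⟨O, hO, h⟩ := Finset.mem_biUnion.1 hO'
    exact ((hD O hO).sub O' h).trans (hC.sub O hO)
  · intro p hp p' hp' hne
    obtain ⟨O, hO, h⟩ := Finset.mem_biUnion.1 hp
    obtain ⟨O', hO', h'⟩ := Finset.mem_biUnion.1 hp'
    by_cases hOO : O = O'
    · subst hOO
      exact (hD O hO).disj p h p' h' hne
    · exact (hC.disj O hO O' hO' hOO).mono ((hD O hO).sub p h) ((hD O' hO').sub p' h')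
  · refine hC.cover.trans (closure_minimal ?_ isClosed_closure)
    intro x hx
    simp only [mem_iUnion] at hx
    obtain ⟨O, hO, hx⟩ := hx
    refine closure_mono ?_ ((hD O hO).cover hx)
    intro y hy
    simp only [mem_iUnion] at hy ⊢
    obtain ⟨p, hp, hy⟩ := hy
    exact ⟨p, Finset.mem_biUnion.2 ⟨O, hO, hp⟩, hy⟩

/-- Refine every cell, with a real bound on the number of pieces. -/
theorem Part.bind_real {σ : Set E} {C : Finset (Set E)} (hC : Part σ C) (f : Set E → ℝ)
    (Q : Set E → Prop)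
    (h : ∀ O ∈ C, ∃ D : Finset (Set E), Part O D ∧ (D.card : ℝ) ≤ f O ∧ ∀ O' ∈ D, Q O') :
    ∃ C' : Finset (Set E), Part σ C' ∧ (C'.card : ℝ) ≤ ∑ O ∈ C, f O ∧ ∀ O' ∈ C', Q O' := by
  classical
  choose! D hD using h
  obtain ⟨C', h1, h2, h3⟩ := hC.bind D (fun O hO => (hD O hO).1)
  refine ⟨C', h1, ?_, fun O' hO' => ?_⟩
  · calc (C'.card : ℝ) ≤ ((∑ O ∈ C, (D O).card : ℕ) : ℝ) := by exact_mod_cast h2
      _ = ∑ O ∈ C, ((D O).card : ℝ) := by push_cast; rfl
      _ ≤ _ := Finset.sum_le_sum (fun O hO => (hD O hO).2.1)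
  · obtain ⟨O, hO, h4⟩ := (h3 O').1 hO'
    exact (hD O hO).2.2 O' h4

/-- Pull a partition back along an open continuous affine map. -/
theorem Part.comap {X : Type} [NormedAddCommGroup X] [NormedSpace ℝ X] {σ : Set E}
    {C : Finset (Set E)} (hC : Part σ C) (f : X →ᵃ[ℝ] E) (ho : IsOpenMap f) :
    ∃ C' : Finset (Set X), Part (f ⁻¹' σ) C' ∧ C'.card ≤ C.card ∧
      ∀ O' ∈ C', ∃ O ∈ C, O' = f ⁻¹' O := by
  classical
  refine ⟨C.image (fun O => f ⁻¹' O), ⟨?_, ?_, ?_, ?_⟩, Finset.card_image_le, ?_⟩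
  · intro O' hO'
    obtain ⟨O, hO, rfl⟩ := Finset.mem_image.1 hO'
    exact (hC.op O hO).preimage f
  · intro O' hO'
    obtain ⟨O, hO, rfl⟩ := Finset.mem_image.1 hO'
    exact preimage_mono (hC.sub O hO)
  · intro p hp p' hp' hne
    obtain ⟨O, hO, rfl⟩ := Finset.mem_image.1 hp
    obtain ⟨O', hO', rfl⟩ := Finset.mem_image.1 hp'
    have : O ≠ O' := fun h => hne (by rw [h])
    exact (hC.disj O hO O' hO' this).preimage f
  · refine (preimage_mono hC.cover).trans ((ho.preimage_closure_subset_closure_preimage).trans ?_)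
    refine closure_mono ?_
    intro x hx
    simp only [mem_preimage, mem_iUnion] at hx ⊢
    obtain ⟨O, hO, hx⟩ := hx
    exact ⟨_, Finset.mem_image_of_mem _ hO, hx⟩
  · intro O' hO'
    obtain ⟨O, hO, rfl⟩ := Finset.mem_image.1 hO'
    exact ⟨O, hO, rfl⟩

theorem Part.prod {τ : Set E} {C : Finset (Set E)} (hC : Part τ C) :
    ∃ C' : Finset (Set (E × ℝ)), Part (τ ×ˢ (univ : Set ℝ)) C' ∧ C'.card ≤ C.card ∧
      ∀ O' ∈ C', ∃ S ∈ C, O' = S ×ˢ (univ : Set ℝ) := by
  obtain ⟨C', h1, h2, h3⟩ := hC.comap (AffineMap.fst : E × ℝ →ᵃ[ℝ] E) isOpenMap_fst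
  have he : ∀ S : Set E, (AffineMap.fst : E × ℝ →ᵃ[ℝ] E) ⁻¹' S = S ×ˢ (univ : Set ℝ) := by
    intro S; ext z; simp
  rw [he] at h1
  refine ⟨C', h1, h2, fun O' hO' => ?_⟩
  obtain ⟨S, hS, h⟩ := h3 O' hO'
  exact ⟨S, hS, by rw [h, he]⟩

theorem ncard_hit {κ : Type} (D : ℕ) (A J : Finset κ) :
    {t : Fin D → κ | (∀ i, t i ∈ A) ∧ ∃ i, t i ∈ J}.ncard ≤ D * J.card * A.card ^ (D - 1) := by
  classical
  have hsub : {t : Fin D → κ | (∀ i, t i ∈ A) ∧ ∃ i, t i ∈ J} ⊆
      ((Finset.univ : Finset (Fin D)).biUnion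
        (fun i => Fintype.piFinset (fun i' => if i' = i then J else A)) : Finset (Fin D → κ)) := by
    rintro t ⟨h1, i, hi⟩
    simp only [Finset.coe_biUnion, Finset.coe_univ, mem_univ, iUnion_true, mem_iUnion,
      Finset.mem_coe, Fintype.mem_piFinset]
    refine ⟨i, fun i' => ?_⟩
    split_ifs with h
    · rw [h]; exact hi
    · exact h1 i'
  refine (Set.ncard_le_ncard hsub (Finset.finite_toSet _)).trans ?_
  rw [Set.ncard_coe_finset]
  refine Finset.card_biUnion_le.trans ?_
  have : ∀ i : Fin D, (Fintype.piFinset (fun i' => if i' = i then J else A)).card =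
      J.card * A.card ^ (D - 1) := by
    intro i
    rw [Fintype.card_piFinset, ← Finset.mul_prod_erase _ _ (Finset.mem_univ i)]
    simp only [if_true]
    congr 1
    rw [Finset.prod_congr rfl (g := fun _ => A.card)]
    · simp
    · intro i' hi'
      rw [if_neg (Finset.ne_of_mem_erase hi')]
  simp only [this, Finset.sum_const, Finset.card_univ, Fintype.card_fin, smul_eq_mul]
  exact le_of_eq (by ring)

theorem ncard_tuples {κ : Type} (D : ℕ) (F : Set κ) (hF : F.Finite) :
    {t : Fin D → κ | ∀ i, t i ∈ F}.Finite ∧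
      {t : Fin D → κ | ∀ i, t i ∈ F}.ncard = F.ncard ^ D := by
  classical
  have : {t : Fin D → κ | ∀ i, t i ∈ F} =
      (Fintype.piFinset (fun _ : Fin D => hF.toFinset) : Finset (Fin D → κ)) := by
    ext t; simp
  rw [this, Set.ncard_coe_finset, Fintype.card_piFinset, Set.ncard_eq_toFinset_card F hF]
  exact ⟨Finset.finite_toSet _, by simp⟩

end alg

section fd

variable {E : Type} [NormedAddCommGroup E] [NormedSpace ℝ E] [FiniteDimensional ℝ E]

theorem af_continuous (g : Af E) : Continuous g := g.continuous_of_finiteDimensional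

theorem OP.isOpen {O : Set E} (h : OP O) : IsOpen O := by
  obtain ⟨G, rfl⟩ := h
  have : {x | ∀ g ∈ G, 0 < g x} = ⋂ g ∈ G, {x | 0 < g x} := by ext x; simp
  rw [this]
  exact isOpen_biInter_finset (fun g _ => isOpen_lt continuous_const (af_continuous g))

omit [FiniteDimensional ℝ E] in
theorem dense_ne (g : Af E) (hg : g.linear ≠ 0) : Dense {x | g x ≠ 0} := by
  obtain ⟨u, hu⟩ : ∃ u, g.linear u ≠ 0 := by
    by_contra h
    push Not at h
    exact hg (LinearMap.ext h)
  intro x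
  by_cases hx : g x = 0
  · have hc : Filter.Tendsto (fun s : ℝ => x + s • u) (nhdsWithin 0 {0}ᶜ) (nhds x) := by
      have : Continuous (fun s : ℝ => x + s • u) := by fun_prop
      have h2 := this.tendsto 0
      simp only [zero_smul, add_zero] at h2
      exact h2.mono_left nhdsWithin_le_nhds
    refine mem_closure_of_tendsto hc ?_
    filter_upwards [self_mem_nhdsWithin] with s hs
    rw [af_add, hx, zero_add, map_smul, smul_eq_mul]
    exact mul_ne_zero hs hu
  · exact subset_closure hx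

/-- The complement of finitely many hyperplanes is dense. -/
theorem dense_off (G : Set (Af E)) (hfin : G.Finite) (hG : ∀ g ∈ G, g.linear ≠ 0) :
    Dense {x | ∀ g ∈ G, g x ≠ 0} := by
  induction G, hfin using Set.Finite.induction_on with
  | empty => simp
  | @insert g G _ _ ih =>
    have h1 := ih (fun g' hg' => hG g' (mem_insert_of_mem _ hg'))
    have h2 := dense_ne g (hG g (mem_insert _ _))
    have h3 : IsOpen {x | g x ≠ 0} := isOpen_ne_fun (af_continuous g) continuous_const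
    have := h2.inter_of_isOpen_left h1 h3
    convert this using 1
    ext x; simp

/-- To check the covering property it is enough to cover the points off finitely many
hyperplanes. -/
theorem cover_of_off {σ Y : Set E} (hσ : IsOpen σ) (G : Set (Af E)) (hfin : G.Finite)
    (hG : ∀ g ∈ G, g.linear ≠ 0) (h : ∀ x ∈ σ, (∀ g ∈ G, g x ≠ 0) → x ∈ Y) :
    σ ⊆ closure Y := by
  refine ((dense_off G hfin hG).open_subset_closure_inter hσ).trans (closure_mono ?_)
  rintro x ⟨h1, h2⟩
  exact h x h1 h2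

theorem Part.inter {σ σ' : Set E} {C : Finset (Set E)} (hC : Part σ' C) (hσ : OP σ)
    (hsub : σ ⊆ σ') :
    ∃ C' : Finset (Set E), Part σ C' ∧ C'.card ≤ C.card ∧ ∀ O' ∈ C', ∃ O ∈ C, O' = O ∩ σ := by
  classical
  refine ⟨C.image (fun O => O ∩ σ), ⟨?_, ?_, ?_, ?_⟩, Finset.card_image_le, ?_⟩
  · intro O' hO'
    obtain ⟨O, hO, rfl⟩ := Finset.mem_image.1 hO'
    exact (hC.op O hO).inter hσ
  · intro O' hO'
    obtain ⟨O, hO, rfl⟩ := Finset.mem_image.1 hO'
    exact inter_subset_right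
  · intro p hp p' hp' hne
    obtain ⟨O, hO, rfl⟩ := Finset.mem_image.1 hp
    obtain ⟨O', hO', rfl⟩ := Finset.mem_image.1 hp'
    have : O ≠ O' := fun h => hne (by rw [h])
    exact (hC.disj O hO O' hO' this).mono inter_subset_left inter_subset_left
  · intro x hx
    have := hσ.isOpen.inter_closure ⟨hx, hC.cover (hsub hx)⟩
    refine closure_mono ?_ this
    rintro y ⟨hy1, hy2⟩
    simp only [mem_iUnion] at hy2 ⊢
    obtain ⟨O, hO, hy⟩ := hy2
    exact ⟨_, Finset.mem_image_of_mem _ hO, hy, hy1⟩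
  · intro O' hO'
    obtain ⟨O, hO, rfl⟩ := Finset.mem_image.1 hO'
    exact ⟨O, hO, rfl⟩

theorem Part.split {O : Set E} (hO : OP O) (g : Af E) (hg : g.linear ≠ 0) :
    ∃ C : Finset (Set E), Part O C ∧ C.card ≤ 2 ∧
      ∀ p ∈ C, p = O ∩ {x | 0 < g x} ∨ p = O ∩ {x | g x < 0} := by
  classical
  refine ⟨{O ∩ {x | 0 < g x}, O ∩ {x | g x < 0}}, ⟨?_, ?_, ?_, ?_⟩, Finset.card_le_two, ?_⟩
  · intro p hp
    rcases Finset.mem_insert.1 hp with rfl | hp
    · exact hO.inter (op_pos g)
    · rw [Finset.mem_singleton.1 hp]; exact hO.inter (op_neg g)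
  · intro p hp
    rcases Finset.mem_insert.1 hp with rfl | hp
    · exact inter_subset_left
    · rw [Finset.mem_singleton.1 hp]; exact inter_subset_left
  · have hd : Disjoint (O ∩ {x | 0 < g x}) (O ∩ {x | g x < 0}) := by
      rw [Set.disjoint_left]
      rintro x ⟨_, h1⟩ ⟨_, h2⟩
      exact lt_asymm (show 0 < g x from h1) (show g x < 0 from h2)
    intro p hp p' hp' hne
    simp only [Finset.mem_insert, Finset.mem_singleton] at hp hp'
    rcases hp with rfl | rfl <;> rcases hp' with rfl | rfl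
    · exact (hne rfl).elim
    · exact hd
    · exact hd.symm
    · exact (hne rfl).elim
  · refine cover_of_off hO.isOpen {g} (finite_singleton g) (by simpa using hg) ?_
    intro x hx h
    have h0 := h g rfl
    simp only [Finset.mem_insert, Finset.mem_singleton, mem_iUnion]
    rcases lt_or_gt_of_ne h0 with h1 | h1
    · exact ⟨_, Or.inr rfl, hx, h1⟩
    · exact ⟨_, Or.inl rfl, hx, h1⟩
  · intro p hp
    simpa using hp

theorem eq_zero_of_indep {D : ℕ} (hD : finrank ℝ E = D) {ℓ : Fin D → E →ₗ[ℝ] ℝ}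
    (hℓ : LinearIndependent ℝ ℓ) {u : E} (hu : ∀ i, ℓ i u = 0) : u = 0 := by
  have hspan : Submodule.span ℝ (range ℓ) = ⊤ := by
    apply hℓ.span_eq_top_of_card_eq_finrank'
    rw [Fintype.card_fin, ← hD]
    exact Subspace.dual_finrank_eq.symm
  have hall : ∀ f : Module.Dual ℝ E, f u = 0 := by
    intro f
    have hf : f ∈ Submodule.span ℝ (range ℓ) := by rw [hspan]; trivial
    refine Submodule.span_induction (p := fun f _ => f u = 0) ?_ ?_ ?_ ?_ hf
    · rintro _ ⟨i, rfl⟩; exact hu i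
    · simp
    · intro a b _ _ ha hb; simp [ha, hb]
    · intro c a _ ha; simp [ha]
  exact (Module.forall_dual_apply_eq_zero_iff ℝ u).1 hall

theorem zero_unique {D : ℕ} (hD : finrank ℝ E = D) {ι : Type} {φ : ι → Af E} {t : Fin D → ι}
    (ht : LinearIndependent ℝ (fun i => (φ (t i)).linear)) {p p' : E}
    (hp : ∀ i, φ (t i) p = 0) (hp' : ∀ i, φ (t i) p' = 0) : p = p' := by
  have := eq_zero_of_indep hD ht (u := p - p') (fun i => by rw [af_sub, hp i, hp' i, sub_zero])
  exact sub_eq_zero.1 this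

theorem vx_unique {D : ℕ} (hD : finrank ℝ E = D) {ι : Type} {φ : ι → Af E} {t : Fin D → ι}
    (ht : LinearIndependent ℝ (fun i => (φ (t i)).linear)) {p : E}
    (hp : ∀ i, φ (t i) p = 0) : p = vx φ t :=
  zero_unique hD ht hp (vx_spec hp)

omit [FiniteDimensional ℝ E] in
/-- At most `finrank` points lie on a hyperplane. -/
theorem exists_af_zero (T : Finset E) (hT : T.card ≤ finrank ℝ E) (hne : T.Nonempty) :
    ∃ g : Af E, g.linear ≠ 0 ∧ ∀ x ∈ convexHull ℝ (T : Set E), g x = 0 := by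
  classical
  obtain ⟨p, hp⟩ := hne
  have hpos : 0 < T.card := Finset.card_pos.2 ⟨p, hp⟩
  have h1 : finrank ℝ (vectorSpan ℝ (T : Set E)) ≤ T.card - 1 := by
    have := finrank_vectorSpan_image_finset_le ℝ (id : E → E) T (n := T.card - 1) (by omega)
    rwa [Finset.image_id] at this
  have hlt : vectorSpan ℝ (T : Set E) < ⊤ := by
    rw [lt_top_iff_ne_top]
    intro h
    rw [h, finrank_top] at h1
    omega
  obtain ⟨f, hf0, hf⟩ := Submodule.exists_le_ker_of_lt_top _ hlt
  refine ⟨f.toAffineMap - AffineMap.const ℝ E (f p), by simpa using hf0, ?_⟩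
  refine fun x hx => convexHull_min (t := {x | (f.toAffineMap - AffineMap.const ℝ E (f p)) x = 0})
    ?_ (convex_zero _) hx
  intro q hq
  have := hf (vsub_mem_vectorSpan ℝ hq (Finset.mem_coe.2 hp))
  simp only [LinearMap.mem_ker, vsub_eq_sub, map_sub] at this
  simpa using this

/-- A bounded set lies in a box. -/
theorem exists_cell {K : Set E} (hK : Bornology.IsBounded K) :
    ∃ τ : Set E, Cell (2 * finrank ℝ E) τ ∧ K ⊆ τ := by
  classical
  let b := Module.finBasis ℝ E
  let e := b.equivFun.toContinuousLinearEquiv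
  obtain ⟨R, hR⟩ := (e.toContinuousLinearMap.lipschitz.isBounded_image hK).subset_ball 0
  let gp : Fin (finrank ℝ E) → Af E := fun i => AffineMap.const ℝ E R - (b.coord i).toAffineMap
  let gm : Fin (finrank ℝ E) → Af E := fun i => AffineMap.const ℝ E R + (b.coord i).toAffineMap
  have hc : ∀ i, b.coord i ≠ 0 := by
    intro i h
    have := congrArg (fun f => f (b i)) h
    simp at this
  refine ⟨{x | ∀ g ∈ Finset.univ.image gp ∪ Finset.univ.image gm, 0 < g x}, ⟨?_, _, ?_, ?_, rfl⟩,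
    ?_⟩
  · refine (e.symm.toContinuousLinearMap.lipschitz.isBounded_image
      (Metric.isBounded_closedBall (x := 0) (r := |R|))).subset ?_
    intro x hx
    refine ⟨e x, ?_, by simp⟩
    rw [mem_closedBall_zero_iff, pi_norm_le_iff_of_nonneg (abs_nonneg R)]
    intro i
    have h1 := hx (gp i) (Finset.mem_union_left _ (Finset.mem_image_of_mem _ (Finset.mem_univ i)))
    have h2 := hx (gm i) (Finset.mem_union_right _ (Finset.mem_image_of_mem _ (Finset.mem_univ i)))
    simp only [gp, gm, AffineMap.coe_sub, AffineMap.coe_add, Pi.sub_apply, Pi.add_apply,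
      AffineMap.const_apply, LinearMap.coe_toAffineMap, Basis.coord_apply] at h1 h2
    have h3 : e x i = b.repr x i := rfl
    rw [h3, Real.norm_eq_abs, abs_le]
    constructor <;> linarith [le_abs_self R]
  · refine (Finset.card_union_le _ _).trans ?_
    have h1 := Finset.card_image_le (s := Finset.univ) (f := gp)
    have h2 := Finset.card_image_le (s := Finset.univ) (f := gm)
    simp only [Finset.card_univ, Fintype.card_fin] at h1 h2
    omega
  · intro g hg
    rcases Finset.mem_union.1 hg with hg | hg <;> obtain ⟨i, _, rfl⟩ := Finset.mem_image.1 hg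
    · simpa [gp] using hc i
    · simpa [gm] using hc i
  · intro x hx g hg
    have h0 := hR (mem_image_of_mem _ hx)
    rw [mem_ball_zero_iff] at h0
    have h4 : ∀ i, |b.repr x i| < R := fun i =>
      lt_of_le_of_lt (norm_le_pi_norm (e x) i) h0
    rcases Finset.mem_union.1 hg with hg | hg <;> obtain ⟨i, _, rfl⟩ := Finset.mem_image.1 hg
    · have := abs_lt.1 (h4 i)
      simp only [gp, AffineMap.coe_sub, Pi.sub_apply, AffineMap.const_apply,
        LinearMap.coe_toAffineMap, Basis.coord_apply]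
      linarith
    · have := abs_lt.1 (h4 i)
      simp only [gm, AffineMap.coe_add, Pi.add_apply, AffineMap.const_apply,
        LinearMap.coe_toAffineMap, Basis.coord_apply]
      linarith

omit [FiniteDimensional ℝ E] in
/-- The closed region of a bounded nonempty open polyhedral set is bounded. -/
theorem bounded_closed_region {κ : Type} (g : κ → Af E) (J : Finset κ)
    (hb : Bornology.IsBounded {x | ∀ j ∈ J, 0 < g j x}) {y : E} (hy : ∀ j ∈ J, 0 < g j y) :
    Bornology.IsBounded {x | ∀ j ∈ J, 0 ≤ g j x} := by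
  obtain ⟨R, hR⟩ := hb.subset_closedBall 0
  refine (Metric.isBounded_closedBall (x := (0 : E)) (r := 2 * R + ‖y‖)).subset ?_
  intro x hx
  have h1 : (1 / 2 : ℝ) • x + (1 / 2 : ℝ) • y ∈ {x | ∀ j ∈ J, 0 < g j x} := by
    intro j hj
    rw [af_combo _ _ _ _ _ (by norm_num)]
    have := hx j hj
    have := hy j hj
    linarith
  have h2 := mem_closedBall_zero_iff.1 (hR h1)
  rw [mem_closedBall_zero_iff]
  have h3 : x = (2 : ℝ) • ((1 / 2 : ℝ) • x + (1 / 2 : ℝ) • y) - y := by
    rw [smul_add, smul_smul, smul_smul]; norm_num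
  calc ‖x‖ = ‖(2 : ℝ) • ((1 / 2 : ℝ) • x + (1 / 2 : ℝ) • y) - y‖ := by rw [← h3]
    _ ≤ ‖(2 : ℝ) • ((1 / 2 : ℝ) • x + (1 / 2 : ℝ) • y)‖ + ‖y‖ := norm_sub_le _ _
    _ ≤ 2 * R + ‖y‖ := by
      rw [norm_smul, Real.norm_eq_abs, abs_two]; linarith

end fd

end Pool.Agent.MP_a2955b_co.Up
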