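import Pool.Agent.MP_a2955b_co.Up.Stmt

/-! Representatives and chains. -/

set_option autoImplicit false

namespace Pool.Agent.MP_a2955b_co.Up

open Set Module

lemma aff_Chain {E : Type} [NormedAddCommGroup E] [NormedSpace ℝ E] (g : Af E) {r : ℕ}
    (w : Fin r → ℝ) (b : Fin r → E) :
    g (∑ l, w l • b l) = ∑ l, w l * g (b l) + (1 - ∑ l, w l) * g 0 := by
  have h : ∀ x, g x = g.linear x + g 0 := fun x => by
    have := g.map_vadd 0 x
    simpa using this
  rw [h, map_sum, sub_mul, Finset.sum_mul, one_mul]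
  have : ∀ l, w l * g (b l) = g.linear (w l • b l) + w l * g 0 := fun l => by
    rw [h (b l), map_smul, smul_eq_mul, mul_add]
  simp only [this, Finset.sum_add_distrib]
  ring

lemma sgn_Chain {r : ℕ} (a μ : Fin (r + 1) → ℝ) (hμ : ∀ l, 0 < μ l)
    (ha : ∀ l, l < Fin.last r → a l = 0 ∨ SignType.sign (a l) = SignType.sign (a (Fin.last r))) :
    SignType.sign (∑ l, μ l * a l) = SignType.sign (a (Fin.last r)) := by
  have ha' : ∀ l, a l = 0 ∨ SignType.sign (a l) = SignType.sign (a (Fin.last r)) := fun l => by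
    rcases (Fin.le_last l).lt_or_eq with h | h
    · exact ha l h
    · exact Or.inr (by rw [h])
  rcases lt_trichotomy (a (Fin.last r)) 0 with h | h | h
  · rw [sign_neg h] at ha' ⊢
    rw [sign_eq_neg_one_iff]
    have := Finset.sum_lt_sum (s := Finset.univ) (f := fun l => μ l * a l) (g := fun _ => (0 : ℝ))
      (fun l _ => by
        rcases ha' l with e | e
        · simp [e]
        · exact (mul_neg_of_pos_of_neg (hμ l) (sign_eq_neg_one_iff.1 e)).le)
      ⟨Fin.last r, Finset.mem_univ _, mul_neg_of_pos_of_neg (hμ _) h⟩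
    simpa using this
  · rw [h, sign_zero] at ha' ⊢
    rw [sign_eq_zero_iff]
    refine Finset.sum_eq_zero fun l _ => ?_
    rcases ha' l with e | e
    · simp [e]
    · simp [sign_eq_zero_iff.1 e]
  · rw [sign_pos h] at ha' ⊢
    rw [sign_eq_one_iff]
    refine Finset.sum_pos' (fun l _ => ?_) ⟨Fin.last r, Finset.mem_univ _, mul_pos (hμ _) h⟩
    rcases ha' l with e | e
    · simp [e]
    · exact (mul_pos (hμ l) (sign_eq_one_iff.1 e)).le

section
variable {E : Type} [NormedAddCommGroup E] [NormedSpace ℝ E] {κ : Type} {g : κ → Af E}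
  {A : Finset κ}

lemma same_Chain (x : E) : SameSg g A x (rep g A x) :=
  Classical.epsilon_spec (p := fun y => SameSg g A x y) ⟨x, fun _ _ => rfl⟩

lemma rep_Chain {x y : E} (h : SameSg g A x y) : rep g A x = rep g A y := by
  unfold rep
  congr 1
  funext z
  exact propext ⟨fun hz j hj => (h j hj).symm.trans (hz j hj), fun hz j hj =>
    (h j hj).trans (hz j hj)⟩

lemma fin_Chain : (range (rep g A)).Finite := by
  refine Set.Finite.of_finite_image (f := fun x (j : A) => SignType.sign (g j x))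
    (Set.toFinite _) ?_
  rintro _ ⟨x, rfl⟩ _ ⟨y, rfl⟩ e
  refine rep_Chain fun j hj => ?_
  exact (same_Chain x j hj).trans ((congrFun e ⟨j, hj⟩).trans (same_Chain y j hj).symm)

lemma key_Chain {r : ℕ} {b : Fin (r + 1) → E} (h : Chain g A b) (i : Fin r) :
    ∃ j ∈ A, (∀ l, l < i.succ → g j (b l) = 0) ∧ g j (b i.succ) ≠ 0 := by
  have h1 := h.ne i.castSucc i.succ i.castSucc_lt_succ
  unfold SameSg at h1
  push Not at h1
  obtain ⟨j, hj, hne⟩ := h1
  have h0 : g j (b i.castSucc) = 0 :=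
    (h.below i.castSucc i.succ i.castSucc_lt_succ j hj).resolve_right hne
  refine ⟨j, hj, fun l hl => ?_, fun e => hne (by rw [h0, e])⟩
  rcases (Fin.le_castSucc_iff.2 hl).lt_or_eq with h2 | h2
  · rcases h.below l i.castSucc h2 j hj with e | e
    · exact e
    · rwa [h0, sign_zero, sign_eq_zero_iff] at e
  · rw [h2, h0]

lemma zero_Chain {r : ℕ} {b : Fin (r + 1) → E} (h : Chain g A b) (w : Fin (r + 1) → ℝ)
    (h1 : ∑ l, w l = 0) (h2 : ∑ l, w l • b l = 0) (l : Fin (r + 1)) : w l = 0 := by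
  by_contra hl
  obtain ⟨m, hm, hmax⟩ := Finset.exists_max_image (Finset.univ.filter fun l => w l ≠ 0) id
    ⟨l, by simpa using hl⟩
  have hm' : w m ≠ 0 := by simpa using hm
  have hz : ∀ k, m < k → w k = 0 := fun k hk => by
    by_contra e
    exact absurd (hmax k (by simpa using e)) (not_le.2 hk)
  rcases Fin.eq_zero_or_eq_succ m with rfl | ⟨i, rfl⟩
  · rw [Finset.sum_eq_single 0 (fun k _ hk => hz k (Fin.pos_iff_ne_zero.2 hk)) (by simp)] at h1
    exact hm' h1
  · obtain ⟨j, -, ha, hb⟩ := key_Chain h i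
    have h3 := aff_Chain (g j) w b
    rw [h1, h2, Finset.sum_eq_single i.succ (fun k _ hk => ?_) (by simp)] at h3
    · exact mul_ne_zero hm' hb (by linarith)
    · rcases lt_or_gt_of_ne hk with e | e
      · rw [ha k e, mul_zero]
      · rw [hz k e, zero_mul]

lemma ind_Chain {r : ℕ} {b : Fin (r + 1) → E} (h : Chain g A b) : AffineIndependent ℝ b := by
  rw [affineIndependent_iff]
  intro s w h1 h2 e he
  have := zero_Chain h (fun l => if l ∈ s then w l else 0) (by simpa using h1)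
    (by simpa [ite_smul] using h2) e
  simpa [he] using this

lemma init_Chain {r : ℕ} {b : Fin (r + 2) → E} (h : Chain g A b) :
    Chain g A (fun l : Fin (r + 1) => b l.castSucc) :=
  ⟨fun _ => h.fix _, fun _ _ e => h.below _ _ (Fin.castSucc_lt_castSucc_iff.2 e),
    fun _ _ e => h.ne _ _ (Fin.castSucc_lt_castSucc_iff.2 e)⟩

lemma sum_Chain {r : ℕ} {b : Fin (r + 1) → E} (h : Chain g A b) {μ : Fin (r + 1) → ℝ}
    (hμ : ∀ l, 0 < μ l) {j : κ} (hj : j ∈ A) :
    SignType.sign (∑ l, μ l * g j (b l)) = SignType.sign (g j (b (Fin.last r))) :=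
  sgn_Chain (fun l => g j (b l)) μ hμ fun l hl => h.below l _ hl j hj

lemma lt_Chain {r : ℕ} {b b' : Fin (r + 2) → E} (h : Chain g A b) (h' : Chain g A b')
    {μ μ' : Fin (r + 2) → ℝ} (hμ : ∀ l, 0 < μ l) (hμ' : ∀ l, 0 < μ' l)
    (e : ∀ j ∈ A, ∑ l, μ l * g j (b l) = ∑ l, μ' l * g j (b' l))
    (hc : b (Fin.last _) = b' (Fin.last _)) : ¬ μ (Fin.last _) < μ' (Fin.last _) := by
  intro hlt
  refine h.ne (Fin.last r).castSucc (Fin.last _) (Fin.castSucc_lt_last _) fun j hj => ?_
  have h1 := sum_Chain (init_Chain h) (μ := fun l => μ l.castSucc) (fun l => hμ _) hj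
  have h2 := sum_Chain h' (μ := Fin.snoc (α := fun _ => ℝ) (fun l => μ' l.castSucc)
    (μ' (Fin.last _) - μ (Fin.last _))) (fun l => by
      refine Fin.lastCases ?_ (fun i => ?_) l
      · simpa using hlt
      · simpa using hμ' _) hj
  have h3 := e j hj
  rw [Fin.sum_univ_castSucc, Fin.sum_univ_castSucc (f := fun l => μ' l * g j (b' l)), hc] at h3
  rw [Fin.sum_univ_castSucc] at h2
  simp only [Fin.snoc_castSucc, Fin.snoc_last] at h2
  rw [← h1, hc, ← h2]
  congr 1
  linarith

lemma uniq_Chain (r : ℕ) : ∀ (b b' : Fin (r + 1) → E) (μ μ' : Fin (r + 1) → ℝ), Chain g A b →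
    Chain g A b' → (∀ l, 0 < μ l) → (∀ l, 0 < μ' l) →
    (∀ j ∈ A, ∑ l, μ l * g j (b l) = ∑ l, μ' l * g j (b' l)) → b = b' := by
  have last : ∀ (r : ℕ) (b b' : Fin (r + 1) → E) (μ μ' : Fin (r + 1) → ℝ), Chain g A b →
      Chain g A b' → (∀ l, 0 < μ l) → (∀ l, 0 < μ' l) →
      (∀ j ∈ A, ∑ l, μ l * g j (b l) = ∑ l, μ' l * g j (b' l)) →
      b (Fin.last r) = b' (Fin.last r) := by
    intro r b b' μ μ' h h' hμ hμ' e
    rw [← h.fix, ← h'.fix]
    refine rep_Chain fun j hj => ?_
    rw [← sum_Chain h hμ hj, ← sum_Chain h' hμ' hj, e j hj]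
  induction r with
  | zero =>
    intro b b' μ μ' h h' hμ hμ' e
    funext l
    have := last 0 b b' μ μ' h h' hμ hμ' e
    rwa [show l = Fin.last 0 from Fin.ext (by simp)]
  | succ r ih =>
    intro b b' μ μ' h h' hμ hμ' e
    have hc := last _ b b' μ μ' h h' hμ hμ' e
    have hm : μ (Fin.last _) = μ' (Fin.last _) :=
      le_antisymm (not_lt.1 (lt_Chain h' h hμ' hμ (fun j hj => (e j hj).symm) hc.symm))
        (not_lt.1 (lt_Chain h h' hμ hμ' e hc))
    have := ih _ _ (fun l => μ l.castSucc) (fun l => μ' l.castSucc) (init_Chain h)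
      (init_Chain h') (fun l => hμ _) (fun l => hμ' _) fun j hj => by
        have h3 := e j hj
        rw [Fin.sum_univ_castSucc, Fin.sum_univ_castSucc (f := fun l => μ' l * g j (b' l)), hc,
          hm] at h3
        exact add_right_cancel h3
    funext l
    exact Fin.lastCases hc (fun i => congrFun this i) l

end

theorem chain_facts : ChainStmt := by
  intro E _ _ κ g A
  refine ⟨same_Chain, fun x y => rep_Chain, fin_Chain, fun r b => ind_Chain,
    fun r b μ h hμ h1 j hj => ?_, fun r b b' μ μ' h h' hμ h1 hμ' h1' e => ?_⟩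
  · rw [aff_Chain, h1, sub_self, zero_mul, add_zero]
    exact sum_Chain h hμ hj
  · refine uniq_Chain r b b' μ μ' h h' hμ hμ' fun j _ => ?_
    have a := aff_Chain (g j) μ b
    have a' := aff_Chain (g j) μ' b'
    rw [e, h1, a', h1'] at a
    exact (add_right_cancel a).symm

end Pool.Agent.MP_a2955b_co.Up
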