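import Pool.Agent.MP_a2955b_co.Up.Stmt

set_option autoImplicit false

namespace Pool.Agent.MP_a2955b_co.Up

open Set Module

section aux

variable {E : Type} [NormedAddCommGroup E] [NormedSpace ℝ E] {κ : Type}

/-- `t k` vanishes at `b k` and not at `b (k+1)`. -/
def Code_ChainCount (g : κ → Af E) (A : Finset κ) {D : ℕ} (b : Fin (D + 1) → E)
    (t : Fin D → κ) : Prop :=
  ∀ k : Fin D, t k ∈ A ∧ g (t k) (b k.castSucc) = 0 ∧ g (t k) (b k.succ) ≠ 0

theorem zero_below_ChainCount {g : κ → Af E} {A : Finset κ} {r : ℕ} {b : Fin (r + 1) → E}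
    (hb : Chain g A b) {j : κ} (hj : j ∈ A) {l l' : Fin (r + 1)} (hl : l ≤ l')
    (h0 : g j (b l') = 0) : g j (b l) = 0 := by
  rcases hl.lt_or_eq with h | h
  · rcases hb.below l l' h j hj with h1 | h1
    · exact h1
    · rw [h0, sign_zero] at h1
      exact sign_eq_zero_iff.mp h1
  · rw [h]; exact h0

theorem exists_step_ChainCount {g : κ → Af E} {A : Finset κ} {D : ℕ} {b : Fin (D + 1) → E}
    (hb : Chain g A b) (k : Fin D) :
    ∃ j, j ∈ A ∧ g j (b k.castSucc) = 0 ∧ g j (b k.succ) ≠ 0 := by
  have hlt : k.castSucc < k.succ := Fin.castSucc_lt_succ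
  have h1 := hb.ne _ _ hlt
  unfold SameSg at h1
  push Not at h1
  obtain ⟨j, hj, hne⟩ := h1
  rcases hb.below _ _ hlt j hj with h2 | h2
  · refine ⟨j, hj, h2, fun h3 => hne ?_⟩
    rw [h2, h3]
  · exact absurd h2 hne

theorem map_comb_ChainCount (φ : Af E) {r : ℕ} (b : Fin r → E) (μ : Fin r → ℝ)
    (hμ : ∑ l, μ l = 1) : φ (∑ l, μ l • b l) = ∑ l, μ l * φ (b l) := by
  have hd : ∀ x, φ x = φ.linear x + φ 0 := fun x => by
    have := φ.map_vadd 0 x
    simpa using this
  rw [hd, map_sum]
  have : ∑ l, μ l * φ (b l) = ∑ l, (φ.linear (μ l • b l) + μ l * φ 0) := by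
    refine Finset.sum_congr rfl fun l _ => ?_
    rw [hd (b l), map_smul, smul_eq_mul]; ring
  rw [this, Finset.sum_add_distrib, ← Finset.sum_mul, hμ, one_mul]

theorem indep_ChainCount {g : κ → Af E} {A : Finset κ} {D : ℕ} {b : Fin (D + 1) → E}
    (hb : Chain g A b) {t : Fin D → κ} (ht : Code_ChainCount g A b t) :
    LinearIndependent ℝ (fun i => (g (t i)).linear) := by
  rw [Fintype.linearIndependent_iff]
  intro c hc
  have key : ∀ l : Fin D, ∑ i, c i * g (t i) (b l.succ) = 0 := by
    intro l
    have h1 := congrArg (fun f : E →ₗ[ℝ] ℝ => f (b l.succ - b 0)) hc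
    simp only [LinearMap.coe_sum, Finset.sum_apply, LinearMap.smul_apply, smul_eq_mul,
      LinearMap.zero_apply] at h1
    rw [← h1]
    refine Finset.sum_congr rfl fun i _ => ?_
    have h2 : (g (t i)).linear (b l.succ - b 0) = g (t i) (b l.succ) - g (t i) (b 0) := by
      have := (g (t i)).linearMap_vsub (b l.succ) (b 0)
      simpa using this
    have h3 : g (t i) (b 0) = 0 :=
      zero_below_ChainCount hb (ht i).1 (Fin.zero_le _) (ht i).2.1
    rw [h2, h3, sub_zero]
  have main : ∀ n : ℕ, ∀ l : Fin D, l.val = n → c l = 0 := by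
    intro n
    induction n using Nat.strong_induction_on with
    | _ n ih =>
      intro l hl
      have h1 := key l
      rw [Finset.sum_eq_single l] at h1
      · exact (mul_eq_zero.mp h1).resolve_right (ht l).2.2
      · intro i _ hi
        rcases lt_or_gt_of_ne hi with h | h
        · rw [ih i.val (by rw [← hl]; exact h) i rfl, zero_mul]
        · have : g (t i) (b l.succ) = 0 := by
            refine zero_below_ChainCount hb (ht i).1 ?_ (ht i).2.1
            rw [Fin.le_def]
            simp only [Fin.val_succ, Fin.val_castSucc]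
            exact h
          rw [this, mul_zero]
      · intro h; exact absurd (Finset.mem_univ l) h
  intro l
  exact main _ l rfl

theorem exists_code_ChainCount {g : κ → Af E} {A J : Finset κ} (hJ : J ⊆ A) {D : ℕ}
    {b : Fin (D + 1) → E} (hb : Chain g A b) (hl : ∀ j ∈ J, 0 < g j (b (Fin.last D))) :
    ∃ t : Fin D → κ, Code_ChainCount g A b t ∧
      ((∃ i, t i ∈ J) ∨ Vx g {x | ∀ j ∈ J, 0 < g j x} t) := by
  classical
  choose t ht using exists_step_ChainCount hb
  by_cases h0 : ∀ j ∈ J, 0 < g j (b 0)
  · refine ⟨t, ht, Or.inr ⟨indep_ChainCount hb ht, b 0, h0, fun i => ?_⟩⟩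
    exact zero_below_ChainCount hb (ht i).1 (Fin.zero_le _) (ht i).2.1
  · push Not at h0
    obtain ⟨j, hj, hj0⟩ := h0
    have hz : g j (b 0) = 0 := by
      rcases (Fin.zero_le (Fin.last D)).lt_or_eq with h | h
      · rcases hb.below _ _ h j (hJ hj) with h1 | h1
        · exact h1
        · rw [sign_pos (hl j hj)] at h1
          exact absurd (sign_eq_one_iff.mp h1) (not_lt.mpr hj0)
      · have := hl j hj
        rw [← h] at this
        exact absurd this (not_lt.mpr hj0)
    have hk : ∃ k : Fin D, g j (b k.castSucc) = 0 ∧ g j (b k.succ) ≠ 0 := by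
      by_contra hcon
      push Not at hcon
      have hall : ∀ l : Fin (D + 1), g j (b l) = 0 := by
        intro l
        induction l using Fin.induction with
        | zero => exact hz
        | succ i ih => exact hcon i ih
      exact absurd (hall (Fin.last D)) (hl j hj).ne'
    obtain ⟨k, hk1, hk2⟩ := hk
    refine ⟨Function.update t k j, fun i => ?_, Or.inl ⟨k, by simpa using hj⟩⟩
    by_cases hik : i = k
    · subst hik
      simp only [Function.update_self]
      exact ⟨hJ hj, hk1, hk2⟩
    · rw [Function.update_of_ne hik]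
      exact ht i

theorem inj_ChainCount (hC : ChainStmt) [FiniteDimensional ℝ E] {D : ℕ} (hD : finrank ℝ E = D)
    {g : κ → Af E} {A : Finset κ} {b b' : Fin (D + 1) → E} (hb : Chain g A b)
    (hb' : Chain g A b') {t : Fin D → κ} (ht : Code_ChainCount g A b t)
    (ht' : Code_ChainCount g A b' t)
    (hs : ∀ k, 0 < g (t k) (b k.succ) ↔ 0 < g (t k) (b' k.succ)) : b = b' := by
  obtain ⟨-, hrep, -, hind, -, -⟩ := hC E κ g A
  have hai : AffineIndependent ℝ b := hind D b hb
  have htop : affineSpan ℝ (range b) = ⊤ := by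
    rw [hai.affineSpan_eq_top_iff_card_eq_finrank_add_one, hD]
    simp
  have hcomb : ∀ k : Fin (D + 1), ∃ μ : Fin (D + 1) → ℝ, ∑ l, μ l = 1 ∧
      b' k = ∑ l, μ l • b l ∧ ∀ l, k < l → μ l = 0 := by
    intro k
    have hmem : b' k ∈ affineSpan ℝ (range b) := by rw [htop]; trivial
    obtain ⟨μ, hμ, hx⟩ := eq_affineCombination_of_mem_affineSpan_of_fintype hmem
    rw [Finset.affineCombination_eq_linear_combination _ _ _ hμ] at hx
    refine ⟨μ, hμ, hx, ?_⟩
    have main : ∀ n : ℕ, ∀ l : Fin (D + 1), D - l.val = n → k < l → μ l = 0 := by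
      intro n
      induction n using Nat.strong_induction_on with
      | _ n ih =>
        intro l hl hkl
        obtain ⟨i, rfl⟩ : ∃ i : Fin D, l = i.succ :=
          Fin.eq_succ_of_ne_zero (by
            intro h; rw [h] at hkl; exact absurd hkl (not_lt.mpr (Fin.zero_le _)))
        have h1 : g (t i) (b' k) = 0 := by
          refine zero_below_ChainCount hb' (ht' i).1 ?_ (ht' i).2.1
          rw [Fin.le_def]
          rw [Fin.lt_def] at hkl
          simp only [Fin.val_succ, Fin.val_castSucc] at hkl ⊢
          omega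
        rw [hx, map_comb_ChainCount _ _ _ hμ, Finset.sum_eq_single i.succ] at h1
        · exact (mul_eq_zero.mp h1).resolve_right (ht i).2.2
        · intro l' _ hl'
          rcases lt_or_gt_of_ne hl' with h | h
          · have : g (t i) (b l') = 0 := by
              refine zero_below_ChainCount hb (ht i).1 ?_ (ht i).2.1
              rw [Fin.le_def]
              rw [Fin.lt_def] at h
              simp only [Fin.val_succ, Fin.val_castSucc] at h ⊢
              omega
            rw [this, mul_zero]
          · have hlt : D - l'.val < n := by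
              have h2 := l'.isLt
              rw [Fin.lt_def] at h
              omega
            rw [ih _ hlt l' rfl (hkl.trans h), zero_mul]
        · intro h; exact absurd (Finset.mem_univ _) h
    intro l hl
    exact main _ l rfl hl
  funext k
  induction k using Fin.induction with
  | zero =>
    obtain ⟨μ, hμ, hx, hz⟩ := hcomb 0
    have h1 : μ 0 = 1 := by
      rw [← hμ, Finset.sum_eq_single 0]
      · intro l _ hl
        exact hz l (Fin.pos_iff_ne_zero.mpr hl)
      · intro h; exact absurd (Finset.mem_univ _) h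
    rw [hx, Finset.sum_eq_single 0, h1, one_smul]
    · intro l _ hl
      rw [hz l (Fin.pos_iff_ne_zero.mpr hl), zero_smul]
    · intro h; exact absurd (Finset.mem_univ _) h
  | succ i ih =>
    obtain ⟨μ, hμ, hx, hz⟩ := hcomb i.succ
    have hval : ∀ j ∈ A, g j (b i.castSucc) = 0 →
        g j (b' i.succ) = μ i.succ * g j (b i.succ) := by
      intro j hj h0
      rw [hx, map_comb_ChainCount _ _ _ hμ, Finset.sum_eq_single i.succ]
      · intro l' _ hl'
        rcases lt_or_gt_of_ne hl' with h | h
        · have : g j (b l') = 0 := by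
            refine zero_below_ChainCount hb hj ?_ h0
            rw [Fin.le_def]
            rw [Fin.lt_def] at h
            simp only [Fin.val_succ, Fin.val_castSucc] at h ⊢
            omega
          rw [this, mul_zero]
        · rw [hz l' h, zero_mul]
      · intro h; exact absurd (Finset.mem_univ _) h
    have hpos : 0 < μ i.succ := by
      have h1 := hval (t i) (ht i).1 (ht i).2.1
      have h2 := (ht i).2.2
      have h3 := (ht' i).2.2
      have h4 := hs i
      rcases lt_or_gt_of_ne h2 with h5 | h5
      · have h6 : g (t i) (b' i.succ) < 0 := by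
          rcases lt_or_gt_of_ne h3 with h7 | h7
          · exact h7
          · exact absurd (h4.mpr h7) (not_lt.mpr h5.le)
        rw [h1] at h6
        by_contra hcon
        have := mul_nonneg_of_nonpos_of_nonpos (not_lt.mp hcon) h5.le
        linarith
      · have h6 := h4.mp h5
        rw [h1] at h6
        by_contra hcon
        have := mul_nonpos_of_nonpos_of_nonneg (not_lt.mp hcon) h5.le
        linarith
    have hsame : SameSg g A (b i.succ) (b' i.succ) := by
      intro j hj
      by_cases h0 : g j (b i.castSucc) = 0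
      · rw [hval j hj h0, sign_mul, sign_pos hpos, one_mul]
      · have hlt : i.castSucc < i.succ := Fin.castSucc_lt_succ
        have h1 := (hb.below _ _ hlt j hj).resolve_left h0
        have h2 := (hb'.below _ _ hlt j hj).resolve_left (by rw [← ih]; exact h0)
        rw [← h1, ← h2, ih]
    rw [← hb.fix i.succ, ← hb'.fix i.succ]
    exact hrep _ _ hsame

end aux

theorem chainCount_of (hC : ChainStmt) : ChainCountStmt := by
  classical
  intro E _ _ _ D hD κ g A J hJ
  set S : Set (Fin (D + 1) → E) :=
    {b | Chain g A b ∧ ∀ j ∈ J, 0 < g j (b (Fin.last D))} with hS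
  set T : Set (Fin D → κ) := {t | (∀ i, t i ∈ A) ∧
    ((∃ i, t i ∈ J) ∨ Vx g {x | ∀ j ∈ J, 0 < g j x} t)} with hT
  have hTfin : T.Finite := by
    refine (Fintype.piFinset (fun _ : Fin D => A)).finite_toSet.subset ?_
    intro t ht
    simp only [Finset.mem_coe, Fintype.mem_piFinset]
    exact ht.1
  rcases S.eq_empty_or_nonempty with hSe | ⟨b0, hb0⟩
  · rw [hSe, Set.ncard_empty]; exact Nat.zero_le _
  have hex : ∀ b : Fin (D + 1) → E, ∃ t : Fin D → κ,
      b ∈ S → Code_ChainCount g A b t ∧ t ∈ T := by
    intro b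
    by_cases hb : b ∈ S
    · obtain ⟨t, h1, h2⟩ := exists_code_ChainCount hJ hb.1 hb.2
      exact ⟨t, fun _ => ⟨h1, fun i => (h1 i).1, h2⟩⟩
    · obtain ⟨t, -, -⟩ := exists_code_ChainCount hJ hb0.1 hb0.2
      exact ⟨t, fun h => absurd h hb⟩
  choose f hf using hex
  have hle := Set.ncard_le_ncard_of_injOn (s := S)
    (t := (univ : Set (Fin D → Bool)) ×ˢ T)
    (fun b => (fun k => decide (0 < g (f b k) (b k.succ)), f b))
    (fun b hb => ⟨mem_univ _, (hf b hb).2⟩)
    (fun b hb b' hb' h => by
      have h1 : f b = f b' := congrArg Prod.snd h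
      have h2 := congrArg Prod.fst h
      refine inj_ChainCount hC hD hb.1 hb'.1 (hf b hb).1 (by rw [h1]; exact (hf b' hb').1) ?_
      intro k
      have h3 := congrFun h2 k
      simp only [decide_eq_decide] at h3
      rw [h3, h1])
    (Set.finite_univ.prod hTfin)
  rw [Set.ncard_prod, Set.ncard_univ, Nat.card_eq_fintype_card] at hle
  simpa using hle

end Pool.Agent.MP_a2955b_co.Up
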