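import Pool.Agent.MP_a2955b_co.Up.Stmt

/-! Every point of a bounded region lies in the open simplex of a chain. -/

set_option autoImplicit false

namespace Pool.Agent.MP_a2955b_co.Up

open Set Module

theorem real_ChainEx {u v s : ℝ} (h : SignType.sign u = SignType.sign v) (hs : 0 ≤ s)
    (hb : u * (u - v) < 0 → s ≤ u / (v - u)) :
    u + s * (u - v) = 0 ∨ SignType.sign (u + s * (u - v)) = SignType.sign u := by
  rcases lt_trichotomy u 0 with hu | hu | hu
  · have h1 : u + s * (u - v) ≤ 0 := by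
      rcases le_or_gt (u - v) 0 with e | e
      · nlinarith [mul_nonneg hs (neg_nonneg.2 e)]
      · have := hb (mul_neg_of_neg_of_pos hu e)
        rw [le_div_iff_of_neg (by linarith)] at this
        linarith
    exact h1.eq_or_lt.imp id fun e => by rw [sign_neg e, sign_neg hu]
  · rw [hu, sign_zero, eq_comm, sign_eq_zero_iff] at h
    left
    rw [hu, h]
    ring
  · have h1 : 0 ≤ u + s * (u - v) := by
      rcases le_or_gt 0 (u - v) with e | e
      · nlinarith [mul_nonneg hs e]
      · have := hb (mul_neg_of_pos_of_neg hu e)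
        rw [le_div_iff₀ (by linarith)] at this
        linarith
    exact h1.eq_or_lt.imp Eq.symm fun e => by rw [sign_pos e, sign_pos hu]

variable {E : Type} [NormedAddCommGroup E] [NormedSpace ℝ E] {κ : Type} {g : κ → Af E}
  {A J : Finset κ}

theorem trans_ChainEx {x y z : E} (h : Below g A x y) (h' : Below g A y z) : Below g A x z :=
  fun j hj => (h j hj).elim Or.inl fun e => (h' j hj).elim
    (fun e' => Or.inl (by rwa [e', sign_zero, sign_eq_zero_iff] at e)) fun e' => Or.inr (e.trans e')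

theorem mem_ChainEx (hJ : J ⊆ A) {x y : E} (h : Below g A y x) (hx : ∀ j ∈ J, 0 ≤ g j x) :
    ∀ j ∈ J, 0 ≤ g j y := fun j hj => (h j (hJ hj)).elim Eq.ge fun e => by
  rw [← sign_nonneg_iff, e, sign_nonneg_iff]
  exact hx j hj

theorem val_ChainEx (f : Af E) (x c : E) (s : ℝ) :
    f (s • (x - c) + x) = f x + s * (f x - f c) := by
  have h := f.map_vadd x (s • (x - c))
  have h2 := f.linearMap_vsub x c
  rw [vadd_eq_add, vadd_eq_add, map_smul] at h
  rw [vsub_eq_sub, vsub_eq_sub] at h2
  rw [h, h2, smul_eq_mul, add_comm]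

theorem step_ChainEx (hJ : J ⊆ A) (hB : Bornology.IsBounded {x | ∀ j ∈ J, 0 ≤ g j x}) {x c : E}
    (hx : ∀ j ∈ J, 0 ≤ g j x) (hc : SameSg g A x c) (hne : x ≠ c) :
    ∃ (y : E) (t : ℝ), 0 < t ∧ t < 1 ∧ x = t • y + (1 - t) • c ∧ Below g A y x ∧
      ∃ j ∈ A, g j y = 0 ∧ g j x ≠ 0 := by
  classical
  rcases (A.filter fun j => g j x * (g j x - g j c) < 0).eq_empty_or_nonempty with h | h
  · exfalso
    obtain ⟨R, hR, hR'⟩ := hB.exists_pos_norm_le
    have h0 : 0 < ‖x - c‖ := norm_pos_iff.2 (sub_ne_zero.2 hne)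
    have hs : 0 ≤ (R + ‖x‖ + 1) / ‖x - c‖ := by positivity
    have h1 : Below g A (((R + ‖x‖ + 1) / ‖x - c‖) • (x - c) + x) x := fun j hj => by
      rw [val_ChainEx]
      exact real_ChainEx (hc j hj) hs fun e =>
        absurd e (Finset.filter_eq_empty_iff.1 h hj)
    have h2 := hR' _ (mem_ChainEx hJ h1 hx)
    have h3 := norm_sub_le (((R + ‖x‖ + 1) / ‖x - c‖) • (x - c) + x) x
    rw [add_sub_cancel_right, norm_smul, Real.norm_of_nonneg hs, div_mul_cancel₀ _ h0.ne'] at h3
    linarith
  · obtain ⟨i, hi, hmin⟩ := Finset.exists_min_image _ (fun j => g j x / (g j c - g j x)) h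
    obtain ⟨hiA, hi⟩ := Finset.mem_filter.1 hi
    have h1 : g i c - g i x ≠ 0 := fun e => by
      rw [show g i x - g i c = 0 by linarith, mul_zero] at hi
      exact lt_irrefl _ hi
    have hs : 0 < g i x / (g i c - g i x) := by
      rw [div_pos_iff]
      rcases mul_neg_iff.1 hi with e | e
      · exact Or.inl ⟨e.1, by linarith [e.2]⟩
      · exact Or.inr ⟨e.1, by linarith [e.2]⟩
    obtain ⟨s, hs'⟩ : ∃ s, s = g i x / (g i c - g i x) := ⟨_, rfl⟩
    rw [← hs'] at hs hmin
    have h2 : 0 < 1 + s := by linarith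
    refine ⟨s • (x - c) + x, (1 + s)⁻¹, inv_pos.2 h2, inv_lt_one_of_one_lt₀ (by linarith), ?_,
      fun j hj => ?_, i, hiA, ?_, fun e => ?_⟩
    · match_scalars <;> field_simp <;> ring
    · rw [val_ChainEx]
      exact real_ChainEx (hc j hj) hs.le fun e => hmin j (Finset.mem_filter.2 ⟨hj, e⟩)
    · rw [val_ChainEx, hs']
      field_simp
      ring
    · rw [e, zero_mul] at hi
      exact lt_irrefl _ hi

theorem snoc_ChainEx {r : ℕ} {b : Fin (r + 1) → E} {c : E} (hb : Chain g A b)
    (hc : rep g A c = c) (h1 : ∀ l, Below g A (b l) c) (h2 : ∀ l, ¬ SameSg g A (b l) c) :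
    Chain g A (Fin.snoc (α := fun _ => E) b c) := by
  have key : ∀ P : E → E → Prop, (∀ l l', l < l' → P (b l) (b l')) → (∀ l, P (b l) c) →
      ∀ l l' : Fin (r + 1 + 1), l < l' →
        P (Fin.snoc (α := fun _ => E) b c l) (Fin.snoc (α := fun _ => E) b c l') := by
    intro P p1 p2 l l' h
    induction l using Fin.lastCases with
    | last => exact absurd h (Fin.le_last _).not_gt
    | cast l =>
      induction l' using Fin.lastCases with
      | last => simpa using p2 l
      | cast l' => simpa using p1 l l' (Fin.castSucc_lt_castSucc_iff.1 h)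
  refine ⟨fun l => ?_, key _ hb.below h1, key (fun x y => ¬ SameSg g A x y) hb.ne h2⟩
  induction l using Fin.lastCases with
  | last => simpa using hc
  | cast l => simpa using hb.fix l

theorem chainEx_of (hC : ChainStmt) : ChainExStmt := by
  classical
  intro E _ _ κ g A J hJ hB x hx
  obtain ⟨c1, c2, -, -, c5, -⟩ := hC E κ g A
  induction hn : (A.filter fun j => g j x ≠ 0).card using Nat.strong_induction_on generalizing x with
  | _ n ih =>
  by_cases hne : x = rep g A x
  · refine ⟨0, fun _ => x, fun _ => 1, ⟨fun _ => hne.symm, fun l l' h => ?_, fun l l' h => ?_⟩,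
      fun _ => one_pos, by simp, by simp⟩ <;> omega
  obtain ⟨y, t, t0, t1, e, hy, i, hi, hiy, hix⟩ := step_ChainEx hJ hB hx (c1 x) hne
  have hlt : (A.filter fun j => g j y ≠ 0).card < n := by
    rw [← hn]
    refine Finset.card_lt_card ⟨fun j hj => ?_, fun h => ?_⟩
    · obtain ⟨hj, h0⟩ := Finset.mem_filter.1 hj
      refine Finset.mem_filter.2 ⟨hj, fun e' => h0 ?_⟩
      exact (hy j hj).elim id fun e'' => by rwa [e', sign_zero, sign_eq_zero_iff] at e''
    · exact (Finset.mem_filter.1 (h (Finset.mem_filter.2 ⟨hi, hix⟩))).2 hiy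
  obtain ⟨r, b, μ, hb, μ0, μ1, hyb⟩ := ih _ hlt y (mem_ChainEx hJ hy hx) rfl
  have h1 : SameSg g A y (b (Fin.last r)) := hyb ▸ c5 r b μ hb μ0 μ1
  have h2 : ∀ l, Below g A (b l) y := fun l => by
    refine trans_ChainEx (y := b (Fin.last r)) ?_ fun j hj => Or.inr (h1 j hj).symm
    rcases (Fin.le_last l).eq_or_lt with rfl | h
    · exact fun j _ => Or.inr rfl
    · exact hb.below _ _ h
  refine ⟨r + 1, Fin.snoc (α := fun _ => E) b (rep g A x),
    Fin.snoc (α := fun _ => ℝ) (fun l => t * μ l) (1 - t),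
    snoc_ChainEx hb (c2 _ _ (c1 x)).symm
      (fun l => trans_ChainEx (trans_ChainEx (h2 l) hy) fun j hj => Or.inr (c1 x j hj))
      fun l h => hix ?_, fun l => ?_, ?_, ?_⟩
  · have h3 : g i (b l) = 0 :=
      (h2 l i hi).elim id fun e' => by rwa [hiy, sign_zero, sign_eq_zero_iff] at e'
    rw [← sign_eq_zero_iff, c1 x i hi, ← h i hi, h3, sign_zero]
  · induction l using Fin.lastCases with
    | last => simpa using t1
    | cast l => simpa using mul_pos t0 (μ0 l)
  · rw [Fin.sum_univ_castSucc]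
    simp only [Fin.snoc_castSucc, Fin.snoc_last]
    rw [← Finset.mul_sum, μ1]
    ring
  · rw [Fin.sum_univ_castSucc]
    simp only [Fin.snoc_castSucc, Fin.snoc_last, mul_smul]
    rw [← Finset.smul_sum, ← hyb]
    exact e

end Pool.Agent.MP_a2955b_co.Up
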