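import Pool.Agent.MP_a2955b_co.Up.Stmt

set_option autoImplicit false

namespace Pool.Agent.MP_a2955b_co.Up

open Set Module

lemma rank_Coord {X : Type} [NormedAddCommGroup X] [NormedSpace ℝ X] {D : ℕ} (hD : 1 ≤ D)
    (T : Finset X) (hT : T.card ≤ D) : finrank ℝ (vectorSpan ℝ (T : Set X)) < D := by
  classical
  rcases Nat.eq_zero_or_pos T.card with h0 | h0
  · rw [Finset.card_eq_zero] at h0
    subst h0
    rw [Finset.coe_empty, vectorSpan_empty, finrank_bot]
    omega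
  · have h := finrank_vectorSpan_image_finset_le ℝ (fun x : X => x) T
      (n := T.card - 1) (by omega)
    rw [Finset.image_id'] at h
    omega

/-- the shear taking `(0,1)` to `e` -/
noncomputable def shear_Coord {D : ℕ} (e : (Fin D → ℝ) × ℝ) :
    ((Fin D → ℝ) × ℝ) →ₗ[ℝ] ((Fin D → ℝ) × ℝ) where
  toFun z := (z.1 + z.2 • e.1, z.2 * e.2)
  map_add' z w := by
    ext i
    · simp only [Prod.fst_add, Prod.snd_add, Pi.add_apply, Pi.smul_apply, smul_eq_mul]; ring
    · simp only [Prod.snd_add]; ring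
  map_smul' c z := by
    ext i
    · simp only [Prod.smul_fst, Prod.smul_snd, Pi.add_apply, Pi.smul_apply, smul_eq_mul,
        RingHom.id_apply]; ring
    · simp only [Prod.smul_snd, smul_eq_mul, RingHom.id_apply]; ring

lemma shear_inj_Coord {D : ℕ} (e : (Fin D → ℝ) × ℝ) (he : e.2 ≠ 0) :
    Function.Injective (shear_Coord e) := by
  rw [← LinearMap.ker_eq_bot, LinearMap.ker_eq_bot']
  intro z hz
  have h1 : z.1 + z.2 • e.1 = 0 := congrArg Prod.fst hz
  have h2 : z.2 * e.2 = 0 := congrArg Prod.snd hz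
  have h3 : z.2 = 0 := (mul_eq_zero.1 h2).resolve_right he
  rw [h3, zero_smul, add_zero] at h1
  exact Prod.ext h1 h3

lemma flat_Coord {D : ℕ} (V : Submodule ℝ ((Fin D → ℝ) × ℝ)) (hV : finrank ℝ V < D)
    (h01 : ((0, 1) : (Fin D → ℝ) × ℝ) ∉ V) (z0 : (Fin D → ℝ) × ℝ) :
    ∃ φ h : Af (Fin D → ℝ), φ.linear ≠ 0 ∧ ∀ z, z - z0 ∈ V → z ∈ fl φ h := by
  obtain ⟨f, hf, hfV⟩ := V.exists_dual_map_eq_bot_of_notMem h01 inferInstance
  have hlt : V.map (LinearMap.fst ℝ (Fin D → ℝ) ℝ) < ⊤ := by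
    rw [lt_top_iff_ne_top]
    intro h
    have h1 := Submodule.finrank_map_le (LinearMap.fst ℝ (Fin D → ℝ) ℝ) V
    rw [h, finrank_top, finrank_fin_fun] at h1
    omega
  obtain ⟨l, hl, hlV⟩ := Submodule.exists_dual_map_eq_bot_of_lt_top hlt inferInstance
  set c : ℝ := f (0, 1) with hc
  let η : (Fin D → ℝ) →ₗ[ℝ] ℝ := (-c⁻¹) • (f.comp (LinearMap.inl ℝ (Fin D → ℝ) ℝ))
  refine ⟨l.toAffineMap - AffineMap.const ℝ _ (l z0.1),
    η.toAffineMap + AffineMap.const ℝ _ (z0.2 - η z0.1), ?_, ?_⟩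
  · simpa using hl
  · intro z hz
    have h1 : l (z - z0).1 = 0 := by
      have : l (z - z0).1 ∈ (V.map (LinearMap.fst ℝ (Fin D → ℝ) ℝ)).map l :=
        Submodule.mem_map_of_mem (Submodule.mem_map_of_mem hz)
      rwa [hlV, Submodule.mem_bot] at this
    have h2 : f (z - z0) = 0 := by
      have : f (z - z0) ∈ V.map f := Submodule.mem_map_of_mem hz
      rwa [hfV, Submodule.mem_bot] at this
    have h3 : z - z0 = ((z.1, 0) : (Fin D → ℝ) × ℝ) - (z0.1, 0) + (z.2 - z0.2) • (0, 1) := by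
      ext i <;> simp
    rw [h3, map_add, map_sub, map_smul, ← hc, smul_eq_mul] at h2
    rw [Prod.fst_sub, map_sub] at h1
    refine ⟨?_, ?_⟩
    · simpa using h1
    · simp only [AffineMap.coe_add, Pi.add_apply, LinearMap.coe_toAffineMap,
        AffineMap.const_apply, η, LinearMap.smul_apply, LinearMap.comp_apply,
        LinearMap.inl_apply, smul_eq_mul]
      field_simp
      linarith

theorem coord : CoordStmt := by
  intro X _ _ _ D hX hD TT hTT hcard
  have hr : finrank ℝ X = finrank ℝ ((Fin D → ℝ) × ℝ) := by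
    rw [hX, finrank_prod, finrank_fin_fun, finrank_self]
  let A : X ≃ₗ[ℝ] ((Fin D → ℝ) × ℝ) := LinearEquiv.ofFinrankEq _ _ hr
  haveI : Finite TT := hTT
  let p : Option TT → Submodule ℝ ((Fin D → ℝ) × ℝ) := fun o =>
    match o with
    | none => LinearMap.ker (LinearMap.snd ℝ (Fin D → ℝ) ℝ)
    | some T => (vectorSpan ℝ ((T : Finset X) : Set X)).map A.toLinearMap
  have hp : ∀ o, p o ≠ ⊤ := by
    rintro (_ | T) h
    · have : ((0, 1) : (Fin D → ℝ) × ℝ) ∈ p none := h ▸ Submodule.mem_top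
      simp [p] at this
    · have h1 := Submodule.finrank_map_le A.toLinearMap (vectorSpan ℝ ((T : Finset X) : Set X))
      have h2 := rank_Coord hD (T : Finset X) (hcard _ T.2)
      have h3 : finrank ℝ (p (some T)) = D + 1 := by
        rw [h, finrank_top, ← hr, hX]
      have h4 : finrank ℝ (p (some T)) ≤ _ := h1
      omega
  obtain ⟨e, he⟩ := Submodule.exists_forall_notMem_of_forall_ne_top p hp
  have he2 : e.2 ≠ 0 := fun h => he none (by simpa [p] using h)
  let C : ((Fin D → ℝ) × ℝ) ≃ₗ[ℝ] ((Fin D → ℝ) × ℝ) :=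
    LinearEquiv.ofInjectiveEndo (shear_Coord e) (shear_inj_Coord e he2)
  have hC : C (0, 1) = e := by
    change shear_Coord e (0, 1) = e
    ext i <;> simp [shear_Coord]
  let B : X ≃ₗ[ℝ] ((Fin D → ℝ) × ℝ) := A.trans C.symm
  refine ⟨B.toContinuousLinearEquiv, fun T hT => ?_⟩
  have hV : finrank ℝ ((vectorSpan ℝ (T : Set X)).map B.toLinearMap) < D :=
    lt_of_le_of_lt (Submodule.finrank_map_le _ _) (rank_Coord hD T (hcard T hT))
  have h01 : ((0, 1) : (Fin D → ℝ) × ℝ) ∉ (vectorSpan ℝ (T : Set X)).map B.toLinearMap := by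
    rintro ⟨x, hx, hx'⟩
    refine he (some ⟨T, hT⟩) ⟨x, hx, ?_⟩
    have h1 : C.symm (A x) = (0, 1) := hx'
    rw [LinearEquiv.symm_apply_eq, hC] at h1
    exact h1
  rcases T.eq_empty_or_nonempty with rfl | ⟨t0, ht0⟩
  · obtain ⟨φ, h, h1, -⟩ := flat_Coord _ hV h01 0
    exact ⟨φ, h, h1, fun x hx => by simp at hx⟩
  · obtain ⟨φ, h, h1, h2⟩ := flat_Coord _ hV h01 (B t0)
    refine ⟨φ, h, h1, fun x hx => h2 _ ⟨x - t0, ?_, ?_⟩⟩
    · have := AffineSubspace.vsub_mem_direction (convexHull_subset_affineSpan _ hx)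
        (subset_affineSpan ℝ (T : Set X) ht0)
      rwa [direction_affineSpan] at this
    · simp

end Pool.Agent.MP_a2955b_co.Up
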