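import Pool.Agent.MP_a2955b_co.Up.Basic

/-! The vertex sensitive cutting. -/

set_option autoImplicit false

namespace Pool.Agent.MP_a2955b_co.Up

open Set Module

theorem ranges_Cut (hG : SgnStmt) (E : Type) [NormedAddCommGroup E] [NormedSpace ℝ E]
    [FiniteDimensional ℝ E] (ι : Type) [Fintype ι] (φ : ι → Af E) (F : Set ι) :
    {r : Set ι | ∃ x y : E, r = {i | i ∈ F ∧ 0 < φ i x ∧ φ i y < 0}}.ncard ≤
      (Fintype.card ι + 1) ^ (2 * (finrank ℝ E + 1)) := by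
  have h1 := hG E ι φ
  have h2 := hG E ι (fun i => -φ i)
  have hsub : {r : Set ι | ∃ x y : E, r = {i | i ∈ F ∧ 0 < φ i x ∧ φ i y < 0}} ⊆
      (fun p : Set ι × Set ι => F ∩ (p.1 ∩ p.2)) ''
        ({P : Set ι | ∃ x, P = {i | 0 < φ i x}} ×ˢ {P : Set ι | ∃ x, P = {i | 0 < (-φ i) x}}) := by
    rintro r ⟨x, y, rfl⟩
    refine ⟨({i | 0 < φ i x}, {i | 0 < (-φ i) y}), ⟨⟨x, rfl⟩, ⟨y, rfl⟩⟩, ?_⟩
    ext i
    simp only [mem_inter_iff, mem_ofPred_eq, AffineMap.coe_neg, Pi.neg_apply, neg_pos]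
  refine (Set.ncard_le_ncard hsub (Set.toFinite _)).trans ?_
  refine (Set.ncard_image_le (Set.toFinite _)).trans ?_
  rw [Set.ncard_prod, two_mul, pow_add]
  exact Nat.mul_le_mul h1 h2

theorem cut_of (hG : SgnStmt) (hS : SimpStmt) (hT : TriStmt) (hR : SampleStmt) : CutStmt := by
  classical
  intro E _ _ _ D hD h1 ι _ φ hφ F w0 τ hτ W hW k t lam hlam hk
  obtain ⟨hb, G0, hG0c, hG0, hτ⟩ := hτ
  have hRg := ranges_Cut hG E ι φ F
  rw [hD] at hRg
  obtain ⟨R, hRk, hnet, hN⟩ := hR ι D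
    {r : Set ι | ∃ x y : E, r = {i | i ∈ F ∧ 0 < φ i x ∧ φ i y < 0}}
    {t : Fin D → ι | (∀ i, t i ∈ F) ∧ Vx φ τ t}
    (fun x hx => Function.Injective.of_comp (f := fun j => (φ j).linear) hx.2.1.injective)
    k t lam (lt_of_le_of_lt (Nat.mul_le_mul_left 2 hRg) hlam) hk
  let g : Af E ⊕ ι → Af E := Sum.elim id φ
  let A : Finset (Af E ⊕ ι) := (G0 ∪ W).disjSum (R.filter (· ∈ F))
  let J : Finset (Af E ⊕ ι) := G0.disjSum ∅
  let J' : Finset (Af E ⊕ ι) := (G0 ∪ W).disjSum ∅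
  have hJ : {x | ∀ j ∈ J, 0 < g j x} = τ := by
    rw [hτ]
    ext x
    simp [J, g]
  have hJA : J ⊆ A := Finset.disjSum_mono Finset.subset_union_left (Finset.empty_subset _)
  have hA : ∀ j ∈ A, (g j).linear ≠ 0 := by
    rintro (j | j) hj
    · rcases Finset.mem_union.1 (Finset.inl_mem_disjSum.1 hj) with h | h
      · exact hG0 j h
      · exact hW j h
    · exact hφ j
  obtain ⟨C, hC, hCS, hCc⟩ := hT E D hD _ g A J hJA hA (hJ ▸ hb)
  rw [hJ] at hC hCc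
  refine ⟨C, _, hC, fun S hSC => ?_, hCc.trans (Nat.mul_le_mul_left _ ?_), hN,
    Set.ncard_le_ncard (fun x hx => hx.1) (Set.toFinite _)⟩
  · obtain ⟨⟨b, rfl⟩, hne⟩ := hCS S hSC
    obtain ⟨s1, -, -, s4, s5⟩ := hS E D b
    refine ⟨s1 h1, fun w hw => hne (Sum.inl w)
      (Finset.inl_mem_disjSum.2 (Finset.mem_union_right _ hw)), ?_⟩
    have hsub : {i | i ∈ F ∧ ∃ x ∈ Simp b, φ i x = 0} ⊆ ⋃ p : Fin (D + 1) × Fin (D + 1),
        {i | i ∈ F ∧ 0 < φ i (b p.1) ∧ φ i (b p.2) < 0} := by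
      rintro i ⟨hi, hx⟩
      obtain ⟨l, l', h⟩ := s4 (φ i) (hφ i) hx
      exact mem_iUnion.2 ⟨(l, l'), hi, h⟩
    refine (Set.ncard_le_ncard hsub (Set.toFinite _)).trans
      ((Set.ncard_iUnion_le_of_fintype _).trans ?_)
    refine (Finset.sum_le_card_nsmul _ _ t fun p _ => hnet _ ⟨_, _, rfl⟩ ?_).trans ?_
    · rw [Set.disjoint_left]
      rintro i ⟨hi, h⟩ hiR
      exact s5 (φ i) (hne (Sum.inr i) (Finset.inr_mem_disjSum.2
        (Finset.mem_filter.2 ⟨hiR, hi⟩))) _ _ h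
    · simp [sq]
  · have hsub : {t : Fin D → Af E ⊕ ι | (∀ i, t i ∈ A) ∧ ((∃ i, t i ∈ J) ∨ Vx g τ t)} ⊆
        {t : Fin D → Af E ⊕ ι | (∀ i, t i ∈ A) ∧ ∃ i, t i ∈ J'} ∪
          (fun t' : Fin D → ι => fun i => (Sum.inr (t' i) : Af E ⊕ ι)) ''
            {x | x ∈ {t : Fin D → ι | (∀ i, t i ∈ F) ∧ Vx φ τ t} ∧ ∀ i, x i ∈ R} := by
      rintro u ⟨hu, hv⟩
      by_cases hc : ∃ i, u i ∈ J'
      · exact Or.inl ⟨hu, hc⟩
      · right
        have hex : ∀ i, ∃ j, u i = Sum.inr j := by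
          intro i
          rcases hui : u i with j | j
          · refine (hc ⟨i, ?_⟩).elim
            have := hu i
            rw [hui] at this ⊢
            exact Finset.inl_mem_disjSum.2 (Finset.inl_mem_disjSum.1 this)
          · exact ⟨j, rfl⟩
        choose t' ht' using hex
        obtain rfl : u = fun i => Sum.inr (t' i) := funext ht'
        have hm : ∀ i, t' i ∈ R ∧ t' i ∈ F := fun i =>
          Finset.mem_filter.1 (Finset.inr_mem_disjSum.1 (hu i))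
        refine ⟨t', ⟨⟨fun i => (hm i).2, ?_⟩, fun i => (hm i).1⟩, rfl⟩
        rcases hv with ⟨i, hi⟩ | hv
        · simp [J] at hi
        · exact hv
    have hfin : {t : Fin D → Af E ⊕ ι | (∀ i, t i ∈ A) ∧ ∃ i, t i ∈ J'}.Finite :=
      (ncard_tuples D (A : Set (Af E ⊕ ι)) A.finite_toSet).1.subset fun _ h => h.1
    refine (Set.ncard_le_ncard hsub (hfin.union (Set.toFinite _))).trans
      ((Set.ncard_union_le _ _).trans (Nat.add_le_add ((ncard_hit D A J').trans ?_)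
        (Set.ncard_image_le (Set.toFinite _))))
    have c1 : (G0 ∪ W).card ≤ w0 + W.card :=
      (Finset.card_union_le _ _).trans (Nat.add_le_add_right hG0c _)
    have c2 : J'.card ≤ w0 + W.card := by simpa [J'] using c1
    have c3 : A.card ≤ w0 + W.card + k := by
      rw [Finset.card_disjSum]
      exact Nat.add_le_add c1 ((Finset.card_filter_le _ _).trans hRk)
    exact Nat.mul_le_mul (Nat.mul_le_mul_left _ c2) (Nat.pow_le_pow_left c3 _)

end Pool.Agent.MP_a2955b_co.Up
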