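import Pool.Agent.MP_a2955b_co.Up.PolyV

/-! Definitions for the upper bound `n^(d-1-δ)` on convex partitions. -/

set_option autoImplicit false

namespace Pool.Agent.MP_a2955b_co.Up

open Set

/-- Real affine functions on `E`. -/
abbrev Af (E : Type) [NormedAddCommGroup E] [NormedSpace ℝ E] : Type := E →ᵃ[ℝ] ℝ

section general

variable {E : Type} [NormedAddCommGroup E] [NormedSpace ℝ E]

/-- Open polyhedral sets. -/
def OP (O : Set E) : Prop := ∃ G : Finset (Af E), O = {x | ∀ g ∈ G, 0 < g x}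

/-- `C` is a partition of `σ` into open polyhedral cells (up to a nowhere dense set). -/
structure Part (σ : Set E) (C : Finset (Set E)) : Prop where
  op : ∀ O ∈ C, OP O
  sub : ∀ O ∈ C, O ⊆ σ
  disj : ∀ O ∈ C, ∀ O' ∈ C, O ≠ O' → Disjoint O O'
  cover : σ ⊆ closure (⋃ O ∈ C, O)

/-- Bounded open polyhedral set cut out by at most `k` nonconstant affine functions. -/
def Cell (k : ℕ) (τ : Set E) : Prop :=
  Bornology.IsBounded τ ∧ ∃ G : Finset (Af E), G.card ≤ k ∧ (∀ g ∈ G, g.linear ≠ 0) ∧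
    τ = {x | ∀ g ∈ G, 0 < g x}

/-- The open simplex of an affine basis. -/
def Simp {D : ℕ} (b : AffineBasis (Fin (D + 1)) ℝ E) : Set E := {x | ∀ l, 0 < b.coord l x}

/-- The codimension two flat over the hyperplane `φ = 0` at height `h`. -/
def fl (φ h : Af E) : Set (E × ℝ) := {z | φ z.1 = 0 ∧ z.2 = h z.1}

/-- The tuple `t` of hyperplanes is independent and has its common point in `τ`. -/
def Vx {ι : Type} {D : ℕ} (φ : ι → Af E) (τ : Set E) (t : Fin D → ι) : Prop :=
  LinearIndependent ℝ (fun i => (φ (t i)).linear) ∧ ∃ p ∈ τ, ∀ i, φ (t i) p = 0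

/-- Number of vertex tuples from `F` inside `τ`. -/
noncomputable def XX {ι : Type} (D : ℕ) (φ : ι → Af E) (F : Set ι) (τ : Set E) : ℕ :=
  {t : Fin D → ι | (∀ i, t i ∈ F) ∧ Vx φ τ t}.ncard

/-- A common zero of the tuple `t` (if there is one). -/
noncomputable def vx {ι : Type} {D : ℕ} (φ : ι → Af E) (t : Fin D → ι) : E :=
  Classical.epsilon (fun p => ∀ i, φ (t i) p = 0)

/-- Vertex tuple whose heights over the vertex are sorted. -/
def Srt {ι : Type} {D : ℕ} (φ h : ι → Af E) (t : Fin D → ι) : Prop :=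
  Vx φ univ t ∧ Monotone (fun i => h (t i) (vx φ t))

/-- The box with outer walls `o` and centre `t`. -/
def box {ι : Type} {D : ℕ} (o : Fin D → Bool → ι) (t : Fin D → ι) : Fin D → Fin 3 → ι :=
  fun i => ![o i false, t i, o i true]

/-- A homogeneous `3 × ... × 3` box of hyperplanes. -/
def Good {ι : Type} {D : ℕ} (φ h : ι → Af E) (e : Fin D → Fin 3 → ι) : Prop :=
  (∀ j : Fin D → Fin 3, Srt φ h (fun i => e i (j i))) ∧
    ∃ σ σ' : Fin D → SignType, ∀ (j : Fin D → Fin 3) (i : Fin D) (k : Fin 3),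
      (k < j i → SignType.sign (φ (e i k) (vx φ (fun i' => e i' (j i')))) = σ i) ∧
      (j i < k → SignType.sign (φ (e i k) (vx φ (fun i' => e i' (j i')))) = σ' i)

/-- The walls `W` and the cuts `G` separate the flats of the tuple `t`. -/
def Kills {ι : Type} {D : ℕ} (φ h : ι → Af E) (W : Finset (Af E)) (G : Finset (Af (E × ℝ)))
    (t : Fin D → ι) : Prop :=
  ∀ (S : Set E) (O : Set (E × ℝ)), Convex ℝ S → (∃ p ∈ S, ∀ i, φ (t i) p = 0) →
    (∀ w ∈ W, ∀ x ∈ S, w x ≠ 0) → IsOpen O → Convex ℝ O → (∀ z ∈ O, z.1 ∈ S) →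
    (∀ g ∈ G, ∀ z ∈ O, g z ≠ 0) → ¬ ∀ i, (O ∩ fl (φ (t i)) (h (t i))).Nonempty

/-- Points on or above the convex hull of `T`. -/
def Above (T : Set (E × ℝ)) : Set (E × ℝ) :=
  {z | ∃ w ∈ convexHull ℝ T, w.1 = z.1 ∧ w.2 ≤ z.2}

/-- The outer corner of the grid given by `ε`. -/
def cj {D : ℕ} (ε : Fin D → Bool) : Fin D → Fin 3 := fun i => if ε i then 2 else 0

/-- Lifted outer corners, omitting those with `ε 0 = α` and `ε 1 = β`. -/
def Lf {n : ℕ} (v : (Fin (n + 3) → Fin 3) → E) (hb : Fin 3 → Af E) (α β : Bool) :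
    Set (E × ℝ) :=
  {z | ∃ ε : Fin (n + 3) → Bool, ¬ (ε 0 = α ∧ ε 1 = β) ∧
    z = (v (cj ε), hb (cj ε 1) (v (cj ε)))}

/-- A normalised sorted grid of hyperplanes with vertices `v`. -/
structure Grid {n : ℕ} (φ h : Fin (n + 3) → Fin 3 → Af E)
    (v : (Fin (n + 3) → Fin 3) → E) : Prop where
  zero : ∀ j i, φ i (j i) (v j) = 0
  pos : ∀ j i k, k < j i → 0 < φ i k (v j)
  neg : ∀ j i k, j i < k → φ i k (v j) < 0
  ab : ∀ j, h 0 (j 0) (v j) ≤ h 1 (j 1) (v j)
  bc : ∀ j, h 1 (j 1) (v j) ≤ h 2 (j 2) (v j)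

/-- Same sign vector on `A`. -/
def SameSg {κ : Type} (g : κ → Af E) (A : Finset κ) (x y : E) : Prop :=
  ∀ j ∈ A, SignType.sign (g j x) = SignType.sign (g j y)

/-- The sign vector of `x` is below that of `y` in the face order. -/
def Below {κ : Type} (g : κ → Af E) (A : Finset κ) (x y : E) : Prop :=
  ∀ j ∈ A, g j x = 0 ∨ SignType.sign (g j x) = SignType.sign (g j y)

/-- A chosen representative of the face of `x`. -/
noncomputable def rep {κ : Type} (g : κ → Af E) (A : Finset κ) (x : E) : E :=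
  Classical.epsilon (fun y => SameSg g A x y)

/-- A strictly increasing chain of representatives. -/
structure Chain {κ : Type} (g : κ → Af E) (A : Finset κ) {r : ℕ} (b : Fin (r + 1) → E) :
    Prop where
  fix : ∀ l, rep g A (b l) = b l
  below : ∀ l l', l < l' → Below g A (b l) (b l')
  ne : ∀ l l', l < l' → ¬ SameSg g A (b l) (b l')

end general

/-- Bound for the number of first stage cells. -/
def KK (D w0 H k : ℕ) : ℕ :=
  2 ^ D * (D * (w0 + H) * (w0 + H + k) ^ (D - 1)) * (H + 1) ^ (D + 2)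

/-- Bound for `q * m ^ D` times the number of second stage cells. -/
def RR (D w0 H q k1 t1 k2 m : ℕ) : ℕ :=
  2 ^ D * (q * KK D w0 H k1 * (D * (D + 1) * (D + 1 + k2) ^ (D - 1)) * m ^ D +
    2 * k2 ^ D * (D.factorial * m ^ D + q * KK D w0 H k1 * ((D + 1) ^ 2 * t1) ^ D))

end Pool.Agent.MP_a2955b_co.Up
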