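import Pool.Agent.MP_a2955b_co.Up.Stmt

set_option autoImplicit false

namespace Pool.Agent.MP_a2955b_co.Up

open Set Module

section aux

variable {X : Type} [NormedAddCommGroup X] [NormedSpace ℝ X]

theorem map_comb_Face {ι : Type} [Fintype ι] (ψ : Af X) (w : ι → ℝ) (z : ι → X)
    (hw : ∑ i, w i = 1) : ψ (∑ i, w i • z i) = ∑ i, w i * ψ (z i) := by
  have h1 : ∀ x, ψ x = ψ.linear x + ψ 0 := by
    intro x
    have := ψ.map_vadd (0 : X) x
    simpa using this
  rw [h1, map_sum]
  have h2 : ∑ i, w i * ψ (z i) = ∑ i, (w i * ψ.linear (z i) + w i * ψ 0) := by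
    refine Finset.sum_congr rfl fun i _ => ?_
    rw [h1 (z i)]; ring
  rw [h2, Finset.sum_add_distrib, ← Finset.sum_mul, hw, one_mul]
  simp

theorem zero_hull_Face (ψ : Af X) (S : Set X) (hS : ∀ x ∈ S, ψ x = 0) :
    ∀ x ∈ affineSpan ℝ S, ψ x = 0 := by
  intro x hx
  have h : affineSpan ℝ S ≤ (AffineSubspace.mk' (0 : ℝ) ⊥).comap ψ := by
    rw [affineSpan_le]
    intro y hy
    simp [AffineSubspace.mem_mk', hS y hy]
  have := h hx
  simpa [AffineSubspace.mem_comap, AffineSubspace.mem_mk'] using this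

theorem mem_hull_Face {ι : Type} [Fintype ι] (b : AffineBasis ι ℝ X) (S : Set X) (y : X)
    (h0 : ∀ i, 0 ≤ b.coord i y) (h1 : ∀ i, b.coord i y ≠ 0 → b i ∈ S) :
    y ∈ convexHull ℝ S := by
  classical
  have hy : y = ∑ i ∈ Finset.univ.filter (fun i => b.coord i y ≠ 0), b.coord i y • b i := by
    rw [Finset.sum_filter_of_ne]
    · exact (b.linear_combination_coord_eq_self y).symm
    · intro i _ hi hc
      exact hi (by rw [hc, zero_smul])
  rw [hy]
  refine (convex_convexHull ℝ S).sum_mem (fun i _ => h0 i) ?_ ?_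
  · rw [Finset.sum_filter_of_ne]
    · exact b.sum_coord_apply_eq_one y
    · intro i _ hi
      exact hi
  · intro i hi
    exact subset_convexHull ℝ S (h1 i (Finset.mem_filter.1 hi).2)

theorem local_Face [FiniteDimensional ℝ X] (D : ℕ) (hD : finrank ℝ X = D + 1) (V : Finset X)
    (ψ : Af X) (q : X) (hq : ψ q ≠ 0) (hV : ∀ x ∈ V, ψ x = 0) (x : X)
    (hx : x ∈ convexHull ℝ (V : Set X))
    (hT : ∀ T : Finset X, T ⊆ V → T.card ≤ D → x ∉ convexHull ℝ (T : Set X)) :
    ∃ U : Set X, IsOpen U ∧ x ∈ U ∧ ∀ y ∈ U, ψ y = 0 → y ∈ convexHull ℝ (V : Set X) := by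
  classical
  rw [convexHull_eq_union] at hx
  simp only [mem_iUnion] at hx
  obtain ⟨T, hTV, hind, hxT⟩ := hx
  have hTV' : T ⊆ V := by exact_mod_cast hTV
  have hcard : D < T.card := by
    by_contra h
    exact hT T hTV' (not_lt.1 h) hxT
  let p : Option T → X := fun o => o.elim q (fun t => (t : X))
  have hp : AffineIndependent ℝ p := by
    rw [affineIndependent_iff]
    intro s w hw hs
    let w' : Option T → ℝ := fun o => if o ∈ s then w o else 0
    have hw' : ∑ o, w' o = 0 := by
      simp only [w']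
      rw [← Finset.sum_filter]
      simpa using hw
    have hs' : ∑ o, w' o • p o = 0 := by
      simp only [w', ite_smul, zero_smul]
      rw [← Finset.sum_filter]
      simpa using hs
    have hlin : ∀ z, ψ z = ψ.linear z + ψ 0 := by
      intro z
      have := ψ.map_vadd (0 : X) z
      simpa using this
    have hq0 : w' none = 0 := by
      have h1 : ∑ o, w' o * ψ (p o) = 0 := by
        have h2 : ∑ o, w' o * ψ (p o) = ψ.linear (∑ o, w' o • p o) + (∑ o, w' o) * ψ 0 := by
          rw [map_sum, Finset.sum_mul, ← Finset.sum_add_distrib]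
          refine Finset.sum_congr rfl fun o _ => ?_
          rw [hlin (p o)]; simp; ring
        rw [h2, hs', hw']; simp
      rw [Fintype.sum_option] at h1
      have h3 : ∑ t : T, w' (some t) * ψ (p (some t)) = 0 := by
        refine Finset.sum_eq_zero fun t _ => ?_
        have : ψ (p (some t)) = 0 := hV _ (hTV' t.2)
        rw [this, mul_zero]
      rw [h3, add_zero] at h1
      exact (mul_eq_zero.1 h1).resolve_right hq
    have hall : ∀ t : T, w' (some t) = 0 := by
      rw [Fintype.sum_option, hq0, zero_add] at hw'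
      rw [Fintype.sum_option, hq0, zero_smul, zero_add] at hs'
      intro t
      exact affineIndependent_iff.1 hind Finset.univ (fun t => w' (some t)) hw' hs' t
        (Finset.mem_univ t)
    intro e he
    have : w' e = 0 := by
      cases e with
      | none => exact hq0
      | some t => exact hall t
    simpa [w', he] using this
  have hle : Fintype.card (Option T) ≤ finrank ℝ X + 1 :=
    hp.card_le_finrank_succ.trans (Nat.add_le_add_right (Submodule.finrank_le _) 1)
  have hcT : T.card = D + 1 := by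
    simp only [Fintype.card_option, Fintype.card_coe] at hle
    omega
  have htop : affineSpan ℝ (range p) = ⊤ := by
    rw [hp.affineSpan_eq_top_iff_card_eq_finrank_add_one]
    simp only [Fintype.card_option, Fintype.card_coe]
    omega
  let b : AffineBasis (Option T) ℝ X := ⟨p, hp, htop⟩
  have hb : ∀ o, b o = p o := fun _ => rfl
  have hnone : ∀ y, ψ y = 0 → b.coord none y = 0 := by
    intro y hy
    have h1 := map_comb_Face ψ (fun o => b.coord o y) b (b.sum_coord_apply_eq_one y)
    rw [b.linear_combination_coord_eq_self y, hy, Fintype.sum_option] at h1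
    have h3 : ∑ t : T, b.coord (some t) y * ψ (b (some t)) = 0 := by
      refine Finset.sum_eq_zero fun t _ => ?_
      have : ψ (b (some t)) = 0 := hV _ (hTV' t.2)
      rw [this, mul_zero]
    rw [h3, add_zero] at h1
    exact (mul_eq_zero.1 h1.symm).resolve_right hq
  have hx0 : ψ x = 0 := by
    refine zero_hull_Face ψ (T : Set X) (fun z hz => hV z (hTV' hz)) x ?_
    exact convexHull_subset_affineSpan _ hxT
  have hxnn : ∀ o, 0 ≤ b.coord o x := by
    have h1 : x ∈ convexHull ℝ (range b) := by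
      refine convexHull_mono ?_ hxT
      intro z hz
      exact ⟨some ⟨z, hz⟩, rfl⟩
    rw [b.convexHull_eq_nonneg_coord] at h1
    exact h1
  refine ⟨⋂ t : T, {y | 0 < b.coord (some t) y}, ?_, ?_, ?_⟩
  · exact isOpen_iInter_of_finite fun t =>
      isOpen_lt continuous_const (continuous_barycentric_coord b _)
  · rw [mem_iInter]
    intro t
    rcases (hxnn (some t)).lt_or_eq with h | h
    · exact h
    · exfalso
      refine hT (T.erase t) ((Finset.erase_subset _ _).trans hTV') ?_ ?_
      · rw [Finset.card_erase_of_mem t.2]; omega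
      · refine mem_hull_Face b _ x hxnn ?_
        intro o ho
        cases o with
        | none => exact absurd (hnone x hx0) ho
        | some s =>
          have hs : (s : X) ≠ t := by
            intro hst
            have : s = t := Subtype.ext hst
            rw [this] at ho
            exact ho h.symm
          rw [hb]
          exact Finset.mem_coe.2 (Finset.mem_erase.2 ⟨hs, s.2⟩)
  · intro y hy hy0
    rw [mem_iInter] at hy
    refine mem_hull_Face b _ y ?_ ?_
    · intro o
      cases o with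
      | none => exact (hnone y hy0).ge
      | some s => exact (hy s).le
    · intro o ho
      cases o with
      | none => exact absurd (hnone y hy0) ho
      | some s => exact hTV s.2

end aux

theorem face : FaceStmt := by
  intro X _ _ _ D hD V hV hW
  classical
  have hlt : vectorSpan ℝ (convexHull ℝ (V : Set X)) < ⊤ := by
    rw [lt_top_iff_ne_top]
    intro h
    rw [h, finrank_top] at hW
    omega
  obtain ⟨l, hl0, hl⟩ := Submodule.exists_le_ker_of_lt_top _ hlt
  obtain ⟨p0, hp0⟩ := hV
  let ψ : Af X := l.toAffineMap - AffineMap.const ℝ X (l p0)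
  have hψ : ∀ x, ψ x = l x - l p0 := fun x => rfl
  have hp0' : p0 ∈ convexHull ℝ (V : Set X) := subset_convexHull ℝ _ hp0
  have hz : ∀ x ∈ convexHull ℝ (V : Set X), ψ x = 0 := by
    intro x hx
    have h1 : x -ᵥ p0 ∈ vectorSpan ℝ (convexHull ℝ (V : Set X)) := vsub_mem_vectorSpan ℝ hx hp0'
    have h2 := hl h1
    rw [LinearMap.mem_ker, vsub_eq_sub, map_sub] at h2
    rw [hψ, h2]
  obtain ⟨v, hv⟩ : ∃ v, l v ≠ 0 := by
    by_contra h
    push Not at h
    exact hl0 (LinearMap.ext h)
  have hq : ψ (p0 + v) ≠ 0 := by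
    rw [hψ, map_add]
    simpa using hv
  have hV0 : ∀ x ∈ V, ψ x = 0 := fun x hx => hz x (subset_convexHull ℝ _ hx)
  refine ⟨ψ, ?_, hz, ?_⟩
  · have : ψ.linear = l := by
      ext y
      simp [ψ]
    rw [this]
    exact hl0
  intro O hO hT hne x hxO hx0
  have hloc : ∀ y ∈ O, y ∈ convexHull ℝ (V : Set X) →
      ∃ U : Set X, IsOpen U ∧ y ∈ U ∧ ∀ z ∈ U, ψ z = 0 → z ∈ convexHull ℝ (V : Set X) := by
    intro y hyO hy
    refine local_Face D hD V ψ (p0 + v) hq hV0 y hy ?_
    intro T hTV hTc hyT
    exact (Set.disjoint_left.1 (hT T hTV hTc)) hyO hyT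
  have hcl : IsClosed (convexHull ℝ (V : Set X)) := V.finite_toSet.isClosed_convexHull ℝ
  have hxf : x ∈ convexHull ℝ (V : Set X) := by
    let S : Set X := O ∩ ψ ⁻¹' {0}
    have hS : Convex ℝ S := hO.inter ((convex_singleton (0 : ℝ)).affine_preimage ψ)
    let u : Set X := ⋃₀ {U : Set X | IsOpen U ∧ ∀ z ∈ U, ψ z = 0 → z ∈ convexHull ℝ (V : Set X)}
    have hu : IsOpen u := isOpen_sUnion fun U hU => hU.1
    have hcov : S ⊆ u ∪ (convexHull ℝ (V : Set X))ᶜ := by
      intro y hy
      by_cases hyf : y ∈ convexHull ℝ (V : Set X)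
      · obtain ⟨U, hU, hyU, hUf⟩ := hloc y hy.1 hyf
        exact Or.inl ⟨U, ⟨hU, hUf⟩, hyU⟩
      · exact Or.inr hyf
    have hdis : S ∩ (u ∩ (convexHull ℝ (V : Set X))ᶜ) = ∅ := by
      rw [eq_empty_iff_forall_notMem]
      rintro y ⟨hy, ⟨U, hU, hyU⟩, hyf⟩
      exact hyf (hU.2 y hyU hy.2)
    rcases isPreconnected_iff_subset_of_disjoint.1 hS.isPreconnected u _ hu hcl.isOpen_compl
      hcov hdis with h | h
    · obtain ⟨U, hU, hyU⟩ := h (show x ∈ S from ⟨hxO, hx0⟩)
      exact hU.2 x hyU hx0
    · obtain ⟨y, hyO, hyf⟩ := hne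
      exact absurd hyf (h (show y ∈ S from ⟨hyO, hz y hyf⟩))
  refine ⟨hxf, ?_⟩
  obtain ⟨U, hU, hxU, hUf⟩ := hloc x hxO hxf
  rw [mem_intrinsicFrontier]
  rintro ⟨y, hy, hyx⟩
  apply hy.2
  rw [mem_interior]
  refine ⟨(↑) ⁻¹' U, ?_, hU.preimage continuous_subtype_val, ?_⟩
  · intro z hz'
    exact hUf z hz' (zero_hull_Face ψ _ hz z z.2)
  · show (y : X) ∈ U
    rw [hyx]
    exact hxU

end Pool.Agent.MP_a2955b_co.Up
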