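import Pool.Agent.MP_a2955b_co.Up.Stmt
set_option autoImplicit false
namespace Pool.Agent.MP_a2955b_co.Up
open Set Module

theorem box_eq_GoodCount {ι : Type} {D : ℕ} (e : Fin D → Fin 3 → ι) :
    box (fun i b => if b then e i 2 else e i 0) (fun i => e i 1) = e := by
  funext i k
  fin_cases k <;> simp [box]

theorem inj_GoodCount {ι : Type} [Fintype ι] {D L : ℕ} (B : Finset (Fin D → Fin L → ι))
    (P : Finset ((Fin D → Bool → ι) × (Fin D → ι)))
    (H : ∀ e ∈ B, ∃ s : Fin D → Fin 3 → Fin L, (∀ i, Function.Injective (s i)) ∧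
      ∃ x ∈ P, box x.1 x.2 = fun i k => e i (s i k)) :
    B.card * Fintype.card ι ^ (3 * D) ≤ L ^ (3 * D) * (P.card * Fintype.card ι ^ (D * L)) := by
  classical
  choose s hs x hx hbox using H
  have h1 := Finset.card_le_card_of_injOn
    (s := B.attach ×ˢ (Finset.univ : Finset (Fin D → Fin 3 → ι)))
    (t := (Finset.univ : Finset (Fin D → Fin 3 → Fin L)) ×ˢ P ×ˢ
      (Finset.univ : Finset (Fin D → Fin L → ι)))
    (fun z => (s z.1.1 z.1.2, x z.1.1 z.1.2,
      fun i => Function.extend (s z.1.1 z.1.2 i) (z.2 i) (z.1.1 i)))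
    (fun z _ => by simp [hx]) (by
      rintro ⟨⟨e, he⟩, a⟩ _ ⟨⟨e', he'⟩, a'⟩ _ hz
      simp only [Prod.mk.injEq] at hz
      obtain ⟨h1, h2, h3⟩ := hz
      have h4 : (fun i k => e i (s e he i k)) = fun i k => e' i (s e he i k) := by
        rw [← hbox e he, h2, hbox e' he', h1]
      rw [← h1] at h3
      have h5 : e = e' := by
        funext i l
        by_cases hl : ∃ k, s e he i k = l
        · obtain ⟨k, rfl⟩ := hl
          exact congrFun (congrFun h4 i) k
        · have := congrFun (congrFun h3 i) l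
          rwa [Function.extend_apply' _ _ _ hl, Function.extend_apply' _ _ _ hl] at this
      have h6 : a = a' := by
        funext i k
        have := congrFun (congrFun h3 i) (s e he i k)
        rwa [(hs e he i).extend_apply, (hs e he i).extend_apply] at this
      subst h5 h6
      rfl)
  simp only [Finset.card_product, Finset.card_attach, Finset.card_univ, Fintype.card_fun,
    Fintype.card_fin, ← pow_mul] at h1
  rwa [mul_comm L D] at h1

theorem goodCount_of (hS : SuperStmt) (hG : GoodSubStmt) : GoodCountStmt := by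
  classical
  intro E _ _ D
  obtain ⟨L, hL, hsub⟩ := hG E D
  refine ⟨L ^ (3 * D), L ^ D, fun ι _ _ φ h U q hU hq => ?_⟩
  have hm : 0 < Fintype.card ι := Fintype.card_pos
  obtain ⟨o, ho⟩ := Finite.exists_max
    (fun o : Fin D → Bool → ι => {t | t ∈ U ∧ Good φ h (box o t)}.ncard)
  refine ⟨o, ?_⟩
  set g := {t | t ∈ U ∧ Good φ h (box o t)}.ncard with hg
  set m := Fintype.card ι with hmdef
  have hu : 0 < U.ncard := by
    rcases Nat.eq_zero_or_pos U.ncard with h0 | h0
    · rw [h0, mul_zero] at hq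
      exact absurd hq (not_le.2 (pow_pos hm D))
    · exact h0
  have h1 := hS ι D L hL U
  set Bs := {e : Fin D → Fin L → ι | ∀ j : Fin D → Fin L, (fun i => e i (j i)) ∈ U} with hBs
  have h2 : m ^ (D * L) ≤ Bs.ncard * q ^ (L ^ D) := by
    have h3 : U.ncard ^ (L ^ D) * m ^ (D * L) ≤ U.ncard ^ (L ^ D) * (Bs.ncard * q ^ (L ^ D)) := by
      refine h1.trans ((Nat.mul_le_mul_left _ (Nat.pow_le_pow_left hq _)).trans (le_of_eq ?_))
      rw [mul_pow]
      ring
    exact Nat.le_of_mul_le_mul_left h3 (pow_pos hu _)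
  let P : Finset ((Fin D → Bool → ι) × (Fin D → ι)) :=
    Finset.univ.filter fun x => x.2 ∈ U ∧ Good φ h (box x.1 x.2)
  have hP : P.card ≤ g * m ^ (2 * D) := by
    have h3 := Finset.card_le_mul_card_image_of_maps_to (f := Prod.fst) (s := P)
      (t := Finset.univ) (fun _ _ => Finset.mem_univ _) g (fun o' _ => by
        refine le_trans ?_ (ho o')
        rw [← Set.ncard_coe_finset]
        refine Set.ncard_le_ncard_of_injOn Prod.snd ?_ ?_ (Set.toFinite _)
        · rintro ⟨a, t⟩ hx
          simp only [P, Finset.coe_filter, Finset.mem_filter, Finset.mem_univ, true_and,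
            Set.mem_setOf_eq] at hx
          obtain ⟨hx, rfl⟩ := hx
          exact hx
        · rintro ⟨a, t⟩ hx ⟨a', t'⟩ hx' ht
          simp only [Finset.coe_filter, Set.mem_setOf_eq] at hx hx'
          exact Prod.ext (hx.2.trans hx'.2.symm) ht)
    simpa only [Finset.card_univ, Fintype.card_fun, Fintype.card_bool, Fintype.card_fin,
      ← pow_mul] using h3
  have h4 := inj_GoodCount (L := L) Bs.toFinset P (by
    intro e he
    rw [Set.mem_toFinset] at he
    obtain ⟨s, hs, hgood⟩ := hsub ι φ h e fun j => hU _ (he j)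
    refine ⟨s, fun i => (hs i).injective,
      (fun i b => if b then e i (s i 2) else e i (s i 0), fun i => e i (s i 1)), ?_,
      box_eq_GoodCount fun i k => e i (s i k)⟩
    simp only [P, Finset.mem_filter, Finset.mem_univ, true_and]
    refine ⟨he fun i => s i 1, ?_⟩
    rw [box_eq_GoodCount fun i k => e i (s i k)]
    exact hgood)
  rw [← Set.ncard_eq_toFinset_card'] at h4
  have h5 : (m ^ (2 * D) * m ^ (D * L)) * m ^ D ≤
      (m ^ (2 * D) * m ^ (D * L)) * (L ^ (3 * D) * q ^ (L ^ D) * g) := by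
    calc (m ^ (2 * D) * m ^ (D * L)) * m ^ D = m ^ (D * L) * m ^ (3 * D) := by ring
      _ ≤ Bs.ncard * q ^ (L ^ D) * m ^ (3 * D) := Nat.mul_le_mul_right _ h2
      _ = q ^ (L ^ D) * (Bs.ncard * m ^ (3 * D)) := by ring
      _ ≤ q ^ (L ^ D) * (L ^ (3 * D) * (P.card * m ^ (D * L))) := Nat.mul_le_mul_left _ h4
      _ ≤ q ^ (L ^ D) * (L ^ (3 * D) * ((g * m ^ (2 * D)) * m ^ (D * L))) := by gcongr
      _ = _ := by ring
  exact Nat.le_of_mul_le_mul_left h5 (by positivity)

end Pool.Agent.MP_a2955b_co.Up
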