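import Pool.Agent.MP_a2955b_co.Up.Stmt

set_option autoImplicit false

namespace Pool.Agent.MP_a2955b_co.Up

open Set Module

section aux

variable {E : Type} [NormedAddCommGroup E] [NormedSpace ℝ E]

theorem const_Hull (g : Af E) (hg : g.linear = 0) (z z' : E) : g z = g z' := by
  have h := g.linearMap_vsub z z'
  rw [hg] at h
  simp only [LinearMap.zero_apply, vsub_eq_sub] at h
  linarith

theorem mem_basis_Hull {ι : Type} [Fintype ι] (b : AffineBasis ι ℝ E) (p : ι → Prop)
    (z : E) : z ∈ convexHull ℝ (b '' {i | p i}) ↔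
      (∀ i, 0 ≤ b.coord i z) ∧ ∀ i, ¬ p i → b.coord i z = 0 := by
  classical
  constructor
  · intro hz
    have hc : Convex ℝ {z : E | (∀ i, 0 ≤ b.coord i z) ∧ ∀ i, ¬ p i → b.coord i z = 0} := by
      intro x hx y hy s t hs ht hst
      have key : ∀ i, b.coord i (s • x + t • y) = s * b.coord i x + t * b.coord i y := by
        intro i
        have := Convex.combo_affine_apply (f := b.coord i) (x := x) (y := y) hst
        simpa using this
      refine ⟨fun i => ?_, fun i hi => ?_⟩
      · rw [key]
        exact add_nonneg (mul_nonneg hs (hx.1 i)) (mul_nonneg ht (hy.1 i))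
      · rw [key, hx.2 i hi, hy.2 i hi]
        ring
    refine convexHull_min ?_ hc hz
    rintro _ ⟨j, hj, rfl⟩
    refine ⟨fun i => ?_, fun i hi => ?_⟩
    · rw [b.coord_apply]
      split_ifs <;> norm_num
    · apply b.coord_apply_ne
      rintro rfl
      exact hi hj
  · rintro ⟨h0, h1⟩
    have e1 : ∑ i ∈ Finset.univ.filter p, b.coord i z = 1 := by
      rw [← b.sum_coord_apply_eq_one z]
      apply Finset.sum_filter_of_ne
      intro i _ hi
      by_contra hp
      exact hi (h1 i hp)
    have e2 : ∑ i ∈ Finset.univ.filter p, b.coord i z • b i = z := by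
      conv_rhs => rw [← b.linear_combination_coord_eq_self z]
      apply Finset.sum_filter_of_ne
      intro i _ hi
      by_contra hp
      exact hi (by rw [h1 i hp, zero_smul])
    rw [← e2]
    refine (convex_convexHull ℝ _).sum_mem (fun i _ => h0 i) e1 ?_
    intro i hi
    exact subset_convexHull ℝ _ ⟨i, (Finset.mem_filter.1 hi).2, rfl⟩

theorem one_Hull [FiniteDimensional ℝ E] (K : Finset E) :
    ∃ G : Finset (Af E), G.card ≤ finrank ℝ E + 1 ∧ (∀ g ∈ G, g.linear ≠ 0) ∧
      (AffineIndependent ℝ ((↑) : K → E) →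
        ∀ z z', (∀ g ∈ G, SignType.sign (g z) = SignType.sign (g z')) →
          z ∈ convexHull ℝ (K : Set E) → z' ∈ convexHull ℝ (K : Set E)) := by
  classical
  by_cases hK : AffineIndependent ℝ ((↑) : K → E)
  swap
  · exact ⟨∅, by simp, by simp, fun h => absurd h hK⟩
  obtain ⟨t, hKt, hind, hspan⟩ :=
    exists_subset_affineIndependent_affineSpan_eq_top (k := ℝ) (V := E) (s := (K : Set E)) hK
  have hfin : t.Finite := finite_set_of_fin_dim_affineIndependent ℝ hind
  have : Fintype t := hfin.fintype
  let b : AffineBasis t ℝ E := ⟨(↑), hind, by simpa using hspan⟩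
  have hb : ∀ i : t, b i = (i : E) := fun i => rfl
  have hcard : Fintype.card t = finrank ℝ E + 1 :=
    (hind.affineSpan_eq_top_iff_card_eq_finrank_add_one).1 (by simpa using hspan)
  have himg : b '' {i | (i : E) ∈ K} = (K : Set E) := by
    ext x
    constructor
    · rintro ⟨i, hi, rfl⟩
      exact hi
    · intro hx
      exact ⟨⟨x, hKt hx⟩, hx, rfl⟩
  refine ⟨(Finset.univ.image fun i => b.coord i).filter fun g => g.linear ≠ 0, ?_, ?_, ?_⟩
  · refine (Finset.card_filter_le _ _).trans (Finset.card_image_le.trans ?_)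
    rw [Finset.card_univ, hcard]
  · intro g hg
    exact (Finset.mem_filter.1 hg).2
  · intro _ z z' hs hz
    have hsg : ∀ i, SignType.sign (b.coord i z) = SignType.sign (b.coord i z') := by
      intro i
      by_cases hl : (b.coord i).linear = 0
      · rw [const_Hull _ hl z z']
      · exact hs _ (Finset.mem_filter.2 ⟨Finset.mem_image_of_mem _ (Finset.mem_univ i), hl⟩)
    rw [← himg] at hz ⊢
    rw [mem_basis_Hull] at hz ⊢
    refine ⟨fun i => ?_, fun i hi => ?_⟩
    · rw [← sign_nonneg_iff, ← hsg, sign_nonneg_iff]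
      exact hz.1 i
    · rw [← sign_eq_zero_iff, ← hsg, sign_eq_zero_iff]
      exact hz.2 i hi

end aux

theorem hull : HullStmt := by
  intro E _ _ _ T
  classical
  choose G hG1 hG2 hG3 using fun K : Finset E => one_Hull K
  refine ⟨T.powerset.biUnion G, ?_, ?_, ?_⟩
  · refine (Finset.card_biUnion_le_card_mul _ _ _ fun K _ => hG1 K).trans ?_
    rw [Finset.card_powerset]
  · intro g hg
    obtain ⟨K, _, hK⟩ := Finset.mem_biUnion.1 hg
    exact hG2 K g hK
  · intro z z' hs hz
    rw [convexHull_eq_union] at hz
    simp only [mem_iUnion] at hz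
    obtain ⟨K, hKT, hind, hz⟩ := hz
    have hKT' : K ∈ T.powerset := Finset.mem_powerset.2 (Finset.coe_subset.1 hKT)
    have := hG3 K hind z z' (fun g hg => hs g (Finset.mem_biUnion.2 ⟨K, hKT', hg⟩)) hz
    exact convexHull_mono hKT this

theorem above : AboveStmt := by
  intro E _ _ _ T M
  classical
  let u : E × ℝ := (0, max M 0)
  let T' : Finset (E × ℝ) := T ∪ T.image fun p => p + u
  have hT' : T'.card ≤ 2 * T.card := by
    refine (Finset.card_union_le _ _).trans ?_
    have := Finset.card_image_le (s := T) (f := fun p => p + u)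
    omega
  obtain ⟨G, hG1, hG2, hG3⟩ := hull (E × ℝ) T'
  refine ⟨G, ?_, hG2, ?_⟩
  · refine hG1.trans ?_
    rw [Module.finrank_prod, Module.finrank_self]
    exact Nat.mul_le_mul (Nat.pow_le_pow_right (by norm_num) hT') le_rfl
  · rintro z z' hs ⟨w, hw, h1, h2, h3⟩
    have hM : 0 ≤ M := by linarith
    have hu : u = (0, M) := by simp [u, hM]
    have hw1 : w ∈ convexHull ℝ (T' : Set (E × ℝ)) :=
      convexHull_mono (by simp [T']) hw
    have hw2 : w + u ∈ convexHull ℝ (T' : Set (E × ℝ)) := by
      have hc : Convex ℝ {p : E × ℝ | p + u ∈ convexHull ℝ (T' : Set (E × ℝ))} := by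
        intro x hx y hy s t hs ht hst
        have e : s • x + t • y + u = s • (x + u) + t • (y + u) := by
          rw [smul_add, smul_add]
          have : u = s • u + t • u := by rw [← add_smul, hst, one_smul]
          conv_lhs => rw [this]
          abel
        show s • x + t • y + u ∈ convexHull ℝ (T' : Set (E × ℝ))
        rw [e]
        exact convex_convexHull ℝ _ hx hy hs ht hst
      refine convexHull_min ?_ hc hw
      intro p hp
      apply subset_convexHull
      simp only [T', Finset.coe_union, Finset.coe_image]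
      exact Or.inr ⟨p, hp, rfl⟩
    have hz : z ∈ convexHull ℝ (T' : Set (E × ℝ)) := by
      rcases hM.eq_or_lt with h0 | h0
      · have : z = w := Prod.ext h1.symm (by linarith)
        rw [this]
        exact hw1
      · have hs0 : 0 ≤ (z.2 - w.2) / M := div_nonneg (by linarith) hM
        have hs1 : (z.2 - w.2) / M ≤ 1 := (div_le_one h0).2 (by linarith)
        have := convex_convexHull ℝ _ hw1 hw2 (a := 1 - (z.2 - w.2) / M) (b := (z.2 - w.2) / M)
          (by linarith) hs0 (by ring)
        have e : (1 - (z.2 - w.2) / M) • w + ((z.2 - w.2) / M) • (w + u) = z := by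
          rw [hu]
          apply Prod.ext
          · simp only [Prod.fst_add, Prod.smul_fst, add_zero]
            rw [← add_smul, ← h1]
            simp
          · simp only [Prod.snd_add, Prod.smul_snd, smul_eq_mul]
            field_simp
            ring
        rwa [e] at this
    have hz' := hG3 z z' hs hz
    have hc : Convex ℝ (Above (T : Set (E × ℝ))) := by
      rintro x ⟨a, ha, a1, a2⟩ y ⟨b, hb, b1, b2⟩ s t hs ht hst
      refine ⟨s • a + t • b, convex_convexHull ℝ _ ha hb hs ht hst, ?_, ?_⟩
      · simp [a1, b1]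
      · simp only [Prod.snd_add, Prod.smul_snd, smul_eq_mul]
        exact add_le_add (mul_le_mul_of_nonneg_left a2 hs) (mul_le_mul_of_nonneg_left b2 ht)
    refine convexHull_min ?_ hc hz'
    intro p hp
    simp only [T', Finset.coe_union, Finset.coe_image] at hp
    rcases hp with hp | ⟨q, hq, rfl⟩
    · exact ⟨p, subset_convexHull ℝ _ hp, rfl, le_rfl⟩
    · refine ⟨q, subset_convexHull ℝ _ hq, ?_, ?_⟩
      · simp [hu]
      · simp [hu, hM]

end Pool.Agent.MP_a2955b_co.Up
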