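import Pool.Agent.MP_a2955b_co.Up.Basic

set_option autoImplicit false

namespace Pool.Agent.MP_a2955b_co.Up

open Set Module

theorem sgn_pos_Kill {x : ℝ} {s : SignType} (hs : s ≠ 0) (h : SignType.sign x = s) :
    0 < (s : ℝ) * x := by
  subst h
  rcases lt_trichotomy x 0 with hx | hx | hx
  · rw [sign_neg hx]; simpa using hx
  · exact (hs (by rw [hx, sign_zero])).elim
  · rw [sign_pos hx]; simpa using hx

theorem sgn_neg_Kill {x : ℝ} {s : SignType} (hs : s ≠ 0) (h : SignType.sign x = -s) :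
    (s : ℝ) * x < 0 := by
  have h1 := sgn_pos_Kill (s := -s) (by simpa using hs) h
  rw [SignType.coe_neg] at h1
  linarith

theorem box_cj_Kill {ι : Type} {D : ℕ} (o : Fin D → Bool → ι) (t : Fin D → ι) (ε : Fin D → Bool)
    (i : Fin D) : box o t i (cj ε i) = o i (ε i) := by
  cases hε : ε i <;> simp [box, cj, hε]

section

variable {E : Type} [NormedAddCommGroup E] [NormedSpace ℝ E] [FiniteDimensional ℝ E]

/-- the two signs of a good box are opposite -/
theorem opp_Kill (hS : SliceStmt) {D : ℕ} (hD : finrank ℝ E = D) (ψ : Fin D → Fin 3 → Af E)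
    (v : (Fin D → Fin 3) → E) (σ σ' : Fin D → SignType) (h0 : ∀ j i, ψ i (j i) (v j) = 0)
    (hσ : ∀ (j : Fin D → Fin 3) (i : Fin D) (k : Fin 3),
      (k < j i → SignType.sign (ψ i k (v j)) = σ i) ∧
      (j i < k → SignType.sign (ψ i k (v j)) = σ' i))
    (h1 : ∀ i, σ i ≠ 0) (h2 : ∀ i, σ' i ≠ 0) (i : Fin D) : σ' i = - σ i := by
  have hlt : (0 : Fin 3) < 1 ∧ (1 : Fin 3) < 2 ∧ (0 : Fin 3) < 2 := by decide
  obtain ⟨V', w, hV, hw, hw'⟩ := hS E (Fin D) Finset.univ (fun i => (σ i : ℝ) • ψ i 0)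
    (fun i => (- (σ' i : ℝ)) • ψ i 2) (v fun _ => 1) ⊤ 0 (by simp [hD])
    (fun ε => v (cj ε)) (fun _ => Submodule.mem_top)
    (fun i _ => by
      have a1 := sgn_pos_Kill (h1 i) ((hσ (fun _ => 1) i 0).1 hlt.1)
      have a2 := sgn_pos_Kill (h2 i) ((hσ (fun _ => 1) i 2).2 hlt.2.1)
      simp only [AffineMap.coe_smul, Pi.smul_apply, smul_eq_mul]
      constructor <;> linarith)
    (fun i _ ε hε => by
      have hc : cj ε i = 0 := by simp [cj, hε]
      have a1 := h0 (cj ε) i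
      have a2 := sgn_pos_Kill (h2 i) ((hσ (cj ε) i 2).2 (by rw [hc]; exact hlt.2.2))
      rw [hc] at a1
      simp only [AffineMap.coe_smul, Pi.smul_apply, smul_eq_mul, a1, mul_zero, true_and]
      linarith)
    (fun i _ ε hε => by
      have hc : cj ε i = 2 := by simp [cj, hε]
      have a1 := h0 (cj ε) i
      have a2 := sgn_pos_Kill (h1 i) ((hσ (cj ε) i 0).1 (by rw [hc]; exact hlt.2.2))
      rw [hc] at a1
      simp only [AffineMap.coe_smul, Pi.smul_apply, smul_eq_mul, a1, mul_zero, and_true]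
      exact a2)
  have hbot : V' = ⊥ := Submodule.finrank_eq_zero.1 (Nat.le_zero.1 hV)
  have hp := hw' fun _ => false
  have hwp : w (fun _ => false) = v fun _ => 1 := by
    have := hw fun _ => false
    rwa [hbot, Submodule.mem_bot, sub_eq_zero] at this
  rw [hwp] at hp
  have hne : σ' i ≠ σ i := by
    intro he
    have hpos := convexHull_min (t := {x | 0 < ((σ i : ℝ) • ψ i 1) x}) ?_ (convex_pos _) hp
    · have a1 := h0 (fun _ => 1) i
      simp only [mem_ofPred_eq, AffineMap.coe_smul, Pi.smul_apply, smul_eq_mul, a1, mul_zero,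
        lt_self_iff_false] at hpos
    · rintro _ ⟨ε, -, rfl⟩
      simp only [mem_ofPred_eq, AffineMap.coe_smul, Pi.smul_apply, smul_eq_mul]
      refine sgn_pos_Kill (h1 i) ?_
      cases hε : ε i
      · have hc : cj ε i = 0 := by simp [cj, hε]
        rw [← he]
        exact (hσ (cj ε) i 1).2 (by rw [hc]; exact hlt.1)
      · have hc : cj ε i = 2 := by simp [cj, hε]
        exact (hσ (cj ε) i 1).1 (by rw [hc]; exact hlt.2.1)
  have a1 := h1 i
  have a2 := h2 i
  revert hne a1 a2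
  generalize σ i = a
  generalize σ' i = b
  revert a b
  decide

omit [FiniteDimensional ℝ E] in
theorem convex_bd_Kill (g : Af E) (M : ℝ) : Convex ℝ {w : E × ℝ | g w.1 ≤ w.2 + M} := by
  intro x hx y hy a b ha hb hab
  simp only [mem_ofPred_eq, Prod.fst_add, Prod.smul_fst, Prod.snd_add, Prod.smul_snd,
    smul_eq_mul] at hx hy ⊢
  rw [af_combo g _ _ a b hab]
  have h1 := mul_le_mul_of_nonneg_left hx ha
  have h2 := mul_le_mul_of_nonneg_left hy hb
  have h3 : M = (a + b) * M := by rw [hab, one_mul]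
  linarith

end

theorem kill_of (hS : SliceStmt) (hA : AboveStmt) (hc : KillCStmt) (ha : KillAStmt) :
    KillStmt := by
  classical
  intro E _ _ _ n hD
  refine ⟨(n + 3) * 2 + 4 * (2 ^ (2 * 2 ^ (n + 3)) * (n + 3 + 2)), ?_⟩
  intro ι _ φ h hφ o
  let u : (Fin (n + 3) → Bool) → E := fun ε => vx φ (fun i => o i (ε i))
  let T : Bool × Bool → Finset (E × ℝ) := fun a =>
    (Finset.univ.filter fun ε : Fin (n + 3) → Bool => ¬ (ε 0 = a.1 ∧ ε 1 = a.2)).image
      fun ε => (u ε, h (o 1 (ε 1)) (u ε))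
  have hT : ∀ a, (T a).card ≤ 2 ^ (n + 3) := by
    intro a
    refine Finset.card_image_le.trans ((Finset.card_filter_le _ _).trans ?_)
    simp
  obtain ⟨M, hM⟩ := (Set.finite_range fun x : ι × ι × (Fin (n + 3) → Bool) =>
    h x.1 (u x.2.2) - h x.2.1 (u x.2.2)).bddAbove
  choose G hG1 hG2 hG3 using fun a => hA E (T a) M
  refine ⟨Finset.univ.image fun x : Fin (n + 3) × Bool => φ (o x.1 x.2), Finset.univ.biUnion G,
    ?_, ?_, ?_, ?_, ?_⟩
  · refine Finset.card_image_le.trans (le_trans ?_ (Nat.le_add_right _ _))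
    simp
  · refine Finset.card_biUnion_le.trans (le_trans ?_ (Nat.le_add_left _ _))
    refine (Finset.sum_le_card_nsmul _ _ (2 ^ (2 * 2 ^ (n + 3)) * (n + 3 + 2))
      fun a _ => ?_).trans (by simp)
    refine (hG1 a).trans ?_
    rw [hD]
    exact Nat.mul_le_mul_right _
      (Nat.pow_le_pow_right (by norm_num) (Nat.mul_le_mul_left _ (hT a)))
  · intro w hw
    obtain ⟨x, -, rfl⟩ := Finset.mem_image.1 hw
    exact hφ _
  · intro g hg
    obtain ⟨a, -, hg⟩ := Finset.mem_biUnion.1 hg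
    exact hG2 a g hg
  rintro t ⟨hsrt, σ, σ', hσ⟩ S O hSc ⟨p, hpS, hp⟩ hW hO hOc hOS hOG hall
  set e := box o t with he
  let v : (Fin (n + 3) → Fin 3) → E := fun j => vx φ (fun i => e i (j i))
  have hlt : (0 : Fin 3) < 1 ∧ (1 : Fin 3) < 2 := by decide
  have he0 : ∀ i, e i 0 = o i false := fun i => rfl
  have he1 : ∀ i, e i 1 = t i := fun i => rfl
  have he2 : ∀ i, e i 2 = o i true := fun i => rfl
  have hzero : ∀ j i, φ (e i (j i)) (v j) = 0 := by
    intro j
    obtain ⟨q, -, hq⟩ := (hsrt j).1.2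
    exact vx_spec hq
  have hpv : p = v fun _ => 1 := vx_unique hD (hsrt fun _ => 1).1.1 hp
  have hvS : (v fun _ => 1) ∈ S := hpv ▸ hpS
  have hWS : ∀ i b, ∀ x ∈ S, φ (o i b) x ≠ 0 := fun i b =>
    hW _ (Finset.mem_image_of_mem _ (Finset.mem_univ (i, b)))
  have hs0 : ∀ i, ∀ x ∈ S, SignType.sign (φ (e i 0) x) = σ i := by
    intro i x hx
    rw [← (hσ (fun _ => 1) i 0).1 hlt.1]
    exact sign_eq_of_convex hSc _ (hWS i false) hx hvS
  have hs2 : ∀ i, ∀ x ∈ S, SignType.sign (φ (e i 2) x) = σ' i := by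
    intro i x hx
    rw [← (hσ (fun _ => 1) i 2).2 hlt.2]
    exact sign_eq_of_convex hSc _ (hWS i true) hx hvS
  have h1 : ∀ i, σ i ≠ 0 := fun i => by
    rw [← hs0 i p hpS]
    exact sign_ne_zero.2 (hWS i false p hpS)
  have h2 : ∀ i, σ' i ≠ 0 := fun i => by
    rw [← hs2 i p hpS]
    exact sign_ne_zero.2 (hWS i true p hpS)
  have hopp := opp_Kill hS hD (fun i k => φ (e i k)) v σ σ' hzero hσ h1 h2
  have hgrid : Grid (fun i k => (σ i : ℝ) • φ (e i k)) (fun i k => h (e i k)) v := by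
    refine ⟨fun j i => ?_, fun j i k hk => ?_, fun j i k hk => ?_, fun j => ?_, fun j => ?_⟩
    · simp only [AffineMap.coe_smul, Pi.smul_apply, smul_eq_mul, hzero, mul_zero]
    · exact sgn_pos_Kill (h1 i) ((hσ j i k).1 hk)
    · exact sgn_neg_Kill (h1 i) (((hσ j i k).2 hk).trans (hopp i))
    · exact (hsrt j).2 (Fin.zero_le 1)
    · refine (hsrt j).2 (show (1 : Fin (n + 3)) ≤ 2 from ?_)
      rw [Fin.le_def, Fin.val_one, Fin.val_two]
      norm_num
  have hLf : ∀ a b, Lf v (fun k => h (e 1 k)) a b = (T (a, b) : Set (E × ℝ)) := by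
    intro a b
    have hv : ∀ ε, v (cj ε) = u ε := fun ε => by
      simp only [v, u, he, box_cj_Kill]
    ext z
    simp only [Lf, T, mem_ofPred_eq, Finset.coe_image, Finset.coe_filter, Finset.mem_univ,
      true_and, mem_image, hv, he, box_cj_Kill]
    exact ⟨fun ⟨ε, a1, a2⟩ => ⟨ε, a1, a2.symm⟩, fun ⟨ε, a1, a2⟩ => ⟨ε, a1, a2.symm⟩⟩
  obtain ⟨z2, hz2O, hz2, hz2'⟩ := hall 2
  obtain ⟨z0, hz0O, hz0, hz0'⟩ := hall 0
  obtain ⟨η, hη, hball⟩ := Metric.isOpen_iff.1 hO z0 hz0O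
  have hz : (z0.1, z0.2 - η / 2) ∈ O := by
    apply hball
    rw [Metric.mem_ball, Prod.dist_eq, dist_self, Real.dist_eq, sub_sub_cancel_left, abs_neg,
      abs_of_pos (half_pos hη)]
    exact max_lt hη (half_lt_self hη)
  have key : ∀ a b, (z2.1, h (e 2 1) z2.1) ∈ Above (Lf v (fun k => h (e 1 k)) a b) →
      (z0.1, z0.2 - η / 2) ∈ Above (Lf v (fun k => h (e 1 k)) a b) := by
    intro a b hab
    rw [hLf] at hab ⊢
    obtain ⟨w, hw, hw1, hw2⟩ := hab
    refine hG3 (a, b) z2 _ (fun g hg => sign_eq_of_convex hOc g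
      (hOG g (Finset.mem_biUnion.2 ⟨(a, b), Finset.mem_univ _, hg⟩)) hz2O hz)
      ⟨w, hw, hw1, ?_, ?_⟩
    · rw [hz2']; exact hw2
    · have hb := convexHull_min (t := {w : E × ℝ | h (t 2) w.1 ≤ w.2 + M}) ?_
        (convex_bd_Kill _ M) hw
      · rw [hz2', ← show w.1 = z2.1 from hw1]; exact hb
      · intro q hq
        obtain ⟨ε, -, rfl⟩ := Finset.mem_image.1 (Finset.mem_coe.1 hq)
        have := hM (mem_range_self (t 2, o 1 (ε 1), ε))
        simp only [mem_ofPred_eq] at this ⊢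
        linarith
  obtain ⟨⟨a, ha1⟩, ⟨b, hb1⟩⟩ := hc E n hD _ _ v hgrid z2.1
    (by simp only [AffineMap.coe_smul, Pi.smul_apply, smul_eq_mul, he1, hz2, mul_zero])
    (fun i => ⟨(sgn_pos_Kill (h1 i) (hs0 i _ (hOS z2 hz2O))).le,
      (sgn_neg_Kill (h1 i) ((hs2 i _ (hOS z2 hz2O)).trans (hopp i))).le⟩)
  refine ha E n hD _ _ v hgrid z0.1 (z0.2 - η / 2)
    (by simp only [AffineMap.coe_smul, Pi.smul_apply, smul_eq_mul, he1, hz0, mul_zero]) ?_ a b
    (key _ _ ha1) (key _ _ hb1)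
  rw [hz0']
  have := half_pos hη
  simp only [he1]
  linarith

end Pool.Agent.MP_a2955b_co.Up
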