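import Pool.Agent.MP_a2955b_co.Up.Stmt

set_option autoImplicit false

namespace Pool.Agent.MP_a2955b_co.Up

open Set Module

section aux

variable {E : Type} [NormedAddCommGroup E] [NormedSpace ℝ E]

theorem aff_eq_KillA (f : Af E) (x : E) : f x = f.linear x + f 0 := by
  have := f.map_vadd (0 : E) x
  simpa using this

theorem aff_sum_KillA {ι : Type} [Fintype ι] (f : Af E) (lam : ι → ℝ) (u : ι → E)
    (hs : ∑ i, lam i = 1) : f (∑ i, lam i • u i) = ∑ i, lam i * f (u i) := by
  rw [aff_eq_KillA f, map_sum]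
  have h1 : ∀ i, lam i * f (u i) = f.linear (lam i • u i) + lam i * f 0 := by
    intro i
    rw [aff_eq_KillA f (u i), map_smul, smul_eq_mul, mul_add]
  simp only [h1, Finset.sum_add_distrib, ← Finset.sum_mul, hs, one_mul]

theorem face_KillA (T : Set E) (f g1 g2 : Af E) (σ : ℝ)
    (hT : ∀ q ∈ T, 0 < σ * f q ∨ (f q = 0 ∧ g1 q ≤ g2 q)) (p : E)
    (hp : p ∈ convexHull ℝ T) (hf : f p = 0) : g1 p ≤ g2 p := by
  have hK : Convex ℝ {q : E | 0 < σ * f q ∨ (f q = 0 ∧ g1 q ≤ g2 q)} := by
    intro x hx y hy a b ha hb hab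
    have e1 : f (a • x + b • y) = a * f x + b * f y := by
      rw [Convex.combo_affine_apply hab]; simp
    have e2 : g1 (a • x + b • y) = a * g1 x + b * g1 y := by
      rw [Convex.combo_affine_apply hab]; simp
    have e3 : g2 (a • x + b • y) = a * g2 x + b * g2 y := by
      rw [Convex.combo_affine_apply hab]; simp
    simp only [mem_ofPred_eq] at hx hy ⊢
    rw [e1, e2, e3]
    rcases hx with hx | ⟨hx, hx'⟩ <;> rcases hy with hy | ⟨hy, hy'⟩
    · left
      have h1 : σ * (a * f x + b * f y) = a * (σ * f x) + b * (σ * f y) := by ring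
      rw [h1]
      rcases ha.eq_or_lt with h | h
      · have hb1 : b = 1 := by linarith
        rw [← h, hb1]; linarith
      · have := mul_pos h hx
        have := mul_nonneg hb hy.le
        linarith
    · rcases ha.eq_or_lt with h | h
      · have hb1 : b = 1 := by linarith
        right
        rw [← h, hb1]
        constructor <;> linarith
      · left
        have h1 : σ * (a * f x + b * f y) = a * (σ * f x) := by rw [hy]; ring
        rw [h1]
        exact mul_pos h hx
    · rcases hb.eq_or_lt with h | h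
      · have ha1 : a = 1 := by linarith
        right
        rw [← h, ha1]
        constructor <;> linarith
      · left
        have h1 : σ * (a * f x + b * f y) = b * (σ * f y) := by rw [hx]; ring
        rw [h1]
        exact mul_pos h hy
    · right
      refine ⟨by rw [hx, hy]; ring, ?_⟩
      have := mul_le_mul_of_nonneg_left hx' ha
      have := mul_le_mul_of_nonneg_left hy' hb
      linarith
  have h := convexHull_min (s := T)
    (t := {q : E | 0 < σ * f q ∨ (f q = 0 ∧ g1 q ≤ g2 q)}) (fun q hq => hT q hq) hK hp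
  rcases h with h | h
  · rw [hf] at h; simp at h
  · exact h.2

theorem weights_KillA {n : ℕ} (v : (Fin (n + 3) → Fin 3) → E) (hb : Fin 3 → Af E) (α β : Bool)
    (w : E × ℝ) (hw : w ∈ convexHull ℝ (Lf v hb α β)) :
    ∃ lam : (Fin (n + 3) → Bool) → ℝ, (∀ ε, 0 ≤ lam ε) ∧ ∑ ε, lam ε = 1 ∧
      (∀ ε, ε 0 = α → ε 1 = β → lam ε = 0) ∧ w.1 = ∑ ε, lam ε • v (cj ε) ∧
      w.2 = ∑ ε, lam ε * hb (cj ε 1) (v (cj ε)) := by
  classical
  have hK : Convex ℝ {w : E × ℝ | ∃ lam : (Fin (n + 3) → Bool) → ℝ, (∀ ε, 0 ≤ lam ε) ∧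
      ∑ ε, lam ε = 1 ∧ (∀ ε, ε 0 = α → ε 1 = β → lam ε = 0) ∧ w.1 = ∑ ε, lam ε • v (cj ε) ∧
      w.2 = ∑ ε, lam ε * hb (cj ε 1) (v (cj ε))} := by
    rintro x ⟨l1, h1, h2, h3, h4, h5⟩ y ⟨m1, k1, k2, k3, k4, k5⟩ a b ha hb' hab
    refine ⟨fun ε => a * l1 ε + b * m1 ε, fun ε => ?_, ?_, fun ε e0 e1 => ?_, ?_, ?_⟩
    · have := mul_nonneg ha (h1 ε)
      have := mul_nonneg hb' (k1 ε)
      linarith
    · rw [Finset.sum_add_distrib, ← Finset.mul_sum, ← Finset.mul_sum, h2, k2]; linarith
    · beta_reduce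
      rw [h3 ε e0 e1, k3 ε e0 e1]; ring
    · simp only [Prod.fst_add, Prod.smul_fst, h4, k4, add_smul, Finset.sum_add_distrib,
        Finset.smul_sum, mul_smul]
    · simp only [Prod.snd_add, Prod.smul_snd, h5, k5, add_mul, Finset.sum_add_distrib,
        smul_eq_mul, Finset.mul_sum, mul_assoc]
  refine convexHull_min ?_ hK hw
  rintro z ⟨ε, hε, rfl⟩
  refine ⟨fun ε' => if ε' = ε then 1 else 0, fun ε' => ?_, ?_, fun ε' e0 e1 => ?_, ?_, ?_⟩
  · beta_reduce
    split_ifs <;> norm_num
  · simp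
  · beta_reduce
    rw [if_neg]
    rintro rfl
    exact hε ⟨e0, e1⟩
  · simp
  · simp

theorem point_KillA (hS : SliceStmt) [FiniteDimensional ℝ E] {n : ℕ} (hE : finrank ℝ E = n + 3)
    (φ h : Fin (n + 3) → Fin 3 → Af E) (v : (Fin (n + 3) → Fin 3) → E) (hG : Grid φ h v)
    (b : Bool) (p : E) (ha : φ 0 1 p = 0) (hc : φ 1 (if b then 2 else 0) p = 0)
    (hlo : ∀ i, 0 ≤ φ i 0 p) (hhi : ∀ i, φ i 2 p ≤ 0) :
    h 0 1 p ≤ h 1 (if b then 2 else 0) p := by
  classical
  have hker : finrank ℝ (LinearMap.ker (φ 0 1).linear) ≤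
      0 + ((Finset.univ : Finset (Fin (n + 3))).erase 0).card := by
    have hne : LinearMap.ker (φ 0 1).linear ≠ ⊤ := by
      intro htop
      have h0 : (φ 0 1).linear = 0 := LinearMap.ker_eq_top.mp htop
      have h1 := hG.pos (fun _ => 2) 0 1 (by decide)
      have h2 := hG.neg (fun _ => 0) 0 1 (by decide)
      rw [aff_eq_KillA, h0] at h1 h2
      simp only [LinearMap.zero_apply, zero_add] at h1 h2
      linarith
    have := Submodule.finrank_lt hne
    rw [Finset.card_erase_of_mem (Finset.mem_univ _), Finset.card_univ, Fintype.card_fin]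
    omega
  have hup : ∀ (ε : Fin (n + 3) → Bool) (i : Fin (n + 3)), i ≠ 0 →
      Function.update (cj ε) 0 (1 : Fin 3) i = if ε i then 2 else 0 := by
    intro ε i hi
    rw [Function.update_of_ne hi]
    rfl
  have hup0 : ∀ (ε : Fin (n + 3) → Bool), Function.update (cj ε) 0 (1 : Fin 3) 0 = 1 := by
    intro ε
    rw [Function.update_self]
  obtain ⟨V', w, hV', hw, hw'⟩ := hS E (Fin (n + 3)) (Finset.univ.erase 0) (fun i => φ i 0)
    (fun i => φ i 2) p (LinearMap.ker (φ 0 1).linear) 0 hker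
    (fun ε => v (Function.update (cj ε) 0 1))
    (by
      intro ε
      rw [LinearMap.mem_ker, map_sub]
      have h1 := hG.zero (Function.update (cj ε) 0 1) 0
      rw [hup0] at h1
      rw [aff_eq_KillA] at h1 ha
      linarith)
    (fun i _ => ⟨hlo i, hhi i⟩)
    (by
      intro i hi ε hε
      have hi0 : i ≠ 0 := (Finset.mem_erase.mp hi).1
      have e : Function.update (cj ε) 0 (1 : Fin 3) i = 0 := by rw [hup ε i hi0, hε]; rfl
      constructor
      · have h1 := hG.zero (Function.update (cj ε) 0 1) i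
        rw [e] at h1
        exact h1
      · exact hG.neg _ i 2 (by rw [e]; decide))
    (by
      intro i hi ε hε
      have hi0 : i ≠ 0 := (Finset.mem_erase.mp hi).1
      have e : Function.update (cj ε) 0 (1 : Fin 3) i = 2 := by rw [hup ε i hi0, hε]; rfl
      constructor
      · exact hG.pos _ i 0 (by rw [e]; decide)
      · have h1 := hG.zero (Function.update (cj ε) 0 1) i
        rw [e] at h1
        exact h1)
  have hbot : V' = ⊥ := Submodule.finrank_eq_zero.mp (Nat.le_zero.mp hV')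
  have hwp : w (fun _ => false) = p := by
    have := hw (fun _ => false)
    rw [hbot, Submodule.mem_bot, sub_eq_zero] at this
    exact this
  have hp := hw' (fun _ => false)
  rw [hwp] at hp
  have h10 : (1 : Fin (n + 3)) ≠ 0 := by
    intro h
    have := congrArg Fin.val h
    simp at this
  refine face_KillA _ (φ 1 (if b then 2 else 0)) (h 0 1) (h 1 (if b then 2 else 0))
    (if b then -1 else 1) ?_ p hp hc
  rintro q ⟨ε, -, rfl⟩
  have e := hup ε 1 h10
  by_cases hb : ε 1 = b
  · right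
    rw [hb] at e
    have h1 := hG.zero (Function.update (cj ε) 0 1) 1
    have h2 := hG.ab (Function.update (cj ε) 0 1)
    rw [e] at h1
    rw [e, hup0] at h2
    exact ⟨h1, h2⟩
  · left
    cases b with
    | false =>
      have hε : ε 1 = true := by simpa using hb
      rw [hε] at e
      have h1 := hG.pos (Function.update (cj ε) 0 1) 1 0 (by rw [e]; decide)
      simpa using h1
    | true =>
      have hε : ε 1 = false := by simpa using hb
      rw [hε] at e
      have h1 := hG.neg (Function.update (cj ε) 0 1) 1 2 (by rw [e]; decide)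
      simpa using h1

theorem claim_KillA (hS : SliceStmt) [FiniteDimensional ℝ E] {n : ℕ} (hE : finrank ℝ E = n + 3)
    (φ h : Fin (n + 3) → Fin 3 → Af E) (v : (Fin (n + 3) → Fin 3) → E) (hG : Grid φ h v)
    (b : Bool) (ν : (Fin (n + 3) → Bool) → ℝ) (hν : ∀ ε, 0 ≤ ν ε)
    (hsupp : ∀ ε, ε 1 ≠ b → ν ε = 0) (ha : ∑ ε, ν ε * φ 0 1 (v (cj ε)) = 0) :
    ∑ ε, ν ε * h 0 1 (v (cj ε)) ≤ ∑ ε, ν ε * h 1 (cj ε 1) (v (cj ε)) := by
  classical
  have hW : 0 ≤ ∑ ε, ν ε := Finset.sum_nonneg (fun ε _ => hν ε)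
  rcases hW.eq_or_lt with hW0 | hWp
  · have h0 : ∀ ε, ν ε = 0 := by
      intro ε
      exact (Finset.sum_eq_zero_iff_of_nonneg (fun ε _ => hν ε)).mp hW0.symm ε
        (Finset.mem_univ _)
    simp [h0]
  · obtain ⟨W, hWe⟩ : ∃ W, W = ∑ ε, ν ε := ⟨_, rfl⟩
    rw [← hWe] at hWp
    have hs : ∑ ε, ν ε / W = 1 := by
      rw [← Finset.sum_div, ← hWe, div_self hWp.ne']
    have hval : ∀ f : Af E, f (∑ ε, (ν ε / W) • v (cj ε)) = (∑ ε, ν ε * f (v (cj ε))) / W := by
      intro f
      rw [aff_sum_KillA f (fun ε => ν ε / W) (fun ε => v (cj ε)) hs, Finset.sum_div]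
      refine Finset.sum_congr rfl (fun ε _ => ?_)
      ring
    have hcj : ∀ ε : Fin (n + 3) → Bool, ε 1 = b → cj ε 1 = if b then 2 else 0 := by
      intro ε hε
      unfold cj
      rw [hε]
    have key := point_KillA hS hE φ h v hG b (∑ ε, (ν ε / W) • v (cj ε))
      (by rw [hval, ha, zero_div])
      (by
        rw [hval]
        have : ∑ ε, ν ε * φ 1 (if b then 2 else 0) (v (cj ε)) = 0 := by
          refine Finset.sum_eq_zero (fun ε _ => ?_)
          by_cases hε : ε 1 = b
          · rw [← hcj ε hε, hG.zero, mul_zero]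
          · rw [hsupp ε hε, zero_mul]
        rw [this, zero_div])
      (by
        intro i
        rw [hval]
        refine div_nonneg (Finset.sum_nonneg (fun ε _ => mul_nonneg (hν ε) ?_)) hWp.le
        by_cases hε : ε i = true
        · exact (hG.pos (cj ε) i 0 (by unfold cj; rw [hε]; decide)).le
        · have e : cj ε i = 0 := by unfold cj; rw [if_neg hε]
          have h1 := hG.zero (cj ε) i
          rw [e] at h1
          exact h1.ge)
      (by
        intro i
        rw [hval]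
        refine div_nonpos_of_nonpos_of_nonneg
          (Finset.sum_nonpos (fun ε _ => mul_nonpos_of_nonneg_of_nonpos (hν ε) ?_)) hWp.le
        by_cases hε : ε i = true
        · have e : cj ε i = 2 := by unfold cj; rw [if_pos hε]
          have h1 := hG.zero (cj ε) i
          rw [e] at h1
          exact h1.le
        · exact (hG.neg (cj ε) i 2 (by unfold cj; rw [if_neg hε]; decide)).le)
    rw [hval, hval, div_le_div_iff_of_pos_right hWp] at key
    refine key.trans (le_of_eq (Finset.sum_congr rfl (fun ε _ => ?_)))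
    by_cases hε : ε 1 = b
    · rw [hcj ε hε]
    · rw [hsupp ε hε, zero_mul, zero_mul]

/-- The part of a weight vector with second sign `b`. -/
noncomputable def half_KillA {n : ℕ} (b : Bool) (ν : (Fin (n + 3) → Bool) → ℝ) :
    (Fin (n + 3) → Bool) → ℝ := fun ε => if ε 1 = b then ν ε else 0

theorem half_sum_KillA {n : ℕ} (ν F : (Fin (n + 3) → Bool) → ℝ) :
    ∑ ε, ν ε * F ε = ∑ ε, half_KillA false ν ε * F ε + ∑ ε, half_KillA true ν ε * F ε := by
  rw [← Finset.sum_add_distrib]
  refine Finset.sum_congr rfl (fun ε _ => ?_)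
  unfold half_KillA
  cases ε 1 <;> simp

theorem half_sign_KillA {n : ℕ} (φ h : Fin (n + 3) → Fin 3 → Af E)
    (v : (Fin (n + 3) → Fin 3) → E) (hG : Grid φ h v) (α β : Bool)
    (ν : (Fin (n + 3) → Bool) → ℝ) (hν : ∀ ε, 0 ≤ ν ε)
    (h0 : ∀ ε, ε 0 = α → ε 1 = β → ν ε = 0) :
    (α = true → ∑ ε, half_KillA β ν ε * φ 0 1 (v (cj ε)) ≤ 0) ∧
    (α = false → 0 ≤ ∑ ε, half_KillA β ν ε * φ 0 1 (v (cj ε))) := by
  constructor
  · intro hα
    refine Finset.sum_nonpos (fun ε _ => ?_)
    unfold half_KillA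
    by_cases h1 : ε 1 = β
    · rw [if_pos h1]
      by_cases h2 : ε 0 = α
      · rw [h0 ε h2 h1, zero_mul]
      · refine mul_nonpos_of_nonneg_of_nonpos (hν ε) (hG.neg (cj ε) 0 1 ?_).le
        unfold cj
        rw [if_neg (by rw [← hα]; exact h2)]
        decide
    · rw [if_neg h1, zero_mul]
  · intro hα
    refine Finset.sum_nonneg (fun ε _ => ?_)
    unfold half_KillA
    by_cases h1 : ε 1 = β
    · rw [if_pos h1]
      by_cases h2 : ε 0 = α
      · rw [h0 ε h2 h1, zero_mul]
      · refine mul_nonneg (hν ε) (hG.pos (cj ε) 0 1 ?_).le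
        unfold cj
        have h3 : ε 0 = true := by
          rw [hα] at h2
          simpa using h2
        rw [if_pos h3]
        decide
    · rw [if_neg h1, zero_mul]

end aux

theorem killA_of (hS : SliceStmt) : KillAStmt := by
  intro E _ _ _ n hE φ h v hG y z hy hz α β hA hB
  obtain ⟨w1, hw1, hy1, hz1⟩ := hA
  obtain ⟨w2, hw2, hy2, hz2⟩ := hB
  obtain ⟨l, l0, l1, l2, l3, l4⟩ := weights_KillA v (h 1) α (!α) w1 hw1
  obtain ⟨m, m0, m1, m2, m3, m4⟩ := weights_KillA v (h 1) β β w2 hw2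
  have yl : y = ∑ ε, l ε • v (cj ε) := by rw [← l3]; exact hy1.symm
  have ym : y = ∑ ε, m ε • v (cj ε) := by rw [← m3]; exact hy2.symm
  have zl : ∑ ε, l ε * h 1 (cj ε 1) (v (cj ε)) ≤ z := by rw [← l4]; exact hz1
  have zm : ∑ ε, m ε * h 1 (cj ε 1) (v (cj ε)) ≤ z := by rw [← m4]; exact hz2
  have fl' : ∀ f : Af E, f y = ∑ ε, l ε * f (v (cj ε)) := by
    intro f
    rw [yl]
    exact aff_sum_KillA f l (fun ε => v (cj ε)) l1
  have fm' : ∀ f : Af E, f y = ∑ ε, m ε * f (v (cj ε)) := by
    intro f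
    rw [ym]
    exact aff_sum_KillA f m (fun ε => v (cj ε)) m1
  have al := fl' (φ 0 1)
  have am := fm' (φ 0 1)
  rw [hy, half_sum_KillA] at al am
  have Sl : ∑ ε, half_KillA false l ε * φ 0 1 (v (cj ε)) ≤ 0 := by
    have := half_sign_KillA φ h v hG α (!α) l l0 l2
    cases α with
    | false =>
      have h1 := this.2 rfl
      simp only [Bool.not_false] at h1
      linarith
    | true =>
      have h1 := this.1 rfl
      simpa only [Bool.not_true] using h1
  have Sm : 0 ≤ ∑ ε, half_KillA false m ε * φ 0 1 (v (cj ε)) := by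
    have := half_sign_KillA φ h v hG β β m m0 m2
    cases β with
    | false => exact this.2 rfl
    | true =>
      have h1 := this.1 rfl
      linarith
  obtain ⟨s, hs0, hs1, hs⟩ : ∃ s : ℝ, 0 ≤ s ∧ s ≤ 1 ∧
      s * ∑ ε, half_KillA false l ε * φ 0 1 (v (cj ε)) +
        (1 - s) * ∑ ε, half_KillA false m ε * φ 0 1 (v (cj ε)) = 0 := by
    generalize ∑ ε, half_KillA false l ε * φ 0 1 (v (cj ε)) = A at Sl
    generalize ∑ ε, half_KillA false m ε * φ 0 1 (v (cj ε)) = B at Sm
    rcases Sm.eq_or_lt with hB | hB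
    · exact ⟨0, le_refl _, zero_le_one, by rw [← hB]; ring⟩
    · have hBA : 0 < B - A := by linarith
      refine ⟨B / (B - A), div_nonneg hB.le hBA.le, ?_, ?_⟩
      · rw [div_le_one hBA]; linarith
      · field_simp
        ring
  have hmix : ∀ (b : Bool) (F : (Fin (n + 3) → Bool) → ℝ),
      ∑ ε, half_KillA b (fun ε => s * l ε + (1 - s) * m ε) ε * F ε =
        s * ∑ ε, half_KillA b l ε * F ε + (1 - s) * ∑ ε, half_KillA b m ε * F ε := by
    intro b F
    rw [Finset.mul_sum, Finset.mul_sum, ← Finset.sum_add_distrib]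
    refine Finset.sum_congr rfl (fun ε _ => ?_)
    unfold half_KillA
    split_ifs <;> ring
  have hpos : ∀ (b : Bool) ε, 0 ≤ half_KillA b (fun ε => s * l ε + (1 - s) * m ε) ε := by
    intro b ε
    unfold half_KillA
    split_ifs
    · have := mul_nonneg hs0 (l0 ε)
      have := mul_nonneg (sub_nonneg.mpr hs1) (m0 ε)
      linarith
    · exact le_refl _
  have hsupp : ∀ (b : Bool) ε, ε 1 ≠ b →
      half_KillA b (fun ε => s * l ε + (1 - s) * m ε) ε = 0 := by
    intro b ε hε
    unfold half_KillA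
    rw [if_neg hε]
  have c0 := claim_KillA hS hE φ h v hG false _ (hpos false) (hsupp false)
    (by rw [hmix]; exact hs)
  have c1 := claim_KillA hS hE φ h v hG true _ (hpos true) (hsupp true)
    (by
      rw [hmix]
      have e1 : ∑ ε, half_KillA true l ε * φ 0 1 (v (cj ε)) =
        - ∑ ε, half_KillA false l ε * φ 0 1 (v (cj ε)) := by linarith
      have e2 : ∑ ε, half_KillA true m ε * φ 0 1 (v (cj ε)) =
        - ∑ ε, half_KillA false m ε * φ 0 1 (v (cj ε)) := by linarith
      rw [e1, e2]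
      linarith)
  rw [hmix, hmix] at c0 c1
  have bl := fl' (h 0 1)
  have bm := fm' (h 0 1)
  rw [half_sum_KillA] at bl bm zl zm
  have t1 := mul_le_mul_of_nonneg_left zl hs0
  have t2 := mul_le_mul_of_nonneg_left zm (sub_nonneg.mpr hs1)
  have t3 : h 0 1 y = s * h 0 1 y + (1 - s) * h 0 1 y := by ring
  have t4 : s * h 0 1 y = s * (∑ ε, half_KillA false l ε * h 0 1 (v (cj ε)) +
      ∑ ε, half_KillA true l ε * h 0 1 (v (cj ε))) := by rw [← bl]
  have t5 : (1 - s) * h 0 1 y = (1 - s) * (∑ ε, half_KillA false m ε * h 0 1 (v (cj ε)) +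
      ∑ ε, half_KillA true m ε * h 0 1 (v (cj ε))) := by rw [← bm]
  nlinarith

end Pool.Agent.MP_a2955b_co.Up
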