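import Pool.Agent.MP_a2955b_co.Up.Stmt

set_option autoImplicit false

namespace Pool.Agent.MP_a2955b_co.Up

open Set Module

section aux

variable {E : Type} [NormedAddCommGroup E] [NormedSpace ℝ E]

theorem face_KillC (T : Set E) (f : Af E) (hT : ∀ q ∈ T, 0 ≤ f q) (p : E)
    (hp : p ∈ convexHull ℝ T) (h0 : f p = 0) : p ∈ convexHull ℝ {q | q ∈ T ∧ f q = 0} := by
  have hc : Convex ℝ {p : E | 0 ≤ f p ∧ (f p = 0 → p ∈ convexHull ℝ {q | q ∈ T ∧ f q = 0})} := by
    intro x hx y hy a b ha hb hab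
    have hf : f (a • x + b • y) = a * f x + b * f y := by
      have := Convex.combo_affine_apply (f := f) (x := x) (y := y) hab
      simpa [smul_eq_mul] using this
    have h1 : 0 ≤ a * f x := mul_nonneg ha hx.1
    have h2 : 0 ≤ b * f y := mul_nonneg hb hy.1
    refine ⟨by rw [hf]; linarith, fun h => ?_⟩
    rw [hf] at h
    have h3 : a * f x = 0 := by linarith
    have h4 : b * f y = 0 := by linarith
    rcases mul_eq_zero.1 h3 with h5 | h5
    · have hb1 : b = 1 := by linarith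
      have h6 : f y = 0 := by rw [hb1] at h4; linarith
      rw [h5, hb1, zero_smul, one_smul, zero_add]
      exact hy.2 h6
    · rcases mul_eq_zero.1 h4 with h6 | h6
      · have ha1 : a = 1 := by linarith
        rw [h6, ha1, zero_smul, one_smul, add_zero]
        exact hx.2 h5
      · exact convex_convexHull ℝ _ (hx.2 h5) (hy.2 h6) ha hb hab
  have hsub : T ⊆ {p : E | 0 ≤ f p ∧ (f p = 0 → p ∈ convexHull ℝ {q | q ∈ T ∧ f q = 0})} :=
    fun q hq => ⟨hT q hq, fun h => subset_convexHull ℝ _ ⟨hq, h⟩⟩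
  exact (convexHull_min hsub hc hp).2 h0

theorem above_convex_KillC (T : Set (E × ℝ)) : Convex ℝ (Above T) := by
  rintro x ⟨w, hw, hw1, hw2⟩ y ⟨w', hw', hw1', hw2'⟩ a b ha hb hab
  refine ⟨a • w + b • w', convex_convexHull ℝ _ hw hw' ha hb hab, ?_, ?_⟩
  · simp [hw1, hw1']
  · simp only [Prod.snd_add, Prod.smul_snd, smul_eq_mul]
    have h1 := mul_le_mul_of_nonneg_left hw2 ha
    have h2 := mul_le_mul_of_nonneg_left hw2' hb
    linarith

theorem graph_convex_KillC (g : Af E) (Z : Set (E × ℝ)) (hZ : Convex ℝ Z) :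
    Convex ℝ {p : E | (p, g p) ∈ Z} := by
  intro x hx y hy a b ha hb hab
  have hf : g (a • x + b • y) = a * g x + b * g y := by
    have := Convex.combo_affine_apply (f := g) (x := x) (y := y) hab
    simpa [smul_eq_mul] using this
  have h := hZ hx hy ha hb hab
  have he : a • (x, g x) + b • (y, g y) = (a • x + b • y, g (a • x + b • y)) := by
    rw [hf]; ext <;> simp
  rw [he] at h
  exact h

theorem zl_convex_KillC (f g : Af E) : Convex ℝ {p : E | f p = 0 ∧ g p < 0} :=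
  ((convex_singleton (0 : ℝ)).affine_preimage f).inter ((convex_Iio (0 : ℝ)).affine_preimage g)

theorem lz_convex_KillC (f g : Af E) : Convex ℝ {p : E | 0 < f p ∧ g p = 0} :=
  ((convex_Ioi (0 : ℝ)).affine_preimage f).inter ((convex_singleton (0 : ℝ)).affine_preimage g)

variable {n : ℕ} {φ h : Fin (n + 3) → Fin 3 → Af E} {v : (Fin (n + 3) → Fin 3) → E}

theorem lo_KillC (hG : Grid φ h v) (j : Fin (n + 3) → Fin 3) (i : Fin (n + 3))
    (hj : j i = 0) : φ i 0 (v j) = 0 ∧ φ i 2 (v j) < 0 := by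
  refine ⟨by have := hG.zero j i; rwa [hj] at this, hG.neg j i 2 ?_⟩
  rw [hj]; decide

theorem hi_KillC (hG : Grid φ h v) (j : Fin (n + 3) → Fin 3) (i : Fin (n + 3))
    (hj : j i = 2) : 0 < φ i 0 (v j) ∧ φ i 2 (v j) = 0 := by
  refine ⟨hG.pos j i 0 ?_, by have := hG.zero j i; rwa [hj] at this⟩
  rw [hj]; decide

theorem mid_KillC (hG : Grid φ h v) (j : Fin (n + 3) → Fin 3) (i : Fin (n + 3)) :
    0 ≤ φ i 0 (v j) ∧ φ i 2 (v j) ≤ 0 := by
  constructor
  · by_cases hj : j i = 0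
    · exact (lo_KillC hG j i hj).1.ge
    · exact (hG.pos j i 0 (Fin.pos_iff_ne_zero.2 hj)).le
  · by_cases hj : j i = 2
    · exact (hi_KillC hG j i hj).2.le
    · refine (hG.neg j i 2 ?_).le
      have h3 := (j i).isLt
      have h4 : (j i).val ≠ 2 := fun h => hj (Fin.ext h)
      rw [Fin.lt_def]
      show (j i).val < 2
      omega

theorem cj_false_KillC (ε : Fin (n + 3) → Bool) (i : Fin (n + 3)) (hi : ε i = false) :
    cj ε i = 0 := by simp [cj, hi]

theorem cj_true_KillC (ε : Fin (n + 3) → Bool) (i : Fin (n + 3)) (hi : ε i = true) :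
    cj ε i = 2 := by simp [cj, hi]

theorem corner_face_KillC (hG : Grid φ h v) (P : (Fin (n + 3) → Bool) → Prop)
    (j : Fin (n + 3) → Fin 3) (i : Fin (n + 3)) (ε0 : Fin (n + 3) → Bool) (hj : j i = cj ε0 i)
    (hp : v j ∈ convexHull ℝ {q | ∃ ε, P ε ∧ q = v (cj ε)}) :
    v j ∈ convexHull ℝ {q | ∃ ε, (P ε ∧ ε i = ε0 i) ∧ q = v (cj ε)} := by
  cases ha : ε0 i with
  | false =>
    rw [cj_false_KillC ε0 i ha] at hj
    have h1 := face_KillC _ (φ i 0) (by
      rintro q ⟨ε, -, rfl⟩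
      exact (mid_KillC hG _ i).1) _ hp (lo_KillC hG j i hj).1
    refine convexHull_mono ?_ h1
    rintro q ⟨⟨ε, hε, rfl⟩, hq⟩
    refine ⟨ε, ⟨hε, ?_⟩, rfl⟩
    cases hb : ε i with
    | false => rfl
    | true => exact absurd hq (hi_KillC hG _ i (cj_true_KillC ε i hb)).1.ne'
  | true =>
    rw [cj_true_KillC ε0 i ha] at hj
    have h1 := face_KillC _ (-φ i 2) (by
      rintro q ⟨ε, -, rfl⟩
      have := (mid_KillC hG (cj ε) i).2
      simpa using this) _ hp (by simpa using (hi_KillC hG j i hj).2)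
    refine convexHull_mono ?_ h1
    rintro q ⟨⟨ε, hε, rfl⟩, hq⟩
    refine ⟨ε, ⟨hε, ?_⟩, rfl⟩
    cases hb : ε i with
    | true => rfl
    | false =>
      have h2 := (lo_KillC hG _ i (cj_false_KillC ε i hb)).2
      have h3 : φ i 2 (v (cj ε)) = 0 := by simpa using hq
      exact absurd h3 h2.ne

theorem ne01_KillC : (0 : Fin (n + 3)) ≠ 1 := by
  intro h
  have := congrArg Fin.val h
  simp at this

theorem ne02_KillC : (0 : Fin (n + 3)) ≠ 2 := by
  intro h
  have := congrArg Fin.val h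
  simp at this
  rw [Nat.mod_eq_of_lt (by omega)] at this
  omega

theorem ne12_KillC : (1 : Fin (n + 3)) ≠ 2 := by
  intro h
  have := congrArg Fin.val h
  simp at this
  rw [Nat.mod_eq_of_lt (by omega)] at this
  omega

theorem hull_all_KillC [FiniteDimensional ℝ E] (hS : SliceStmt) (hd : finrank ℝ E = n + 3)
    (hG : Grid φ h v) (j : Fin (n + 3) → Fin 3) :
    v j ∈ convexHull ℝ {q | ∃ ε, True ∧ q = v (cj ε)} := by
  obtain ⟨V', w, hV', hw, hw'⟩ := hS E (Fin (n + 3)) Finset.univ (fun i => φ i 0)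
    (fun i => φ i 2) (v j) ⊤ 0 (by simp [hd]) (fun ε => v (cj ε)) (fun _ => Submodule.mem_top)
    (fun i _ => mid_KillC hG j i)
    (fun i _ ε hε => lo_KillC hG _ i (cj_false_KillC ε i hε))
    (fun i _ ε hε => hi_KillC hG _ i (cj_true_KillC ε i hε))
  have hb : V' = ⊥ := Submodule.finrank_eq_zero.1 (Nat.le_zero.1 hV')
  have h1 := hw (fun _ => false)
  rw [hb, Submodule.mem_bot, sub_eq_zero] at h1
  rw [← h1]
  refine convexHull_mono ?_ (hw' _)
  rintro q ⟨ε, -, rfl⟩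
  exact ⟨ε, trivial, rfl⟩

theorem inner_KillC [FiniteDimensional ℝ E] (hS : SliceStmt) (hd : finrank ℝ E = n + 3)
    (hG : Grid φ h v) (ε0 : Fin (n + 3) → Bool) (α β : Bool) (hne : ¬ (ε0 0 = α ∧ ε0 1 = β)) :
    (v (Function.update (cj ε0) 2 1), h 2 1 (v (Function.update (cj ε0) 2 1))) ∈
      Above (Lf v (h 1) α β) := by
  set j := Function.update (cj ε0) 2 1 with hj
  have hj0 : j 0 = cj ε0 0 := Function.update_of_ne ne02_KillC _ _
  have hj1 : j 1 = cj ε0 1 := Function.update_of_ne ne12_KillC _ _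
  have hj2 : j 2 = 1 := Function.update_self _ _ _
  have h1 := corner_face_KillC hG _ j 1 ε0 hj1
    (corner_face_KillC hG _ j 0 ε0 hj0 (hull_all_KillC hS hd hG j))
  have h2 : (v j, h 1 (cj ε0 1) (v j)) ∈ convexHull ℝ (Lf v (h 1) α β) := by
    refine convexHull_min (t := {p : E | (p, h 1 (cj ε0 1) p) ∈ convexHull ℝ (Lf v (h 1) α β)})
      ?_ (graph_convex_KillC _ _ (convex_convexHull ℝ _)) h1
    rintro q ⟨ε, ⟨⟨-, h0⟩, h1'⟩, rfl⟩
    refine subset_convexHull ℝ _ ⟨ε, ?_, ?_⟩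
    · rw [h0, h1']; exact hne
    · have : cj ε 1 = cj ε0 1 := by simp [cj, h1']
      rw [this]
  refine ⟨_, h2, rfl, ?_⟩
  have h3 := hG.bc j
  rw [hj1, hj2] at h3
  exact h3

end aux

theorem killC_of (hS : SliceStmt) (hQ : QuadStmt) : KillCStmt := by
  intro E _ _ _ n hd φ h v hG x hx hx'
  classical
  let V : Submodule ℝ E := LinearMap.ker (φ 2 1).linear
  have hV : V ≠ ⊤ := by
    intro hT
    have h1 : v (fun _ => 2) - v (fun _ => 1) ∈ V := by rw [hT]; exact Submodule.mem_top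
    have h2 := (φ 2 1).linearMap_vsub (v (fun _ => 2)) (v (fun _ => 1))
    have h3 : φ 2 1 (v (fun _ => 1)) = 0 := hG.zero (fun _ => 1) 2
    have h4 : 0 < φ 2 1 (v (fun _ => 2)) := hG.pos (fun _ => 2) 2 1 (by decide)
    rw [vsub_eq_sub, vsub_eq_sub, LinearMap.mem_ker.1 h1, h3] at h2
    linarith
  have hV' : finrank ℝ V < n + 3 := hd ▸ Submodule.finrank_lt hV
  let s : Finset (Fin (n + 3)) := Finset.univ \ {0, 1, 2}
  have hs : n ≤ s.card := by
    have h1 := Finset.le_card_sdiff ({0, 1, 2} : Finset (Fin (n + 3))) Finset.univ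
    have h2 : ({0, 1, 2} : Finset (Fin (n + 3))).card ≤ 3 := Finset.card_le_three
    rw [Finset.card_univ, Fintype.card_fin] at h1
    show n ≤ (Finset.univ \ ({0, 1, 2} : Finset (Fin (n + 3)))).card
    omega
  have hs2 : ∀ i ∈ s, i ≠ 2 := by
    intro i hi h2
    rw [h2] at hi
    simp [s] at hi
  have hs0 : (0 : Fin (n + 3)) ∉ s := by simp [s]
  have hs1 : (1 : Fin (n + 3)) ∉ s := by simp [s]
  let u : (Fin (n + 3) → Bool) → E := fun ε => v (Function.update (cj ε) 2 1)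
  have hlo : ∀ i, i ≠ 2 → ∀ ε, ε i = false → φ i 0 (u ε) = 0 ∧ φ i 2 (u ε) < 0 := by
    intro i hi ε hε
    refine lo_KillC hG _ i ?_
    rw [Function.update_of_ne hi, cj_false_KillC ε i hε]
  have hhi : ∀ i, i ≠ 2 → ∀ ε, ε i = true → 0 < φ i 0 (u ε) ∧ φ i 2 (u ε) = 0 := by
    intro i hi ε hε
    refine hi_KillC hG _ i ?_
    rw [Function.update_of_ne hi, cj_true_KillC ε i hε]
  obtain ⟨V', w, hV2, hw, hw'⟩ := hS E (Fin (n + 3)) s (fun i => φ i 0) (fun i => φ i 2) x V 2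
    (by omega) u (by
      intro ε
      have h2 := (φ 2 1).linearMap_vsub (u ε) x
      have h3 : φ 2 1 (u ε) = 0 := by
        have := hG.zero (Function.update (cj ε) 2 1) 2
        rwa [Function.update_self] at this
      rw [vsub_eq_sub, vsub_eq_sub, h3, hx, sub_zero] at h2
      exact LinearMap.mem_ker.2 h2)
    (fun i _ => hx' i) (fun i hi => hlo i (hs2 i hi)) (fun i hi => hhi i (hs2 i hi))
  let e : Bool → Bool → Fin (n + 3) → Bool := fun a b i => if i = 0 then a else b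
  have key : ∀ (a b : Bool) (Y : Set E), Convex ℝ Y →
      (∀ ε, ε 0 = a → ε 1 = b → u ε ∈ Y) → w (e a b) ∈ Y := by
    intro a b Y hY hu
    refine convexHull_min ?_ hY (hw' (e a b))
    rintro q ⟨ε, hε, rfl⟩
    refine hu ε ?_ ?_
    · rw [hε 0 hs0]; simp [e]
    · rw [hε 1 hs1]; simp only [e]; rw [if_neg ne01_KillC.symm]
  have fin : ∀ α β : Bool,
      x ∈ convexHull ℝ {p | ∃ a b, ¬ (a = α ∧ b = β) ∧ p = w (e a b)} →
      (x, h 2 1 x) ∈ Above (Lf v (h 1) α β) := by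
    intro α β hm
    have hY := graph_convex_KillC (h 2 1) _ (above_convex_KillC (Lf v (h 1) α β))
    refine convexHull_min ?_ hY hm
    rintro q ⟨a, b, hab, rfl⟩
    refine key a b _ hY ?_
    intro ε h0 h1
    exact inner_KillC hS hd hG ε α β (by rw [h0, h1]; exact hab)
  obtain ⟨⟨α, hα⟩, ⟨β, hβ⟩⟩ := hQ E x V' hV2 (fun a b => w (e a b)) (fun a b => hw _)
    (φ 0 0) (φ 0 2) (φ 1 0) (φ 1 2) (hx' 0).1 (hx' 0).2 (hx' 1).1 (hx' 1).2
    (fun b => key false b _ (zl_convex_KillC _ _) (fun ε h0 _ => hlo 0 ne02_KillC ε h0))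
    (fun b => key true b _ (lz_convex_KillC _ _) (fun ε h0 _ => hhi 0 ne02_KillC ε h0))
    (fun a => key a false _ (zl_convex_KillC _ _) (fun ε _ h1 => hlo 1 ne12_KillC ε h1))
    (fun a => key a true _ (lz_convex_KillC _ _) (fun ε _ h1 => hhi 1 ne12_KillC ε h1))
  exact ⟨⟨α, fin α _ hα⟩, ⟨β, fin β _ hβ⟩⟩

end Pool.Agent.MP_a2955b_co.Up
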