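import Pool.Agent.MP_a2955b_co.Up.Stmt
set_option autoImplicit false
namespace Pool.Agent.MP_a2955b_co.Up
open Set Module

theorem root_Num (k y1 m : ℕ) (hk : 1 ≤ k) (h : y1 ^ k ≤ m) :
    ∃ y : ℕ, y1 ≤ y ∧ y ^ k ≤ m ∧ m < (y + 1) ^ k := by
  have hle : ∀ z : ℕ, z ^ k ≤ m → z ≤ m := fun z hz => (Nat.le_self_pow (by omega) z).trans hz
  refine ⟨Nat.findGreatest (fun y => y ^ k ≤ m) m, Nat.le_findGreatest (hle _ h) h,
    Nat.findGreatest_spec (P := fun y => y ^ k ≤ m) (hle _ h) h, ?_⟩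
  by_contra hc
  have hc' := not_lt.1 hc
  have := Nat.le_findGreatest (P := fun y => y ^ k ≤ m) (hle _ hc') hc'
  omega

theorem real_Num (D Z N M m y : ℕ) (ε : ℝ) (hD : 1 ≤ D) (hZ : 2 ≤ Z) (hy : 1 ≤ y)
    (hε : 1 ≤ ε * y) (hM : M * y ^ Z ≤ y ^ 3 * m) (hN : N * y ^ (3 * D + 2) ≤ y ^ (Z * D)) :
    (N : ℝ) * (M : ℝ) ^ ((D : ℝ) - 1 / Z) ≤ ε * (m : ℝ) ^ ((D : ℝ) - 1 / Z) := by
  have hZ' : (2 : ℝ) ≤ Z := by exact_mod_cast hZ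
  have hD' : (1 : ℝ) ≤ D := by exact_mod_cast hD
  have hy' : (1 : ℝ) ≤ y := by exact_mod_cast hy
  have hy0 : (0 : ℝ) < y := by linarith
  have hδ : (1 : ℝ) / Z ≤ 1 / 2 := one_div_le_one_div_of_le (by norm_num) hZ'
  have hδ0 : (0 : ℝ) < 1 / Z := by positivity
  set e : ℝ := (D : ℝ) - 1 / Z with he
  have he0 : 0 ≤ e := by rw [he]; linarith
  have h1 : ((M : ℝ) * (y : ℝ) ^ Z) ^ e ≤ ((y : ℝ) ^ 3 * m) ^ e :=
    Real.rpow_le_rpow (by positivity) (by exact_mod_cast hM) he0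
  rw [Real.mul_rpow (by positivity) (by positivity), Real.mul_rpow (by positivity) (by positivity)]
    at h1
  have h2 : ((y : ℝ) ^ Z) ^ e * y = (y : ℝ) ^ (Z * D) := by
    rw [← Real.rpow_natCast, ← Real.rpow_mul hy0.le, ← Real.rpow_add_one hy0.ne',
      ← Real.rpow_natCast]
    congr 1
    have : (Z : ℝ) ≠ 0 := by linarith
    rw [he]; push_cast; field_simp; ring
  have h3 : ((y : ℝ) ^ 3) ^ e ≤ (y : ℝ) ^ (3 * D) := by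
    rw [pow_mul, ← Real.rpow_natCast _ D]
    exact Real.rpow_le_rpow_of_exponent_le (one_le_pow₀ hy') (by rw [he]; linarith)
  have h4 : (N : ℝ) * (y : ℝ) ^ (3 * D + 2) ≤ (y : ℝ) ^ (Z * D) := by exact_mod_cast hN
  have hme : 0 ≤ (m : ℝ) ^ e := by positivity
  have hMe : 0 ≤ (M : ℝ) ^ e := by positivity
  have hP : 0 < (y : ℝ) ^ (Z * D) := by positivity
  have h5 : (N : ℝ) * (M : ℝ) ^ e * y * (y : ℝ) ^ (Z * D) ≤ (m : ℝ) ^ e * (y : ℝ) ^ (Z * D) := by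
    calc (N : ℝ) * (M : ℝ) ^ e * y * (y : ℝ) ^ (Z * D)
        = N * y * y * ((M : ℝ) ^ e * ((y : ℝ) ^ Z) ^ e) := by rw [← h2]; ring
      _ ≤ N * y * y * (((y : ℝ) ^ 3) ^ e * (m : ℝ) ^ e) := by gcongr
      _ ≤ N * y * y * ((y : ℝ) ^ (3 * D) * (m : ℝ) ^ e) := by gcongr
      _ = (m : ℝ) ^ e * (N * (y : ℝ) ^ (3 * D + 2)) := by ring
      _ ≤ (m : ℝ) ^ e * (y : ℝ) ^ (Z * D) := by gcongr
  have h6 : (N : ℝ) * (M : ℝ) ^ e * y ≤ (m : ℝ) ^ e := le_of_mul_le_mul_right h5 hP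
  have h7 : (N : ℝ) * (M : ℝ) ^ e * y ≤ ε * (m : ℝ) ^ e * y := by
    calc _ ≤ (m : ℝ) ^ e := h6
      _ = (m : ℝ) ^ e * 1 := (mul_one _).symm
      _ ≤ (m : ℝ) ^ e * (ε * y) := by gcongr
      _ = _ := by ring
  exact le_of_mul_le_mul_right h7 hy0

theorem num_of (h : NumNatStmt) : NumStmt := by
  intro D w0 c1 c2 hD
  obtain ⟨Z, hZ, y0, hy0⟩ := h D w0 c1 c2 hD
  have hZ' : (2 : ℝ) ≤ Z := by exact_mod_cast hZ
  refine ⟨1 / Z, by positivity, one_div_le_one_div_of_le (by norm_num) hZ', fun ε hε => ?_⟩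
  refine ⟨(max y0 (⌈1 / ε⌉₊ + 1)) ^ (2 * Z), fun m hm => ?_⟩
  obtain ⟨y, hy1, hy2, hy3⟩ := root_Num (2 * Z) _ m (by omega) hm
  have hya : y0 ≤ y := (le_max_left _ _).trans hy1
  have hyb : ⌈1 / ε⌉₊ + 1 ≤ y := (le_max_right _ _).trans hy1
  have hy : 1 ≤ y := by omega
  obtain ⟨q, k1, t1, t2, lam, hq, a1, a2, a3, a4, a5, a6⟩ := hy0 y m hya hy2 hy3
  refine ⟨q, k1, t1, y ^ Z, t2, lam, hq, a1, a2, a3, a4, fun N hN => ?_⟩
  have hm0 : 0 < m := lt_of_lt_of_le (pow_pos hy _) hy2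
  have hN' : N * y ^ (3 * D + 2) ≤ y ^ (Z * D) := by
    have h1 : q * N * m ^ D * y ^ (3 * D + 2) ≤ q * y ^ (Z * D) * m ^ D :=
      (Nat.mul_le_mul_right _ hN).trans a6
    have h2 : (q * m ^ D) * (N * y ^ (3 * D + 2)) ≤ (q * m ^ D) * y ^ (Z * D) := by
      calc _ = q * N * m ^ D * y ^ (3 * D + 2) := by ring
        _ ≤ _ := h1
        _ = _ := by ring
    exact Nat.le_of_mul_le_mul_left h2 (Nat.mul_pos hq (pow_pos hm0 _))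
  refine ⟨real_Num D Z N _ m y ε hD hZ hy ?_ a5 hN', ?_⟩
  · have h1 : 1 / ε ≤ (y : ℝ) := by
      refine (Nat.le_ceil _).trans ?_
      exact_mod_cast (by omega : ⌈1 / ε⌉₊ ≤ y)
    rw [div_le_iff₀ hε] at h1
    linarith
  · have h1 : N ≤ y ^ (Z * D) := le_trans (Nat.le_mul_of_pos_right _ (pow_pos hy _)) hN'
    calc N ^ 2 ≤ (y ^ (Z * D)) ^ 2 := Nat.pow_le_pow_left h1 2
      _ = (y ^ (2 * Z)) ^ D := by rw [← pow_mul, ← pow_mul]; congr 1; ring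
      _ ≤ m ^ D := Nat.pow_le_pow_left hy2 D

end Pool.Agent.MP_a2955b_co.Up
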