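import Pool.Agent.MP_a2955b_co.Up.Stmt

/-! Choice of the integer parameters. -/

set_option autoImplicit false

namespace Pool.Agent.MP_a2955b_co.Up

open Set Module

lemma exp_NumNat (y x e c : ℕ) (hx : x ≤ (y + 1) ^ e) (hy : e * c + 2 ≤ y) :
    2 * x ^ c < 2 ^ (y ^ 2) := by
  have h1 : y + 1 ≤ 2 ^ y := Nat.lt_two_pow_self
  have h2 : x ^ c ≤ 2 ^ (y * (e * c)) := by
    calc x ^ c ≤ ((y + 1) ^ e) ^ c := Nat.pow_le_pow_left hx c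
      _ ≤ ((2 ^ y) ^ e) ^ c := Nat.pow_le_pow_left (Nat.pow_le_pow_left h1 e) c
      _ = 2 ^ (y * (e * c)) := by rw [← pow_mul, ← pow_mul]
  have h3 : y * (e * c) + 1 < y ^ 2 := by
    generalize e * c = k at hy
    nlinarith
  calc 2 * x ^ c ≤ 2 * 2 ^ (y * (e * c)) := Nat.mul_le_mul_left 2 h2
    _ = 2 ^ (y * (e * c) + 1) := by ring
    _ < 2 ^ (y ^ 2) := Nat.pow_lt_pow_right (by norm_num) h3

/-- The constant in the bound for `KK`. -/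
def cK_NumNat (d : ℕ) : ℕ := 2 ^ (d + 1) * (d + 1) * 2 * 3 ^ d * 2 ^ (d + 3)

lemma kk_NumNat (d w0 H A B : ℕ) (hw : w0 ≤ A) (hH : H ≤ A) (hA : 1 ≤ A) (hAB : A ≤ B) :
    KK (d + 1) w0 H B ≤ cK_NumNat d * (A ^ (d + 4) * B ^ d) := by
  unfold KK cK_NumNat
  have h1 : w0 + H ≤ 2 * A := by omega
  have h2 : w0 + H + B ≤ 3 * B := by omega
  have h3 : H + 1 ≤ 2 * A := by omega
  have e1 : d + 1 - 1 = d := by omega
  rw [e1]
  calc 2 ^ (d + 1) * ((d + 1) * (w0 + H) * (w0 + H + B) ^ d) * (H + 1) ^ (d + 1 + 2)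
      ≤ 2 ^ (d + 1) * ((d + 1) * (2 * A) * (3 * B) ^ d) * (2 * A) ^ (d + 1 + 2) := by gcongr
    _ = 2 ^ (d + 1) * (d + 1) * 2 * 3 ^ d * 2 ^ (d + 3) * (A ^ (d + 4) * B ^ d) := by
        rw [mul_pow, mul_pow]; ring

lemma div_NumNat (x k : ℕ) (hk : 0 < k) : x ≤ (x / k + 1) * k ∧ (x / k + 1) * k ≤ x + k := by
  have h1 : x < x / k * k + k := Nat.lt_div_mul_add hk
  have h2 : x / k * k ≤ x := Nat.div_mul_le_self x k
  constructor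
  · rw [add_mul, one_mul]; exact h1.le
  · rw [add_mul, one_mul]; omega

lemma termA_NumNat (d y K e Z : ℕ) (hy : 1 ≤ y) (hK : K ≤ cK_NumNat d * y ^ e)
    (hc : 3 * 2 ^ (d + 1) * ((d + 1) * (d + 2)) * 2 ^ d * cK_NumNat d ≤ y)
    (hd : d + 2 ≤ y ^ Z) (hZ : e + 3 * d + 6 ≤ Z) :
    3 * (2 ^ (d + 1) * K * ((d + 1) * (d + 1 + 1) * (d + 1 + 1 + y ^ Z) ^ d) *
      y ^ (3 * (d + 1) + 2)) ≤ y ^ (Z * (d + 1)) := by
  have h1 : d + 1 + 1 + y ^ Z ≤ 2 * y ^ Z := by omega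
  calc 3 * (2 ^ (d + 1) * K * ((d + 1) * (d + 1 + 1) * (d + 1 + 1 + y ^ Z) ^ d) *
        y ^ (3 * (d + 1) + 2))
      ≤ 3 * (2 ^ (d + 1) * (cK_NumNat d * y ^ e) * ((d + 1) * (d + 1 + 1) * (2 * y ^ Z) ^ d) *
        y ^ (3 * (d + 1) + 2)) := by gcongr
    _ = (3 * 2 ^ (d + 1) * ((d + 1) * (d + 2)) * 2 ^ d * cK_NumNat d) *
        (y ^ (e + 3 * d + 5) * (y ^ Z) ^ d) := by
        rw [mul_pow]; ring
    _ ≤ y * (y ^ (e + 3 * d + 5) * (y ^ Z) ^ d) := Nat.mul_le_mul_right _ hc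
    _ = y ^ (e + 3 * d + 6) * (y ^ Z) ^ d := by ring
    _ ≤ y ^ Z * (y ^ Z) ^ d := Nat.mul_le_mul_right _ (Nat.pow_le_pow_right hy hZ)
    _ = y ^ (Z * (d + 1)) := by rw [pow_mul]; ring

lemma termC_NumNat (d y K a b t m : ℕ) (hy : 1 ≤ y)
    (hK : K ≤ cK_NumNat d * y ^ (a * (d + 4) + b * d))
    (hc : 3 * 2 ^ (d + 2) * ((d + 2) ^ 2) ^ (d + 1) * 2 ^ (d + 1) * cK_NumNat d ≤ y)
    (ht : t * y ^ b ≤ 2 * y ^ (2 + a) * m) (hb : a * (2 * d + 5) + 5 * d + 8 ≤ b) :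
    3 * (2 ^ (d + 2) * K * ((d + 1 + 1) ^ 2 * t) ^ (d + 1) * y ^ (3 * (d + 1) + 2)) ≤
      m ^ (d + 1) := by
  have hpos : 0 < (y ^ b) ^ (d + 1) := by positivity
  refine Nat.le_of_mul_le_mul_right ?_ hpos
  have h1 : (t * y ^ b) ^ (d + 1) ≤ (2 * y ^ (2 + a) * m) ^ (d + 1) :=
    Nat.pow_le_pow_left ht _
  calc 3 * (2 ^ (d + 2) * K * ((d + 1 + 1) ^ 2 * t) ^ (d + 1) * y ^ (3 * (d + 1) + 2)) *
        (y ^ b) ^ (d + 1)
      = 3 * 2 ^ (d + 2) * ((d + 2) ^ 2) ^ (d + 1) * K * y ^ (3 * d + 5) *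
        (t * y ^ b) ^ (d + 1) := by
        rw [mul_pow, mul_pow]; ring
    _ ≤ 3 * 2 ^ (d + 2) * ((d + 2) ^ 2) ^ (d + 1) *
        (cK_NumNat d * y ^ (a * (d + 4) + b * d)) * y ^ (3 * d + 5) *
        (2 * y ^ (2 + a) * m) ^ (d + 1) := by gcongr
    _ = (3 * 2 ^ (d + 2) * ((d + 2) ^ 2) ^ (d + 1) * 2 ^ (d + 1) * cK_NumNat d) *
        (y ^ (a * (2 * d + 5) + 5 * d + 7) * (y ^ (b * d) * m ^ (d + 1))) := by
        rw [mul_pow, mul_pow, ← pow_mul y (2 + a)]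
        generalize ((d + 2) ^ 2) ^ (d + 1) = u
        have e : y ^ (a * (d + 4) + b * d) * y ^ (3 * d + 5) * y ^ ((2 + a) * (d + 1)) =
            y ^ (a * (2 * d + 5) + 5 * d + 7) * y ^ (b * d) := by
          rw [← pow_add, ← pow_add, ← pow_add]; congr 1; ring
        calc 3 * 2 ^ (d + 2) * u * (cK_NumNat d * y ^ (a * (d + 4) + b * d)) * y ^ (3 * d + 5) *
              (2 ^ (d + 1) * y ^ ((2 + a) * (d + 1)) * m ^ (d + 1))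
            = 3 * 2 ^ (d + 2) * u * 2 ^ (d + 1) * cK_NumNat d *
              ((y ^ (a * (d + 4) + b * d) * y ^ (3 * d + 5) * y ^ ((2 + a) * (d + 1))) *
                m ^ (d + 1)) := by
              generalize y ^ (a * (d + 4) + b * d) = p1
              generalize y ^ ((2 + a) * (d + 1)) = p2
              ring
          _ = _ := by rw [e, mul_assoc (y ^ (a * (2 * d + 5) + 5 * d + 7))]
    _ ≤ y * (y ^ (a * (2 * d + 5) + 5 * d + 7) * (y ^ (b * d) * m ^ (d + 1))) :=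
        Nat.mul_le_mul_right _ hc
    _ = y ^ (a * (2 * d + 5) + 5 * d + 8) * (y ^ (b * d) * m ^ (d + 1)) := by
        rw [show a * (2 * d + 5) + 5 * d + 8 = (a * (2 * d + 5) + 5 * d + 7) + 1 from rfl,
          pow_succ]
        ring
    _ ≤ y ^ b * (y ^ (b * d) * m ^ (d + 1)) :=
        Nat.mul_le_mul_right _ (Nat.pow_le_pow_right hy hb)
    _ = m ^ (d + 1) * (y ^ b) ^ (d + 1) := by rw [pow_mul]; ring

lemma comb_NumNat (D q K P M W F T Y : ℕ)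
    (hA : 3 * (2 ^ D * K * P * Y) ≤ W) (hB : 3 * (2 ^ (D + 1) * F * Y) ≤ q)
    (hC : 3 * (2 ^ (D + 1) * K * T * Y) ≤ M) :
    2 ^ D * (q * K * P * M + 2 * W * (F * M + q * K * T)) * Y ≤ q * W * M := by
  refine Nat.le_of_mul_le_mul_left ?_ (show 0 < 3 by norm_num)
  have h1 := Nat.mul_le_mul_right (q * M) hA
  have h2 := Nat.mul_le_mul_right (W * M) hB
  have h3 := Nat.mul_le_mul_right (q * W) hC
  calc 3 * (2 ^ D * (q * K * P * M + 2 * W * (F * M + q * K * T)) * Y)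
      = 3 * (2 ^ D * K * P * Y) * (q * M) + 3 * (2 ^ (D + 1) * F * Y) * (W * M) +
        3 * (2 ^ (D + 1) * K * T * Y) * (q * W) := by ring
    _ ≤ W * (q * M) + q * (W * M) + M * (q * W) := by gcongr
    _ = 3 * (q * W * M) := by ring

theorem numNat : NumNatStmt := by
  intro D w0 c1 c2 hD
  obtain ⟨d, rfl⟩ : ∃ d, D = d + 1 := ⟨D - 1, by omega⟩
  obtain ⟨a, ha⟩ : ∃ a, a = (3 * d + 6) * c2 + 1 := ⟨_, rfl⟩
  obtain ⟨b, hb⟩ : ∃ b, b = a * (2 * d + 5) + 5 * d + 8 := ⟨_, rfl⟩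
  obtain ⟨Z, hZ⟩ : ∃ Z, Z = a * (d + 4) + b * d + 3 * d + 6 + b := ⟨_, rfl⟩
  obtain ⟨cA, hcA⟩ : ∃ c, c = 3 * 2 ^ (d + 1) * ((d + 1) * (d + 2)) * 2 ^ d * cK_NumNat d :=
    ⟨_, rfl⟩
  obtain ⟨cB, hcB⟩ : ∃ c, c = 3 * 2 ^ (d + 2) * (d + 1).factorial := ⟨_, rfl⟩
  obtain ⟨cC, hcC⟩ : ∃ c, c = 3 * 2 ^ (d + 2) * ((d + 2) ^ 2) ^ (d + 1) * 2 ^ (d + 1) *
    cK_NumNat d := ⟨_, rfl⟩
  obtain ⟨cD, hcD⟩ : ∃ c, c = (2 * Z + a) * (2 * (d + 1 + 1)) + 2 := ⟨_, rfl⟩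
  obtain ⟨cE, hcE⟩ : ∃ c, c = 2 * (d + 1 + 1) ^ 2 := ⟨_, rfl⟩
  have ha1 : 1 ≤ a := by omega
  have hab : a ≤ b := by
    have : a * 1 ≤ a * (2 * d + 5) := Nat.mul_le_mul_left a (by omega)
    omega
  have hbZ : b ≤ Z := by omega
  have hZ2 : 2 ≤ Z := by omega
  refine ⟨Z, hZ2, cA + cB + cC + cD + cE + c1 + w0 + d + 2, ?_⟩
  intro y m hy hm1 hm2
  have hy1 : 1 ≤ y := by omega
  have hyA : cA ≤ y := by omega
  have hyB : cB ≤ y := by omega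
  have hyC : cC ≤ y := by omega
  have hyD : cD ≤ y := by omega
  have hyE : cE ≤ y := by omega
  have hyc : c1 ≤ y := by omega
  have hyw : w0 ≤ y := by omega
  have hyd : d + 2 ≤ y := by omega
  have hya : y ≤ y ^ a := by
    calc y = y ^ 1 := (pow_one y).symm
      _ ≤ y ^ a := Nat.pow_le_pow_right hy1 ha1
  have hyab : y ^ a ≤ y ^ b := Nat.pow_le_pow_right hy1 hab
  have hybZ : y ^ b ≤ y ^ Z := Nat.pow_le_pow_right hy1 hbZ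
  have hZm : y ^ Z ≤ m := le_trans (Nat.pow_le_pow_right hy1 (by omega)) hm1
  obtain ⟨H, hH⟩ : ∃ H, H = c1 * (y ^ (3 * d + 6)) ^ c2 := ⟨_, rfl⟩
  have hHa : H ≤ y ^ a := by
    rw [hH, ha, ← pow_mul, pow_succ, mul_comm]
    exact Nat.mul_le_mul_left _ hyc
  have hbpos : 0 < y ^ b := by positivity
  have hZpos : 0 < y ^ Z := by positivity
  obtain ⟨ht1a, ht1b⟩ := div_NumNat (y ^ 2 * (m * H)) (y ^ b) hbpos
  obtain ⟨ht2a, ht2b⟩ := div_NumNat (y ^ 2 * m) (y ^ Z) hZpos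
  have hm3 : m + 1 ≤ (y + 1) ^ (2 * Z) := hm2
  have hya1 : y ^ a ≤ (y + 1) ^ a := Nat.pow_le_pow_left (by omega) a
  have hpa : 1 ≤ (y + 1) ^ a := Nat.one_le_pow _ _ (by omega)
  have hmH : m * H + 1 ≤ (y + 1) ^ (2 * Z + a) := by
    calc m * H + 1 ≤ m * (y + 1) ^ a + (y + 1) ^ a :=
          Nat.add_le_add (Nat.mul_le_mul_left m (hHa.trans hya1)) hpa
      _ = (m + 1) * (y + 1) ^ a := by ring
      _ ≤ (y + 1) ^ (2 * Z) * (y + 1) ^ a := Nat.mul_le_mul_right _ hm3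
      _ = (y + 1) ^ (2 * Z + a) := (pow_add _ _ _).symm
  have hm4 : m + 1 ≤ (y + 1) ^ (2 * Z + a) :=
    hm3.trans (Nat.pow_le_pow_right (by omega) (by omega))
  have hy2 : 1 ≤ y ^ 2 := Nat.one_le_pow _ _ hy1
  refine ⟨y ^ (3 * d + 6), y ^ b, y ^ 2 * (m * H) / y ^ b + 1, y ^ 2 * m / y ^ Z + 1, y ^ 2,
    Nat.one_le_pow _ _ hy1, ?_, ?_, ?_, ht2a, ?_, ?_⟩
  · rw [← hH]
    exact exp_NumNat y _ (2 * Z + a) _ hmH (hcD ▸ hyD)
  · rw [← hH]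
    exact ht1a
  · exact exp_NumNat y _ (2 * Z + a) _ hm4 (hcD ▸ hyD)
  · have h1 : (y ^ 2 * m / y ^ Z + 1) * y ^ Z ≤ 2 * (y ^ 2 * m) := by
      have : m ≤ y ^ 2 * m := Nat.le_mul_of_pos_left m hy2
      omega
    calc (d + 1 + 1) ^ 2 * (y ^ 2 * m / y ^ Z + 1) * y ^ Z
        = (d + 1 + 1) ^ 2 * ((y ^ 2 * m / y ^ Z + 1) * y ^ Z) := mul_assoc _ _ _
      _ ≤ (d + 1 + 1) ^ 2 * (2 * (y ^ 2 * m)) := Nat.mul_le_mul_left _ h1
      _ = cE * (y ^ 2 * m) := by rw [hcE]; ring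
      _ ≤ y * (y ^ 2 * m) := Nat.mul_le_mul_right _ hyE
      _ = y ^ 3 * m := by ring
  · rw [← hH]
    have hK : KK (d + 1) w0 H (y ^ b) ≤ cK_NumNat d * y ^ (a * (d + 4) + b * d) := by
      have := kk_NumNat d w0 H (y ^ a) (y ^ b) (hyw.trans hya) hHa (hy1.trans hya) hyab
      rwa [← pow_mul, ← pow_mul, ← pow_add] at this
    have ht : (y ^ 2 * (m * H) / y ^ b + 1) * y ^ b ≤ 2 * y ^ (2 + a) * m := by
      have h1 : y ^ 2 * (m * H) ≤ y ^ (2 + a) * m := by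
        calc y ^ 2 * (m * H) ≤ y ^ 2 * (m * y ^ a) := by gcongr
          _ = y ^ (2 + a) * m := by ring
      have h2 : m ≤ y ^ (2 + a) * m := Nat.le_mul_of_pos_left m (by positivity)
      have h3 : y ^ b ≤ m := hybZ.trans hZm
      calc (y ^ 2 * (m * H) / y ^ b + 1) * y ^ b ≤ y ^ 2 * (m * H) + y ^ b := ht1b
        _ ≤ y ^ (2 + a) * m + y ^ (2 + a) * m := Nat.add_le_add h1 (h3.trans h2)
        _ = 2 * y ^ (2 + a) * m := by ring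
    have hA := termA_NumNat d y _ _ Z hy1 hK (hcA ▸ hyA)
      (hyd.trans (hya.trans (hyab.trans hybZ))) (by omega)
    have hC := termC_NumNat d y _ a b _ m hy1 hK (hcC ▸ hyC) ht hb.ge
    have hB : 3 * (2 ^ (d + 1 + 1) * (d + 1).factorial * y ^ (3 * (d + 1) + 2)) ≤
        y ^ (3 * d + 6) := by
      calc 3 * (2 ^ (d + 1 + 1) * (d + 1).factorial * y ^ (3 * (d + 1) + 2))
          = cB * y ^ (3 * d + 5) := by rw [hcB]; ring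
        _ ≤ y * y ^ (3 * d + 5) := Nat.mul_le_mul_right _ hyB
        _ = y ^ (3 * d + 6) := by ring
    have key := comb_NumNat (d + 1) _ _ _ _ _ _ _ _ hA hB hC
    unfold RR
    have e1 : d + 1 - 1 = d := by omega
    rw [e1, ← pow_mul y Z (d + 1)]
    exact key

end Pool.Agent.MP_a2955b_co.Up
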