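import Pool.Agent.MP_a2955b_co.Up.Basic

set_option autoImplicit false

namespace Pool.Agent.MP_a2955b_co.Up

open Set Module

section aux

variable {E : Type} [NormedAddCommGroup E] [NormedSpace ℝ E] [FiniteDimensional ℝ E]

theorem closed_Poly (G : Finset (Af E)) : IsClosed {x | ∀ g ∈ G, 0 ≤ g x} := by
  have : {x | ∀ g ∈ G, 0 ≤ g x} = ⋂ g ∈ G, {x | 0 ≤ g x} := by ext x; simp
  rw [this]
  exact isClosed_biInter (fun g _ => isClosed_le continuous_const (af_continuous g))

omit [FiniteDimensional ℝ E] in
theorem convex_Poly (G : Finset (Af E)) : Convex ℝ {x | ∀ g ∈ G, 0 ≤ g x} := by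
  intro x hx y hy a b ha hb hab g hg
  exact convex_nonneg g (hx g hg) (hy g hg) ha hb hab

theorem closure_Poly (G : Finset (Af E)) {y : E} (hy : ∀ g ∈ G, 0 < g y) :
    closure {x | ∀ g ∈ G, 0 < g x} = {x | ∀ g ∈ G, 0 ≤ g x} := by
  apply Subset.antisymm
  · exact closure_minimal (fun x hx g hg => (hx g hg).le) (closed_Poly G)
  · intro x hx
    have hc : Filter.Tendsto (fun s : ℝ => x + s • (y - x)) (nhdsWithin 0 (Ioi 0)) (nhds x) := by
      have : Continuous (fun s : ℝ => x + s • (y - x)) := by fun_prop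
      have h2 := this.tendsto 0
      simp only [zero_smul, add_zero] at h2
      exact h2.mono_left nhdsWithin_le_nhds
    refine mem_closure_of_tendsto hc ?_
    filter_upwards [Ioo_mem_nhdsGT (show (0 : ℝ) < 1 by norm_num)] with s hs g hg
    rw [af_add, map_smul, af_sub, smul_eq_mul]
    have h1 := hx g hg
    have h2 := hy g hg
    have h3 : 0 ≤ (1 - s) * g x := mul_nonneg (by linarith [hs.2]) h1
    have h4 : 0 < s * g y := mul_pos hs.1 h2
    nlinarith

omit [FiniteDimensional ℝ E] in
theorem finite_extreme_Poly (G : Finset (Af E)) :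
    (({x | ∀ g ∈ G, 0 ≤ g x} : Set E).extremePoints ℝ).Finite := by
  classical
  refine Set.Finite.of_finite_image (f := fun x => G.filter (fun g => g x = 0))
    ((G.powerset.finite_toSet).subset ?_) ?_
  · rintro _ ⟨x, _, rfl⟩
    exact Finset.mem_coe.2 (Finset.mem_powerset.2 (Finset.filter_subset _ _))
  · intro x hx y hy hxy
    have hev : ∀ᶠ s : ℝ in nhds 0, ∀ g ∈ G, 0 ≤ g (x + s • (y - x)) := by
      rw [Filter.eventually_all_finset]
      intro g hg
      simp only [af_add, map_smul, af_sub, smul_eq_mul]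
      by_cases h0 : g x = 0
      · have h1 : g ∈ G.filter (fun g => g x = 0) := Finset.mem_filter.2 ⟨hg, h0⟩
        have h2 : G.filter (fun g => g x = 0) = G.filter (fun g => g y = 0) := hxy
        rw [h2] at h1
        have h3 : g y = 0 := (Finset.mem_filter.1 h1).2
        simp [h0, h3]
      · have h1 : 0 < g x := lt_of_le_of_ne (hx.1 g hg) (Ne.symm h0)
        have hc : Continuous (fun s : ℝ => g x + s * (g y - g x)) := by fun_prop
        have h2 := hc.tendsto 0
        simp only [zero_mul, add_zero] at h2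
        exact (h2.eventually (lt_mem_nhds h1)).mono (fun s hs => hs.le)
    obtain ⟨ε, hε, h⟩ := Metric.eventually_nhds_iff.1 hev
    have hp := h (y := ε / 2) (by rw [Real.dist_eq, sub_zero, abs_of_pos (by linarith)]; linarith)
    have hm := h (y := -(ε / 2))
      (by rw [Real.dist_eq, sub_zero, abs_neg, abs_of_pos (by linarith)]; linarith)
    have hseg : x ∈ openSegment ℝ (x + (ε / 2) • (y - x)) (x + (-(ε / 2)) • (y - x)) := by
      refine ⟨1 / 2, 1 / 2, by norm_num, by norm_num, by norm_num, ?_⟩
      module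
    have h5 := (mem_extremePoints.1 hx).2 _ hp _ hm hseg
    have h6 : (ε / 2) • (y - x) = 0 := by simpa using h5.1
    rcases smul_eq_zero.1 h6 with h7 | h7
    · linarith
    · exact (sub_eq_zero.1 h7).symm

end aux

theorem poly : PolyStmt := by
  rintro d O ⟨G, rfl⟩ hb ⟨y, hy⟩
  have hcl := closure_Poly G hy
  have hop : IsOpen {x : EuclideanSpace ℝ (Fin d) | ∀ g ∈ G, 0 < g x} := OP.isOpen ⟨G, rfl⟩
  have hcomp : IsCompact {x : EuclideanSpace ℝ (Fin d) | ∀ g ∈ G, 0 ≤ g x} := by
    rw [← hcl]
    exact hb.isCompact_closure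
  have hfin := finite_extreme_Poly G
  have hKM := closure_convexHull_extremePoints hcomp (convex_Poly G)
  rw [(hfin.isClosed_convexHull ℝ).closure_eq] at hKM
  refine ⟨_, hfin, ?_, hcl.trans hKM.symm, ?_⟩
  · exact hcomp.extremePoints_nonempty ⟨y, fun g hg => (hy g hg).le⟩
  · have h1 : vectorSpan ℝ {x : EuclideanSpace ℝ (Fin d) | ∀ g ∈ G, 0 < g x} = ⊤ :=
      AffineSubspace.vectorSpan_eq_top_of_affineSpan_eq_top ℝ _ _ (hop.affineSpan_eq_top ⟨y, hy⟩)
    have h2 : vectorSpan ℝ (closure {x : EuclideanSpace ℝ (Fin d) | ∀ g ∈ G, 0 < g x}) = ⊤ :=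
      top_unique (h1 ▸ vectorSpan_mono ℝ subset_closure)
    rw [h2, finrank_top, finrank_euclideanSpace_fin]

theorem toPart_of (h : PolyStmt) : ToPartStmt := by
  classical
  intro d P σ hP hPσ hσ C hC hfr
  have hPc : IsClosed P := by rw [← hP]; exact isClosed_closure
  set C' := C.filter (fun O => O.Nonempty ∧ O ⊆ P) with hC'
  have hmem : ∀ i : Fin C'.card, (C'.equivFin.symm i).1 ∈ C ∧ (C'.equivFin.symm i).1.Nonempty ∧
      (C'.equivFin.symm i).1 ⊆ P := fun i => Finset.mem_filter.1 (C'.equivFin.symm i).2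
  refine ⟨C'.card, fun i => closure (C'.equivFin.symm i).1, ⟨fun i => ?_, fun i j hij => ?_, ?_⟩,
    Finset.card_filter_le _ _⟩
  · exact h d _ (hC.op _ (hmem i).1) (hσ.subset (hC.sub _ (hmem i).1)) (hmem i).2.1
  · have hne : (C'.equivFin.symm i).1 ≠ (C'.equivFin.symm j).1 := fun he =>
      hij (C'.equivFin.symm.injective (Subtype.ext he))
    have hd := hC.disj _ (hmem i).1 _ (hmem j).1 hne
    have h1 := hd.closure_right (hC.op _ (hmem i).1).isOpen
    have h2 : Disjoint (C'.equivFin.symm i).1 (interior (closure (C'.equivFin.symm j).1)) :=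
      h1.mono_right interior_subset
    exact (h2.closure_left isOpen_interior).mono_left interior_subset
  · apply Subset.antisymm
    · exact iUnion_subset fun i => closure_minimal (hmem i).2.2 hPc
    · rw [← closure_iUnion_of_finite]
      refine hP.symm.subset.trans (closure_minimal ?_ isClosed_closure)
      intro x hx
      have h1 := isOpen_interior.inter_closure ⟨hx, hC.cover (hPσ (interior_subset hx))⟩
      refine closure_mono ?_ h1
      rintro z ⟨hz1, hz2⟩
      simp only [mem_iUnion] at hz2 ⊢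
      obtain ⟨O, hO, hz⟩ := hz2
      have hsub : O ⊆ interior P ∪ interior Pᶜ := by
        rw [← compl_frontier_eq_union_interior]
        exact (hfr O hO).subset_compl_right
      have hdis : Disjoint (interior P) (interior Pᶜ) :=
        disjoint_compl_right.mono interior_subset interior_subset
      have hOP : O ⊆ P := by
        rcases (hC.op O hO).convex.isPreconnected.subset_or_subset isOpen_interior
          isOpen_interior hdis hsub with h2 | h2
        · exact h2.trans interior_subset
        · exact (Set.disjoint_left.1 hdis hz1 (h2 hz)).elim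
      have hO' : O ∈ C' := Finset.mem_filter.2 ⟨hO, ⟨z, hz⟩, hOP⟩
      refine ⟨C'.equivFin ⟨O, hO'⟩, ?_⟩
      rw [Equiv.symm_apply_apply]
      exact hz

end Pool.Agent.MP_a2955b_co.Up
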