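import Pool.Agent.MP_a2955b_co.Up.Stmt
import Pool.Agent.MP_41f2d3_co.Ramsey

set_option autoImplicit false

namespace Pool.Agent.MP_a2955b_co.Up

open Set Module

theorem ramsey_prod : RamseyStmt := by
  intro D C _
  induction D with
  | zero => exact ⟨0, fun χ => ⟨fun i => i.elim0, fun i => i.elim0, χ fun i => i.elim0,
      fun a b _ => congrArg χ (Subsingleton.elim _ _)⟩⟩
  | succ D ih =>
    obtain ⟨L, hL⟩ := ih
    have := Fintype.ofFinite ((Fin D → Fin L × Fin L) → C)
    obtain ⟨N, hN⟩ := MP_41f2d3_co.ramsey ((Fin D → Fin L × Fin L) → C) 3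
    refine ⟨L + N + 1, fun χ => ?_⟩
    let g : ℕ → Fin (L + N + 1) := fun x => ⟨x % (L + N + 1), Nat.mod_lt _ (Nat.succ_pos _)⟩
    let u : Fin L → Fin (L + N + 1) := Fin.castLE (by omega)
    obtain ⟨f, hf, hm, c0, hc0⟩ := hN fun x y r =>
      χ (Fin.cons (g x, g y) fun i => (u (r i).1, u (r i).2))
    obtain ⟨s, hs, c, hc⟩ := hL c0
    refine ⟨Fin.cons (fun k => g (f k)) fun i k => u (s i k), fun i => ?_, c, fun a b hab => ?_⟩
    · refine Fin.cases ?_ (fun i => ?_) i
      · intro k l hkl
        have h1 := hf k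
        have h2 := hf l
        change f k % _ < f l % _
        rw [Nat.mod_eq_of_lt (by omega), Nat.mod_eq_of_lt (by omega)]
        exact hm k l hkl
      · exact fun k l hkl => hs i hkl
    · rw [← hc (fun i => a i.succ) (fun i => b i.succ) fun i => hab _, ← hc0 _ _ (hab 0)]
      refine congrArg χ (funext fun i => ?_)
      refine Fin.cases ?_ (fun i => ?_) i <;> rfl

theorem comb_Ramsey (hR : RamseyStmt) (D : ℕ) : ∃ L : ℕ,
    ∀ f : (Fin D → Fin L) → Fin D → Fin L → SignType, ∃ s : Fin D → Fin 3 → Fin L,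
      (∀ i, StrictMono (s i)) ∧ ∃ σ σ' : Fin D → SignType,
        ∀ (j : Fin D → Fin 3) (i : Fin D) (k : Fin 3),
          (k < j i → f (fun i' => s i' (j i')) i (s i k) = σ i) ∧
          (j i < k → f (fun i' => s i' (j i')) i (s i k) = σ' i) := by
  obtain ⟨L, hL⟩ := hR D (Fin D → (Fin D → Bool) → SignType × SignType)
  refine ⟨L, fun f => ?_⟩
  obtain ⟨s, hs, c, hc⟩ := hL fun p i ω =>
    (f (fun i' => if ω i' then (p i').2 else (p i').1) i (p i).1,
      f (fun i' => if ω i' then (p i').2 else (p i').1) i (p i).2)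
  have H : ∀ (a b j : Fin D → Fin 3) (ω : Fin D → Bool), (∀ i, a i < b i) →
      (∀ i, (if ω i then b i else a i) = j i) → ∀ i,
      (f (fun i' => s i' (j i')) i (s i (a i)), f (fun i' => s i' (j i')) i (s i (b i))) =
        c i ω := by
    intro a b j ω hab hj i
    have e : (fun i' => s i' (j i')) = fun i' => if ω i' then s i' (b i') else s i' (a i') :=
      funext fun i' => by rw [← hj, apply_ite (s i')]
    rw [e, ← hc a b hab]
  have H1 := fun ω : Fin D → Bool => H (fun i => if ω i then 0 else 1) (fun i => if ω i then 1 else 2)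
    (fun _ => 1) ω (fun i => by cases ω i <;> decide) (fun i => by cases ω i <;> rfl)
  refine ⟨s, hs, fun i => f (fun i' => s i' 1) i (s i 0), fun i => f (fun i' => s i' 1) i (s i 2),
    fun j i k => ⟨fun hk => ?_, fun hk => ?_⟩⟩
  · have h0 : j i ≠ 0 := (Fin.pos_iff_ne_zero.1 ((Fin.zero_le k).trans_lt hk))
    have h1 := (H (fun i' => if i' = i then k else 0) (fun i' => if j i' = 0 then 1 else j i') j
      (fun i' => decide (j i' ≠ 0)) (fun i' => ?_) (fun i' => ?_) i).trans (H1 _ i).symm
    · simpa [h0] using congrArg Prod.fst h1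
    · by_cases h : i' = i
      · simpa [h, h0] using hk
      · by_cases h' : j i' = 0
        · simp [h, h']
        · simpa [h, h'] using Fin.pos_iff_ne_zero.2 h'
    · by_cases h : i' = i
      · simp [h, h0]
      · by_cases h' : j i' = 0 <;> simp [h, h']
  · have h0 : j i ≠ 2 := by omega
    have h1 := (H (fun i' => if j i' = 2 then 0 else j i') (fun i' => if i' = i then k else 2) j
      (fun i' => decide (j i' = 2)) (fun i' => ?_) (fun i' => ?_) i).trans (H1 _ i).symm
    · simpa [h0] using congrArg Prod.snd h1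
    · by_cases h : i' = i
      · simpa [h, h0] using hk
      · by_cases h' : j i' = 2
        · simp [h, h']
        · simp only [h, h', if_false]
          omega
    · by_cases h : i' = i
      · simp [h, h0]
      · by_cases h' : j i' = 2 <;> simp [h, h']

theorem goodSub_of (hR : RamseyStmt) : GoodSubStmt := by
  intro E _ _ D
  obtain ⟨L, hL⟩ := comb_Ramsey hR D
  refine ⟨L + 1, L.succ_pos, fun ι φ h e he => ?_⟩
  obtain ⟨s, hs, H⟩ := hL fun j i k =>
    SignType.sign (φ (e i k.castSucc) (vx φ fun i' => e i' (j i').castSucc))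
  exact ⟨fun i k => (s i k).castSucc, fun i k l hkl => hs i hkl, fun j => he _, H⟩

end Pool.Agent.MP_a2955b_co.Up
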