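import Pool.Agent.MP_a2955b_co.Up.Basic

set_option autoImplicit false

namespace Pool.Agent.MP_a2955b_co.Up

open Set Module

theorem sum_rpow_Rec {I : Type} (P : Finset I) (x : I → ℝ) (M e : ℝ) (he : 1 ≤ e) (hM : 0 ≤ M)
    (hx : ∀ p ∈ P, 0 ≤ x p) (hs : ∑ p ∈ P, x p ≤ M) : ∑ p ∈ P, x p ^ e ≤ M ^ e := by
  have hsplit : ∀ y : ℝ, 0 ≤ y → y ^ e = y * y ^ (e - 1) := by
    intro y hy
    have h1 : (1 : ℝ) + (e - 1) ≠ 0 := by linarith
    have := Real.rpow_add' hy h1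
    rw [Real.rpow_one] at this
    rw [← this]; congr 1; ring
  have hle : ∀ p ∈ P, x p ≤ M := fun p hp =>
    (Finset.single_le_sum hx hp).trans hs
  calc ∑ p ∈ P, x p ^ e ≤ ∑ p ∈ P, x p * M ^ (e - 1) := by
        refine Finset.sum_le_sum (fun p hp => ?_)
        rw [hsplit _ (hx p hp)]
        exact mul_le_mul_of_nonneg_left
          (Real.rpow_le_rpow (hx p hp) (hle p hp) (by linarith)) (hx p hp)
    _ = (∑ p ∈ P, x p) * M ^ (e - 1) := by rw [Finset.sum_mul]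
    _ ≤ M * M ^ (e - 1) := mul_le_mul_of_nonneg_right hs (Real.rpow_nonneg hM _)
    _ = M ^ e := (hsplit M hM).symm

theorem first_Rec (c s k D : ℕ) (e : ℝ) (hs : 1 ≤ s) (hk : 1 ≤ k)
    (he : (D : ℝ) + 2 ≤ 2 * e) (hc : c ^ 2 ≤ (s * k) ^ D) :
    (c : ℝ) * ((s : ℝ) + 1) ≤ 2 * (k : ℝ) ^ D * (s : ℝ) ^ e := by
  have hs1 : (1 : ℝ) ≤ s := by exact_mod_cast hs
  have hk1 : (1 : ℝ) ≤ k := by exact_mod_cast hk
  have hc' : (c : ℝ) ^ 2 ≤ ((s : ℝ) * k) ^ D := by exact_mod_cast hc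
  have hkD : (1 : ℝ) ≤ (k : ℝ) ^ D := one_le_pow₀ hk1
  have h1 : (s : ℝ) ^ (D + 2) ≤ ((s : ℝ) ^ e) ^ 2 := by
    rw [← Real.rpow_natCast (s : ℝ) (D + 2), ← Real.rpow_natCast ((s : ℝ) ^ e) 2,
      ← Real.rpow_mul (by linarith)]
    refine Real.rpow_le_rpow_of_exponent_le hs1 ?_
    push_cast; linarith
  have h2 : ((c : ℝ) * s) ^ 2 ≤ ((k : ℝ) ^ D * (s : ℝ) ^ e) ^ 2 := by
    calc ((c : ℝ) * s) ^ 2 = (c : ℝ) ^ 2 * (s : ℝ) ^ 2 := by ring
      _ ≤ ((s : ℝ) * k) ^ D * (s : ℝ) ^ 2 :=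
          mul_le_mul_of_nonneg_right hc' (by positivity)
      _ = (k : ℝ) ^ D * (s : ℝ) ^ (D + 2) := by rw [mul_pow]; ring
      _ ≤ ((k : ℝ) ^ D) ^ 2 * ((s : ℝ) ^ e) ^ 2 := by
          refine mul_le_mul ?_ h1 (by positivity) (by positivity)
          nlinarith
      _ = ((k : ℝ) ^ D * (s : ℝ) ^ e) ^ 2 := by ring
  have h3 : (c : ℝ) * s ≤ (k : ℝ) ^ D * (s : ℝ) ^ e :=
    (pow_le_pow_iff_left₀ (by positivity) (by positivity) two_ne_zero).1 h2
  have h4 : (0 : ℝ) ≤ c := by positivity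
  nlinarith

theorem second_Rec (c m s k D : ℕ) (e : ℝ) (hk : 1 ≤ k) (he : e ≤ D)
    (h : (c : ℝ) * (m : ℝ) ^ e ≤ 1 / (2 * (k : ℝ) ^ D) * ((s * k : ℕ) : ℝ) ^ e) :
    (c : ℝ) * (m : ℝ) ^ e ≤ (s : ℝ) ^ e / 2 := by
  have hk1 : (1 : ℝ) ≤ k := by exact_mod_cast hk
  have hkD : (0 : ℝ) < (k : ℝ) ^ D := by positivity
  have h1 : (k : ℝ) ^ e ≤ (k : ℝ) ^ D := by
    rw [← Real.rpow_natCast (k : ℝ) D]
    exact Real.rpow_le_rpow_of_exponent_le hk1 he
  have h2 : ((s * k : ℕ) : ℝ) ^ e = (s : ℝ) ^ e * (k : ℝ) ^ e := by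
    push_cast
    exact Real.mul_rpow (by positivity) (by positivity)
  have h3 : (0 : ℝ) ≤ (s : ℝ) ^ e := by positivity
  refine h.trans ?_
  rw [h2]
  calc 1 / (2 * (k : ℝ) ^ D) * ((s : ℝ) ^ e * (k : ℝ) ^ e)
      ≤ 1 / (2 * (k : ℝ) ^ D) * ((s : ℝ) ^ e * (k : ℝ) ^ D) :=
        mul_le_mul_of_nonneg_left (mul_le_mul_of_nonneg_left h1 h3) (by positivity)
    _ = (s : ℝ) ^ e / 2 := by field_simp

/-- Refinement of one cell met by few flats. -/
theorem cell_Rec (hF : FreeStmt) {E : Type} [NormedAddCommGroup E] [NormedSpace ℝ E]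
    [FiniteDimensional ℝ E] {k : ℕ} {κ : Type} (f : κ → Set (E × ℝ)) (ψ : κ → Af (E × ℝ))
    (φ h : κ → Fin k → Af E) (hconv : ∀ i, Convex ℝ (f i)) (hψ : ∀ i, (ψ i).linear ≠ 0)
    (hz : ∀ i, ∀ x ∈ f i, ψ i x = 0)
    (hfree : ∀ O : Set (E × ℝ), Convex ℝ O → ∀ i, (∀ l, Disjoint O (fl (φ i l) (h i l))) →
      (O ∩ f i).Nonempty → ∀ j, j ≠ i → ∀ x ∈ O ∩ f j, ψ i x ≠ 0)
    (s : Finset κ) (A e : ℝ) (hA : 0 ≤ A) (he : 1 ≤ e) (m : ℕ)
    (IH : ∀ s' : Finset κ, s'.card ≤ m → ∀ σ : Set (E × ℝ), OP σ → Bornology.IsBounded σ →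
      ∃ C : Finset (Set (E × ℝ)), Part σ C ∧ (∀ O ∈ C, ∀ i ∈ s', Disjoint O (f i)) ∧
        (C.card : ℝ) ≤ 1 + A * (s'.card : ℝ) ^ e)
    (O : Set (E × ℝ)) (hO : OP O) (hb : Bornology.IsBounded O)
    (hm : {i | i ∈ s ∧ ∃ l, ¬ Disjoint O (fl (φ i l) (h i l))}.ncard ≤ m) :
    ∃ C : Finset (Set (E × ℝ)), Part O C ∧ (C.card : ℝ) ≤ (s.card : ℝ) + 1 + A * (m : ℝ) ^ e ∧
      ∀ O' ∈ C, ∀ i ∈ s, Disjoint O' (f i) := by
  classical
  set Nn : Finset κ := s.filter (fun i => ∃ l, ¬ Disjoint O (fl (φ i l) (h i l))) with hNn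
  have hNm : Nn.card ≤ m := by
    rw [← Set.ncard_coe_finset]
    refine le_of_eq_of_le ?_ hm
    congr 1
    ext i
    simp [hNn]
  set J : Finset κ := s.filter (fun i => (∀ l, Disjoint O (fl (φ i l) (h i l))) ∧
    (O ∩ f i).Nonempty) with hJ
  obtain ⟨P, hP, hPc, hPJ, hPu⟩ := hF (E × ℝ) κ f ψ hconv hψ hz O hO J (by
    intro i hi j hj x hx
    obtain ⟨_, h1, h2⟩ := Finset.mem_filter.1 hi
    exact hfree O hO.convex i h1 h2 j hj x hx)
  let sp : Set (E × ℝ) → Finset κ := fun p => Nn.filter (fun j => (p ∩ f j).Nonempty)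
  have hsum : ∑ p ∈ P, (sp p).card ≤ m := by
    rw [← Finset.card_biUnion]
    · refine (Finset.card_le_card ?_).trans hNm
      intro j hj
      obtain ⟨p, _, hp⟩ := Finset.mem_biUnion.1 hj
      exact (Finset.mem_filter.1 hp).1
    · intro p hp p' hp' hne
      refine Finset.disjoint_left.2 ?_
      intro j h1 h2
      obtain ⟨hj, h3⟩ := Finset.mem_filter.1 h1
      obtain ⟨_, h4⟩ := Finset.mem_filter.1 h2
      refine hne (hPu j ?_ p hp p' hp' h3 h4)
      intro hjJ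
      obtain ⟨_, l, hl⟩ := Finset.mem_filter.1 hj
      exact hl ((Finset.mem_filter.1 hjJ).2.1 l)
  obtain ⟨C, hC, hCc, hCQ⟩ := hP.bind_real (fun p => 1 + A * ((sp p).card : ℝ) ^ e)
    (fun O' => ∀ i ∈ s, Disjoint O' (f i)) (by
      intro p hp
      have hle : (sp p).card ≤ m := (Finset.card_filter_le _ _).trans hNm
      obtain ⟨Dp, h1, h2, h3⟩ := IH (sp p) hle p (hP.op p hp) (hb.subset (hP.sub p hp))
      refine ⟨Dp, h1, h3, fun O' hO' i hi => ?_⟩
      have hsub : O' ⊆ p := h1.sub O' hO'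
      by_cases hN : i ∈ Nn
      · by_cases hne : (p ∩ f i).Nonempty
        · exact h2 O' hO' i (Finset.mem_filter.2 ⟨hN, hne⟩)
        · rw [Set.not_nonempty_iff_eq_empty] at hne
          exact (Set.disjoint_iff_inter_eq_empty.2 hne).mono_left hsub
      · have hall : ∀ l, Disjoint O (fl (φ i l) (h i l)) := by
          intro l
          by_contra hl
          exact hN (Finset.mem_filter.2 ⟨hi, l, hl⟩)
        by_cases hne : (O ∩ f i).Nonempty
        · exact (hPJ p hp i (Finset.mem_filter.2 ⟨hi, hall, hne⟩)).mono_left hsub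
        · rw [Set.not_nonempty_iff_eq_empty] at hne
          exact (Set.disjoint_iff_inter_eq_empty.2 hne).mono_left (hsub.trans (hP.sub p hp)))
  refine ⟨C, hC, hCc.trans ?_, hCQ⟩
  rw [Finset.sum_add_distrib, ← Finset.mul_sum, Finset.sum_const, nsmul_eq_mul, mul_one]
  have h1 : (P.card : ℝ) ≤ (s.card : ℝ) + 1 := by
    have : P.card ≤ s.card + 1 := hPc.trans (Nat.succ_le_succ (Finset.card_filter_le _ _))
    exact_mod_cast this
  have h2 : ∑ p ∈ P, ((sp p).card : ℝ) ^ e ≤ (m : ℝ) ^ e := by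
    refine sum_rpow_Rec P (fun p => ((sp p).card : ℝ)) m e he (by positivity)
      (fun p _ => by positivity) ?_
    exact_mod_cast hsum
  have h3 := mul_le_mul_of_nonneg_left h2 hA
  linarith

theorem rec_of (hA : ArrStmt) (hF : FreeStmt) (hS : StepStmt) : RecStmt := by
  classical
  intro E _ _ _ n hn
  obtain ⟨δ, hδ0, hδ1, hstep⟩ := hS E n hn (2 * finrank ℝ E)
  refine ⟨δ, hδ0, hδ1, fun k hk => ?_⟩
  have hk1 : (1 : ℝ) ≤ k := by exact_mod_cast hk
  obtain ⟨m0, hm0⟩ := hstep (1 / (2 * (k : ℝ) ^ (n + 3))) (by positivity)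
  set e : ℝ := ((n + 3 : ℕ) : ℝ) - δ with he
  have hn0 : (0 : ℝ) ≤ n := by positivity
  have he1 : 1 ≤ e := by rw [he]; push_cast; linarith
  have he2 : ((n + 3 : ℕ) : ℝ) + 2 ≤ 2 * e := by rw [he]; push_cast; linarith
  have he3 : e ≤ ((n + 3 : ℕ) : ℝ) := by rw [he]; linarith
  set A : ℝ := max (4 * (k : ℝ) ^ (n + 3)) (((m0 : ℝ) + 1) ^ (n + 5)) with hAdef
  have hA1 : 4 * (k : ℝ) ^ (n + 3) ≤ A := le_max_left _ _
  have hA2 : ((m0 : ℝ) + 1) ^ (n + 5) ≤ A := le_max_right _ _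
  have hA0 : 0 ≤ A := le_trans (by positivity) hA1
  refine ⟨A, hA0, fun κ f ψ φ h hconv hψ hz hφ hfree => ?_⟩
  have key : ∀ (N : ℕ) (s : Finset κ), s.card = N → ∀ σ : Set (E × ℝ), OP σ →
      Bornology.IsBounded σ → ∃ C : Finset (Set (E × ℝ)), Part σ C ∧
        (∀ O ∈ C, ∀ i ∈ s, Disjoint O (f i)) ∧ (C.card : ℝ) ≤ 1 + A * (s.card : ℝ) ^ e := by
    intro N
    induction N using Nat.strong_induction_on with
    | _ N IH =>
    intro s hsN σ hσ hb
    by_cases hsmall : s.card * k < m0 ∨ s.card = 0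
    · obtain ⟨C, hC, hCc, hCz, -⟩ := hA (E × ℝ) σ hσ (s.image ψ) (by
        intro g hg
        obtain ⟨i, _, rfl⟩ := Finset.mem_image.1 hg
        exact hψ i)
      have hfr : finrank ℝ (E × ℝ) + 1 = n + 5 := by
        rw [Module.finrank_prod, hn, Module.finrank_self]
      rw [hfr] at hCc
      have hC2 : C.card ≤ (s.card + 1) ^ (n + 5) :=
        hCc.trans (Nat.pow_le_pow_left (Nat.succ_le_succ Finset.card_image_le) _)
      refine ⟨C, hC, fun O hO i hi => ?_, ?_⟩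
      · refine Set.disjoint_left.2 (fun x hx hx' => ?_)
        exact hCz O hO (ψ i) (Finset.mem_image_of_mem _ hi) x hx (hz i x hx')
      · have hnn : (0 : ℝ) ≤ A * (s.card : ℝ) ^ e := by positivity
        by_cases h0 : s.card = 0
        · rw [h0] at hC2
          have : (C.card : ℝ) ≤ 1 := by simpa using (show (C.card : ℝ) ≤ ((1 : ℕ) : ℝ) by
            exact_mod_cast (by simpa using hC2))
          linarith
        · have hlt : s.card * k < m0 := hsmall.resolve_right h0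
          have hsm : s.card ≤ m0 := le_trans (Nat.le_mul_of_pos_right _ hk) hlt.le
          have h1 : (C.card : ℝ) ≤ ((m0 : ℝ) + 1) ^ (n + 5) := by
            have : C.card ≤ (m0 + 1) ^ (n + 5) :=
              hC2.trans (Nat.pow_le_pow_left (Nat.succ_le_succ hsm) _)
            exact_mod_cast this
          have h2 : (1 : ℝ) ≤ (s.card : ℝ) ^ e :=
            Real.one_le_rpow (by exact_mod_cast Nat.one_le_iff_ne_zero.2 h0) (by linarith)
          have h3 : A * 1 ≤ A * (s.card : ℝ) ^ e := mul_le_mul_of_nonneg_left h2 hA0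
          linarith
    · push Not at hsmall
      obtain ⟨hbig, hs0⟩ := hsmall
      have hs1 : 1 ≤ s.card := Nat.one_le_iff_ne_zero.2 hs0
      have hcard : Fintype.card ({i // i ∈ s} × Fin k) = s.card * k := by simp
      have hb1 : Bornology.IsBounded (Prod.fst '' σ) := hb.image_fst
      obtain ⟨τ, hτ, hστ⟩ := exists_cell hb1
      obtain ⟨C, m, hC, hCm, hCb, hCs⟩ := hm0 ({i // i ∈ s} × Fin k)
        (fun x => φ x.1.1 x.2) (fun x => h x.1.1 x.2) (fun x => hφ _ _)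
        (by rw [hcard]; exact hbig) τ hτ
      rw [hcard] at hCb hCs
      obtain ⟨C', hC', hC'c, hC'm⟩ := hC.inter hσ (by
        intro z hz'
        exact ⟨hστ (mem_image_of_mem _ hz'), mem_univ _⟩)
      have hse : (0 : ℝ) < (s.card : ℝ) ^ e :=
        Real.rpow_pos_of_pos (by exact_mod_cast hs1) _
      by_cases hemp : C'.card = 0
      · refine ⟨C', hC', ?_, ?_⟩
        · rw [Finset.card_eq_zero.1 hemp]; simp
        · rw [hemp]
          have : (0 : ℝ) ≤ A * (s.card : ℝ) ^ e := by positivity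
          push_cast; linarith
      have hc1 : (1 : ℝ) ≤ C.card := by
        have : 1 ≤ C.card := le_trans (Nat.one_le_iff_ne_zero.2 hemp) hC'c
        exact_mod_cast this
      have h2 := second_Rec C.card m s.card k (n + 3) e hk he3 hCb
      have h1 := first_Rec C.card s.card k (n + 3) e hs1 hk he2 hCs
      have hme : (0 : ℝ) ≤ (m : ℝ) ^ e := by positivity
      have hms : m < s.card := by
        by_contra hge
        push Not at hge
        have h3 : (s.card : ℝ) ^ e ≤ (m : ℝ) ^ e :=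
          Real.rpow_le_rpow (by positivity) (by exact_mod_cast hge) (by linarith)
        nlinarith
      obtain ⟨C'', h3, h4, h5⟩ := hC'.bind_real (fun _ => (s.card : ℝ) + 1 + A * (m : ℝ) ^ e)
        (fun O' => ∀ i ∈ s, Disjoint O' (f i)) (by
          intro O' hO'
          obtain ⟨O, hO, hOO⟩ := hC'm O' hO'
          refine cell_Rec hF f ψ φ h hconv hψ hz hfree s A e hA0 he1 m
            (fun s' hs' => IH s'.card (by omega) s' rfl) O' (hC'.op O' hO')
            (hb.subset (hC'.sub O' hO')) ?_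
          refine le_trans ?_ (hCm O hO)
          refine le_trans (Set.ncard_le_ncard (t := (fun x : {i // i ∈ s} × Fin k => x.1.1) ''
            {x | (O ∩ fl (φ x.1.1 x.2) (h x.1.1 x.2)).Nonempty}) ?_
            ((Set.toFinite _).image _)) (Set.ncard_image_le (Set.toFinite _))
          rintro i ⟨hi, l, hl⟩
          refine ⟨(⟨i, hi⟩, l), ?_, rfl⟩
          obtain ⟨z, hz1, hz2⟩ := Set.not_disjoint_iff.1 hl
          rw [hOO] at hz1
          exact ⟨z, hz1.1, hz2⟩)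
      refine ⟨C'', h3, h5, h4.trans ?_⟩
      rw [Finset.sum_const, nsmul_eq_mul]
      have h6 : (C'.card : ℝ) ≤ C.card := by exact_mod_cast hC'c
      have h7 : (0 : ℝ) ≤ (s.card : ℝ) + 1 + A * (m : ℝ) ^ e := by positivity
      have h8 := mul_le_mul_of_nonneg_right h6 h7
      have h9 := mul_le_mul_of_nonneg_left h2 hA0
      have h10 := mul_le_mul_of_nonneg_right hA1 hse.le
      nlinarith
  intro s σ hσ hb
  exact key s.card s rfl σ hσ hb

end Pool.Agent.MP_a2955b_co.Up
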