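import Pool.Agent.MP_a2955b_co.Up.Stmt
set_option autoImplicit false
namespace Pool.Agent.MP_a2955b_co.Up
open Set Module

theorem pw_Sample {m s k lam : ℕ} (hm : 0 < m) (hs : s ≤ m) (h : lam * m ≤ s * k) :
    (m - s) ^ k * 2 ^ lam ≤ m ^ k := by
  have hm' : (0 : ℝ) < m := by exact_mod_cast hm
  have hs' : (s : ℝ) ≤ m := by exact_mod_cast hs
  have h' : (lam : ℝ) * m ≤ s * k := by exact_mod_cast h
  have h1 : (m : ℝ) - s ≤ m * Real.exp (-(s / m)) := by
    have h2 := mul_le_mul_of_nonneg_left (Real.one_sub_le_exp_neg ((s : ℝ) / m)) hm'.le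
    rwa [mul_sub, mul_one, mul_div_cancel₀ _ hm'.ne'] at h2
  have h3 : (2 : ℝ) ≤ Real.exp 1 := by
    have := Real.add_one_le_exp (1 : ℝ)
    linarith
  have h4 : Real.exp (-((s : ℝ) / m)) ^ k * Real.exp 1 ^ lam ≤ 1 := by
    rw [← Real.exp_nat_mul, ← Real.exp_nat_mul, ← Real.exp_add, Real.exp_le_one_iff]
    have h5 : (lam : ℝ) ≤ s * k / m := (le_div_iff₀ hm').2 h'
    have h6 : (k : ℝ) * -((s : ℝ) / m) = -(s * k / m) := by ring
    linarith
  have h7 : ((m : ℝ) - s) ^ k * 2 ^ lam ≤ (m : ℝ) ^ k := by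
    calc ((m : ℝ) - s) ^ k * 2 ^ lam ≤ (m * Real.exp (-(s / m))) ^ k * Real.exp 1 ^ lam := by
          gcongr
      _ = (m : ℝ) ^ k * (Real.exp (-((s : ℝ) / m)) ^ k * Real.exp 1 ^ lam) := by
          rw [mul_pow, mul_assoc]
      _ ≤ (m : ℝ) ^ k * 1 := by gcongr
      _ = (m : ℝ) ^ k := mul_one _
  rw [← Nat.cast_sub hs] at h7
  exact_mod_cast h7

open Classical in
theorem fix_Sample {ι : Type} [Fintype ι] {D k : ℕ} {x : Fin D → ι} (hx : Function.Injective x)
    (p : Fin D → Fin k) :
    (Finset.univ.filter fun r : Fin k → ι => ∀ i, r (p i) = x i).card * Fintype.card ι ^ D ≤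
      Fintype.card ι ^ k := by
  have h1 : Fintype.card ι ^ D = (Finset.univ : Finset (Fin D → ι)).card := by simp
  have h2 : Fintype.card ι ^ k = (Finset.univ : Finset (Fin k → ι)).card := by simp
  rw [h1, h2, ← Finset.card_product]
  refine Finset.card_le_card_of_injOn (fun q => Function.extend p q.2 q.1)
    (fun _ _ => Finset.mem_coe.2 (Finset.mem_univ _)) ?_
  rintro ⟨r, y⟩ ha ⟨r', y'⟩ hb h
  have hr : ∀ i, r (p i) = x i :=
    (Finset.mem_filter.1 (Finset.mem_product.1 (Finset.mem_coe.1 ha)).1).2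
  have hr' : ∀ i, r' (p i) = x i :=
    (Finset.mem_filter.1 (Finset.mem_product.1 (Finset.mem_coe.1 hb)).1).2
  have hp : Function.Injective p := fun i j e => hx (by rw [← hr, ← hr, e])
  refine Prod.ext (funext fun j => ?_) (funext fun i => ?_)
  · by_cases hj : ∃ i, p i = j
    · obtain ⟨i, rfl⟩ := hj
      exact (hr i).trans (hr' i).symm
    · have h3 := congrFun h j
      simpa only [Function.extend_apply' _ _ _ hj] using h3
  · have h3 := congrFun h (p i)
    simpa only [hp.extend_apply] using h3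

open Classical in
theorem cov_Sample {ι : Type} [Fintype ι] {D : ℕ} {x : Fin D → ι} (hx : Function.Injective x)
    (k : ℕ) :
    (Finset.univ.filter fun r : Fin k → ι => ∀ i, x i ∈ Finset.univ.image r).card *
      Fintype.card ι ^ D ≤ k ^ D * Fintype.card ι ^ k := by
  have h1 : (Finset.univ.filter fun r : Fin k → ι => ∀ i, x i ∈ Finset.univ.image r) ⊆
      Finset.univ.biUnion fun p : Fin D → Fin k =>
        Finset.univ.filter fun r : Fin k → ι => ∀ i, r (p i) = x i := by
    intro r hr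
    have h2 := (Finset.mem_filter.1 hr).2
    simp only [Finset.mem_image, Finset.mem_univ, true_and] at h2
    choose p hp using h2
    exact Finset.mem_biUnion.2 ⟨p, Finset.mem_univ _, Finset.mem_filter.2 ⟨Finset.mem_univ _, hp⟩⟩
  refine (Nat.mul_le_mul_right _ ((Finset.card_le_card h1).trans Finset.card_biUnion_le)).trans ?_
  rw [Finset.sum_mul]
  refine (Finset.sum_le_sum fun p _ => fix_Sample hx p).trans (le_of_eq ?_)
  simp

theorem sample : SampleStmt := by
  classical
  intro ι _ D Rg X hX k t lam h1 h2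
  rcases Nat.eq_zero_or_pos (Fintype.card ι) with hm | hm
  · have := Fintype.card_eq_zero_iff.1 hm
    refine ⟨∅, by simp, fun r _ _ => by simp [Set.eq_empty_of_isEmpty r], ?_⟩
    rcases Nat.eq_zero_or_pos D with rfl | hD
    · have h3 : {x | x ∈ X ∧ ∀ i, x i ∈ (∅ : Finset ι)}.ncard ≤ X.ncard :=
        Set.ncard_le_ncard fun _ h => h.1
      simp only [pow_zero, mul_one]
      omega
    · rw [hm, zero_pow hD.ne', mul_zero]
      exact Nat.zero_le _
  have hM : 0 < Fintype.card ι ^ k := pow_pos hm k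
  let c : (Fin k → ι) → ℕ := fun r =>
    (X.toFinset.filter fun x => ∀ i, x i ∈ Finset.univ.image r).card
  let B₁ : Finset (Fin k → ι) := (Rg.toFinset.filter fun S => t < S.ncard).biUnion fun S =>
    Fintype.piFinset fun _ => S.toFinsetᶜ
  let B₂ : Finset (Fin k → ι) := Finset.univ.filter fun r =>
    2 * (k ^ D * X.ncard) + 1 ≤ c r * Fintype.card ι ^ D
  have a1 : B₁.card * 2 ^ lam ≤ Rg.ncard * Fintype.card ι ^ k := by
    refine (Nat.mul_le_mul_right _ Finset.card_biUnion_le).trans ?_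
    rw [Finset.sum_mul]
    refine (Finset.sum_le_card_nsmul _ _ (Fintype.card ι ^ k) fun S hS => ?_).trans ?_
    · have h3 := (Finset.mem_filter.1 hS).2
      rw [Fintype.card_piFinset, Finset.prod_const, Finset.card_univ, Fintype.card_fin,
        Finset.card_compl]
      rw [Set.ncard_eq_toFinset_card'] at h3
      exact pw_Sample hm (Finset.card_le_univ _) (h2.trans (Nat.mul_le_mul_right _ h3.le))
    · rw [smul_eq_mul, Set.ncard_eq_toFinset_card']
      exact Nat.mul_le_mul_right _ (Finset.card_filter_le _ _)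
  have a2 : 2 * B₁.card < Fintype.card ι ^ k := by
    refine Nat.lt_of_mul_lt_mul_right (a := 2 ^ lam) ?_
    calc 2 * B₁.card * 2 ^ lam ≤ 2 * Rg.ncard * Fintype.card ι ^ k := by
          rw [mul_assoc, mul_assoc]
          exact Nat.mul_le_mul_left _ a1
      _ < 2 ^ lam * Fintype.card ι ^ k := Nat.mul_lt_mul_of_pos_right h1 hM
      _ = _ := mul_comm _ _
  have a3 : ∑ r, c r * Fintype.card ι ^ D ≤ k ^ D * X.ncard * Fintype.card ι ^ k := by
    have h3 : ∑ r, c r = ∑ x ∈ X.toFinset,
        (Finset.univ.filter fun r : Fin k → ι => ∀ i, x i ∈ Finset.univ.image r).card := by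
      simp only [c, Finset.card_filter]
      exact Finset.sum_comm
    rw [← Finset.sum_mul, h3, Finset.sum_mul]
    refine (Finset.sum_le_card_nsmul _ _ (k ^ D * Fintype.card ι ^ k) fun x hx => ?_).trans
      (le_of_eq ?_)
    · convert cov_Sample (hX x (Set.mem_toFinset.1 hx)) k
    · rw [smul_eq_mul, Set.ncard_eq_toFinset_card']
      ring
  have a4 : B₂.card * (2 * (k ^ D * X.ncard) + 1) ≤ k ^ D * X.ncard * Fintype.card ι ^ k := by
    refine le_trans ?_ ((Finset.sum_le_sum_of_subset (Finset.subset_univ B₂)).trans a3)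
    rw [← smul_eq_mul]
    exact Finset.card_nsmul_le_sum _ _ _ fun r hr => (Finset.mem_filter.1 hr).2
  have a5 : 2 * B₂.card ≤ Fintype.card ι ^ k := by
    by_contra h3
    have h4 : Fintype.card ι ^ k + 1 ≤ 2 * B₂.card := by omega
    have h5 := Nat.mul_le_mul_left (k ^ D * X.ncard) h4
    have h6 : 0 < B₂.card := by omega
    generalize k ^ D * X.ncard = A at a4 h5
    generalize Fintype.card ι ^ k = M at a4 h5
    generalize B₂.card = b at a4 h5 h6
    nlinarith
  have a6 : (B₁ ∪ B₂).card < (Finset.univ : Finset (Fin k → ι)).card := by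
    have h3 := Finset.card_union_le B₁ B₂
    rw [Finset.card_univ, Fintype.card_fun, Fintype.card_fin]
    omega
  obtain ⟨r, -, hr⟩ := Finset.exists_mem_notMem_of_card_lt_card a6
  rw [Finset.mem_union, not_or] at hr
  refine ⟨Finset.univ.image r, Finset.card_image_le.trans (by simp), fun S hS hd => ?_, ?_⟩
  · by_contra h3
    refine hr.1 (Finset.mem_biUnion.2 ⟨S, Finset.mem_filter.2
      ⟨Set.mem_toFinset.2 hS, not_le.1 h3⟩, Fintype.mem_piFinset.2 fun j => ?_⟩)
    rw [Finset.mem_compl, Set.mem_toFinset]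
    exact fun h => Set.disjoint_left.1 hd h
      (Finset.mem_coe.2 (Finset.mem_image_of_mem r (Finset.mem_univ j)))
  · have h3 : ¬ 2 * (k ^ D * X.ncard) + 1 ≤ c r * Fintype.card ι ^ D := fun h =>
      hr.2 (Finset.mem_filter.2 ⟨Finset.mem_univ r, h⟩)
    have h4 : {x | x ∈ X ∧ ∀ i, x i ∈ Finset.univ.image r}.ncard = c r := by
      refine Eq.trans ?_ (Set.ncard_coe_finset _)
      congr 1
      ext x
      simp
    rw [h4, mul_assoc]
    omega

end Pool.Agent.MP_a2955b_co.Up
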