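import Pool.Agent.MP_a2955b_co.Up.Stmt

set_option autoImplicit false

namespace Pool.Agent.MP_a2955b_co.Up

open Set Module

theorem sum_choose_le_Sgn (m e : ℕ) : ∑ k ∈ Finset.range (e + 1), m.choose k ≤ (m + 1) ^ e := by
  induction e with
  | zero => simp
  | succ e ih =>
    rw [Finset.sum_range_succ]
    have h1 : m.choose (e + 1) ≤ m ^ (e + 1) := Nat.choose_le_pow m (e + 1)
    have h2 : m ^ e ≤ (m + 1) ^ e := Nat.pow_le_pow_left (Nat.le_succ m) e
    calc _ ≤ (m + 1) ^ e + m ^ e * m := add_le_add ih (h1.trans (pow_succ m e).le)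
      _ ≤ (m + 1) ^ e + (m + 1) ^ e * m := by gcongr
      _ = (m + 1) ^ (e + 1) := by ring

theorem dep_Sgn {E : Type} [NormedAddCommGroup E] [NormedSpace ℝ E] [FiniteDimensional ℝ E]
    {ι : Type} (φ : ι → Af E) (T : Finset ι) (hT : finrank ℝ E + 1 < T.card) :
    ∃ c : T → ℝ, (∀ x, ∑ i, c i * φ i x = 0) ∧ ∃ i, 0 < c i := by
  have hdep : ¬ LinearIndependent ℝ fun i : T => (((φ i).linear, φ i 0) : Dual ℝ E × ℝ) := by
    intro h
    have := h.fintype_card_le_finrank
    rw [Fintype.card_coe, finrank_prod, Subspace.dual_finrank_eq, finrank_self] at this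
    omega
  obtain ⟨c, hc, i, hi⟩ := Fintype.not_linearIndependent_iff.1 hdep
  have hz : ∀ x, ∑ i, c i * φ i x = 0 := by
    intro x
    have h1 := congrArg (fun z : Dual ℝ E × ℝ => z.1 x + z.2) hc
    simp only [Prod.fst_sum, Prod.snd_sum, Prod.smul_mk, LinearMap.sum_apply, LinearMap.smul_apply,
      smul_eq_mul, Prod.fst_zero, Prod.snd_zero, LinearMap.zero_apply, add_zero] at h1
    rw [← h1, ← Finset.sum_add_distrib]
    refine Finset.sum_congr rfl fun i _ => ?_
    have h2 := (φ i).map_vadd 0 x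
    rw [vadd_eq_add, add_zero, vadd_eq_add] at h2
    rw [h2, mul_add]
  rcases lt_or_gt_of_ne hi with h | h
  · refine ⟨fun i => -c i, fun x => ?_, i, neg_pos.2 h⟩
    simp only [neg_mul, Finset.sum_neg_distrib, hz x, neg_zero]
  · exact ⟨c, hz, i, h⟩

theorem sgn : SgnStmt := by
  classical
  intro E _ _ _ ι _ φ
  set A : Finset (Finset ι) :=
    Finset.univ.filter fun s => ∃ x, s = Finset.univ.filter fun i => 0 < φ i x with hA
  have h1 : {P : Set ι | ∃ x, P = {i | 0 < φ i x}} = (fun s : Finset ι => (s : Set ι)) '' A := by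
    ext P
    constructor
    · rintro ⟨x, rfl⟩
      exact ⟨Finset.univ.filter fun i => 0 < φ i x,
        Finset.mem_coe.2 (Finset.mem_filter.2 ⟨Finset.mem_univ _, x, rfl⟩), by ext i; simp⟩
    · rintro ⟨s, hs, rfl⟩
      obtain ⟨x, rfl⟩ := (Finset.mem_filter.1 (Finset.mem_coe.1 hs)).2
      exact ⟨x, by ext i; simp⟩
  have h2 : A.vcDim ≤ finrank ℝ E + 1 := by
    refine Finset.sup_le fun T hT => ?_
    rw [Finset.mem_shatterer] at hT
    by_contra hc
    obtain ⟨c, hz, i₀, hi₀⟩ := dep_Sgn φ T (not_le.1 hc)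
    obtain ⟨u, hu, e⟩ := hT (t := T.filter fun i => ∃ h : i ∈ T, 0 < c ⟨i, h⟩)
      (Finset.filter_subset _ _)
    obtain ⟨x, rfl⟩ := (Finset.mem_filter.1 hu).2
    have hiff : ∀ i : T, 0 < φ i x ↔ 0 < c i := by
      intro i
      have := Finset.ext_iff.1 e i
      simp only [Finset.mem_inter, Finset.mem_filter, Finset.mem_univ, true_and, i.2,
        exists_true_left] at this
      exact this
    refine absurd (hz x) (ne_of_gt (Finset.sum_pos' (fun i _ => ?_)
      ⟨i₀, Finset.mem_univ _, mul_pos hi₀ ((hiff i₀).2 hi₀)⟩))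
    by_cases h : 0 < c i
    · exact (mul_pos h ((hiff i).2 h)).le
    · exact mul_nonneg_of_nonpos_of_nonpos (not_lt.1 h) (not_lt.1 fun e => h ((hiff i).1 e))
  rw [h1, ncard_image_of_injective _ Finset.coe_injective, ncard_coe_finset]
  refine (Finset.card_le_card_shatterer A).trans (Finset.card_shatterer_le_sum_vcDim.trans ?_)
  refine le_trans (Finset.sum_le_sum_of_subset fun k hk => ?_) (sum_choose_le_Sgn _ _)
  rw [Finset.mem_Iic] at hk
  rw [Finset.mem_range]
  omega

end Pool.Agent.MP_a2955b_co.Up
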