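import Pool.Agent.MP_a2955b_co.Up.Stmt

set_option autoImplicit false

namespace Pool.Agent.MP_a2955b_co.Up

open Set Module

section

variable {E : Type} [NormedAddCommGroup E] [NormedSpace ℝ E] {D : ℕ}

theorem comb_Simp {ι : Type} [Fintype ι] (g : Af E) {μ : ι → ℝ} (hμ : ∑ l, μ l = 1) (p : ι → E) :
    g (∑ l, μ l • p l) = ∑ l, μ l * g (p l) := by
  have hd : ∀ x, g x = g.linear x + g 0 := fun x => by simpa using g.map_vadd 0 x
  rw [hd, map_sum, Finset.sum_congr rfl fun l _ => congrArg (μ l * ·) (hd (p l))]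
  simp only [mul_add, Finset.sum_add_distrib, ← Finset.sum_mul, hμ, one_mul, map_smul, smul_eq_mul]

theorem mem_Simp (b : AffineBasis (Fin (D + 1)) ℝ E) (x : E) : x ∈ Simp b ↔
    ∃ μ : Fin (D + 1) → ℝ, (∀ l, 0 < μ l) ∧ ∑ l, μ l = 1 ∧ x = ∑ l, μ l • b l := by
  constructor
  · intro h
    exact ⟨fun l => b.coord l x, h, b.sum_coord_apply_eq_one x,
      (b.linear_combination_coord_eq_self x).symm⟩
  · rintro ⟨μ, h1, h2, rfl⟩ l
    rw [comb_Simp _ h2]
    simpa [b.coord_apply] using h1 l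

theorem eq_Simp [DecidableEq (Af E)] (b : AffineBasis (Fin (D + 1)) ℝ E) :
    Simp b = {x | ∀ g ∈ Finset.univ.image b.coord, 0 < g x} := by
  ext x
  simp [Simp]

theorem zero_Simp (b : AffineBasis (Fin (D + 1)) ℝ E) (g : Af E) {c : E} (hc : c ∈ Simp b)
    (h : 0 < g c) {l : Fin (D + 1)} (hl : g (b l) < 0) : ∃ x ∈ Simp b, g x = 0 := by
  have h0 : 0 < g c - g (b l) := by linarith
  have h1 : g c / (g c - g (b l)) + -g (b l) / (g c - g (b l)) = 1 := by
    rw [← add_div, ← sub_eq_add_neg, div_self h0.ne']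
  refine ⟨(g c / (g c - g (b l))) • b l + (-g (b l) / (g c - g (b l))) • c, fun m => ?_, ?_⟩
  · rw [Convex.combo_affine_apply h1, smul_eq_mul, smul_eq_mul]
    refine add_pos_of_nonneg_of_pos (mul_nonneg (div_pos h h0).le ?_)
      (mul_pos (div_pos (neg_pos.2 hl) h0) (hc m))
    rw [b.coord_apply]
    split_ifs
    · exact zero_le_one
    · exact le_rfl
  · rw [Convex.combo_affine_apply h1, smul_eq_mul, smul_eq_mul]
    ring

end

theorem simp_facts : SimpStmt := by
  classical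
  intro E _ _ _ D b
  refine ⟨fun hD => ⟨?_, Finset.univ.image b.coord, ?_, ?_, eq_Simp b⟩, ⟨_, eq_Simp b⟩,
    mem_Simp b, fun g hg ⟨x, hx, h0⟩ => ?_, fun g hg l l' ⟨h1, h2⟩ => ?_⟩
  · refine (isBounded_convexHull.2 (finite_range b).isBounded).subset fun x hx => ?_
    rw [b.convexHull_eq_nonneg_coord]
    exact fun l => (hx l).le
  · exact Finset.card_image_le.trans (by simp)
  · intro g hg h
    obtain ⟨l, -, rfl⟩ := Finset.mem_image.1 hg
    have : Nontrivial (Fin (D + 1)) := Fin.nontrivial_iff_two_le.2 (by omega)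
    obtain ⟨l', hl⟩ := exists_ne l
    have h1 := (b.coord l).linearMap_vsub (b l) (b l')
    rw [h, b.coord_apply_eq, b.coord_apply_ne hl.symm] at h1
    simp at h1
  · obtain ⟨μ, h1, h2, rfl⟩ := (mem_Simp b x).1 hx
    rw [comb_Simp g h2] at h0
    have h3 : ¬∀ l, g (b l) = 0 := fun h => hg (LinearMap.ext fun v => by
      have h4 : ∀ y, g y = 0 := fun y => by
        rw [← b.linear_combination_coord_eq_self y, comb_Simp g (b.sum_coord_apply_eq_one y)]
        simp [h]
      have h5 := g.map_vadd 0 v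
      rw [h4, h4] at h5
      simpa using h5.symm)
    have h4 : ∃ l, 0 < g (b l) := by
      by_contra h
      refine h3 fun l => ?_
      have h5 := (Finset.sum_eq_zero_iff_of_nonpos fun l _ =>
        mul_nonpos_of_nonneg_of_nonpos (h1 l).le (not_lt.1 fun h' => h ⟨l, h'⟩)).1 h0 l
        (Finset.mem_univ l)
      exact (mul_eq_zero.1 h5).resolve_left (h1 l).ne'
    have h5 : ∃ l, g (b l) < 0 := by
      by_contra h
      refine h3 fun l => ?_
      have h5 := (Finset.sum_eq_zero_iff_of_nonneg fun l _ =>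
        mul_nonneg (h1 l).le (not_lt.1 fun h' => h ⟨l, h'⟩)).1 h0 l (Finset.mem_univ l)
      exact (mul_eq_zero.1 h5).resolve_left (h1 l).ne'
    obtain ⟨l, hl⟩ := h4
    obtain ⟨l', hl'⟩ := h5
    exact ⟨l, l', hl, hl'⟩
  · have hD : (0 : ℝ) < (D + 1 : ℕ) := Nat.cast_pos.2 D.succ_pos
    obtain ⟨c, hc⟩ : (Simp b).Nonempty :=
      ⟨_, (mem_Simp b _).2 ⟨fun _ => ((D + 1 : ℕ) : ℝ)⁻¹, fun _ => inv_pos.2 hD, by
        rw [Finset.sum_const, Finset.card_univ, Fintype.card_fin, nsmul_eq_mul,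
          mul_inv_cancel₀ hD.ne'], rfl⟩⟩
    rcases lt_or_gt_of_ne (hg c hc) with h | h
    · obtain ⟨x, hx, h0⟩ := zero_Simp b (-g) hc (by simpa using h) (l := l) (by simpa using h1)
      exact hg x hx (by simpa using h0)
    · obtain ⟨x, hx, h0⟩ := zero_Simp b g hc h h2
      exact hg x hx h0

end Pool.Agent.MP_a2955b_co.Up
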