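import Pool.Agent.MP_a2955b_co.Up.Stmt
set_option autoImplicit false
namespace Pool.Agent.MP_a2955b_co.Up
open Set Module

section
variable {E : Type} [NormedAddCommGroup E] [NormedSpace ℝ E]

theorem comb_Slice (g : Af E) (a b : E) (t : ℝ) :
    g ((1 - t) • a + t • b) = (1 - t) * g a + t * g b := by
  have h := AffineMap.apply_lineMap g a b t
  rw [AffineMap.lineMap_apply_module, AffineMap.lineMap_apply_module] at h
  simpa using h

theorem lin_Slice (g : Af E) (a b : E) : g.linear (a - b) = g a - g b := by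
  simpa using g.linearMap_vsub a b

theorem ivt_Slice {p q : ℝ} (hp : p ≤ 0) (hq : 0 ≤ q) :
    ∃ t : ℝ, 0 ≤ t ∧ t ≤ 1 ∧ (1 - t) * p + t * q = 0 := by
  rcases eq_or_lt_of_le (show 0 ≤ q - p by linarith) with h | h
  · exact ⟨0, le_rfl, zero_le_one, by linarith⟩
  · refine ⟨-p / (q - p), div_nonneg (by linarith) h.le, (div_le_one h).mpr (by linarith), ?_⟩
    field_simp
    ring

theorem neg_Slice {p q t : ℝ} (hp : p < 0) (hq : q < 0) (h0 : 0 ≤ t) (h1 : t ≤ 1) :
    (1 - t) * p + t * q < 0 := by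
  rcases eq_or_lt_of_le h0 with h | h
  · rw [← h]; linarith
  · nlinarith [mul_pos h (neg_pos.mpr hq), mul_nonneg (sub_nonneg.mpr h1) (neg_pos.mpr hp).le]

theorem pos_Slice {p q t : ℝ} (hp : 0 < p) (hq : 0 < q) (h0 : 0 ≤ t) (h1 : t ≤ 1) :
    0 < (1 - t) * p + t * q := by
  have := neg_Slice (neg_neg_of_pos hp) (neg_neg_of_pos hq) h0 h1
  linarith

theorem tri_Slice {S : Set E} {a b c : E} (ha : a ∈ S) (hb : b ∈ S) (hc : c ∈ S) {l m n : ℝ}
    (hl : 0 ≤ l) (hm : 0 ≤ m) (hn : 0 ≤ n) (h : l + m + n = 1) :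
    l • a + m • b + n • c ∈ convexHull ℝ S := by
  have := (convex_convexHull ℝ S).sum_mem (t := Finset.univ) (w := ![l, m, n]) (z := ![a, b, c])
    (by intro i _; fin_cases i <;> assumption) (by rw [Fin.sum_univ_three]; exact h)
    (by
      intro i _
      fin_cases i
      · exact subset_convexHull ℝ S ha
      · exact subset_convexHull ℝ S hb
      · exact subset_convexHull ℝ S hc)
  rw [Fin.sum_univ_three] at this
  exact this

theorem drop_Slice {a b c d x : E} {l₁ l₂ l₃ l₄ k₁ k₂ k₃ k₄ : ℝ} (h₁ : 0 ≤ l₁) (h₂ : 0 ≤ l₂)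
    (h₃ : 0 ≤ l₃) (h₄ : 0 ≤ l₄) (hl : l₁ + l₂ + l₃ + l₄ = 1)
    (hx : x = l₁ • a + l₂ • b + l₃ • c + l₄ • d) (g₁ : 0 ≤ k₁) (g₂ : k₂ < 0) (g₃ : k₃ < 0)
    (g₄ : 0 ≤ k₄) (hk : k₁ + k₂ + k₃ + k₄ = 0) (h0 : k₁ • a + k₂ • b + k₃ • c + k₄ • d = 0) :
    (∀ S : Set E, a ∈ S → c ∈ S → d ∈ S → x ∈ convexHull ℝ S) ∨
      ∀ S : Set E, a ∈ S → b ∈ S → d ∈ S → x ∈ convexHull ℝ S := by
  have key : ∀ s : ℝ, x = (l₁ + s * k₁) • a + (l₂ + s * k₂) • b + (l₃ + s * k₃) • c +
      (l₄ + s * k₄) • d := by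
    intro s
    have : x = x + s • (k₁ • a + k₂ • b + k₃ • c + k₄ • d) := by rw [h0, smul_zero, add_zero]
    rw [this, hx]
    module
  have n₂ : 0 < -k₂ := neg_pos.mpr g₂
  have n₃ : 0 < -k₃ := neg_pos.mpr g₃
  rcases le_total (l₂ / -k₂) (l₃ / -k₃) with h | h
  · refine Or.inl fun S ha hc hd => ?_
    have hs : 0 ≤ l₂ / -k₂ := div_nonneg h₂ n₂.le
    have e : l₂ + l₂ / -k₂ * k₂ = 0 := by
      have := div_mul_cancel₀ l₂ n₂.ne'
      linarith
    have e' : l₂ / -k₂ * -k₃ ≤ l₃ := (le_div_iff₀ n₃).mp h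
    rw [key (l₂ / -k₂), e, zero_smul, add_zero]
    generalize l₂ / -k₂ = s at hs e e' ⊢
    refine tri_Slice ha hc hd (by positivity) (by linarith) (by positivity) ?_
    linear_combination hl + s * hk - e
  · refine Or.inr fun S ha hb hd => ?_
    have hs : 0 ≤ l₃ / -k₃ := div_nonneg h₃ n₃.le
    have e : l₃ + l₃ / -k₃ * k₃ = 0 := by
      have := div_mul_cancel₀ l₃ n₃.ne'
      linarith
    have e' : l₃ / -k₃ * -k₂ ≤ l₂ := (le_div_iff₀ n₂).mp h
    rw [key (l₃ / -k₃), e, zero_smul, add_zero]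
    generalize l₃ / -k₃ = s at hs e e' ⊢
    refine tri_Slice ha hb hd (by positivity) (by linarith) (by positivity) ?_
    linear_combination hl + s * hk - e

theorem four_Slice {S : Set E} {a b c d x : E} (hS : ∀ p ∈ S, p = a ∨ p = b ∨ p = c ∨ p = d)
    (hx : x ∈ convexHull ℝ S) : ∃ l₁ l₂ l₃ l₄ : ℝ, 0 ≤ l₁ ∧ 0 ≤ l₂ ∧ 0 ≤ l₃ ∧ 0 ≤ l₄ ∧
      l₁ + l₂ + l₃ + l₄ = 1 ∧ x = l₁ • a + l₂ • b + l₃ • c + l₄ • d := by
  refine convexHull_min (t := {x | ∃ l₁ l₂ l₃ l₄ : ℝ, 0 ≤ l₁ ∧ 0 ≤ l₂ ∧ 0 ≤ l₃ ∧ 0 ≤ l₄ ∧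
      l₁ + l₂ + l₃ + l₄ = 1 ∧ x = l₁ • a + l₂ • b + l₃ • c + l₄ • d}) ?_ ?_ hx
  · intro p hp
    rcases hS p hp with rfl | rfl | rfl | rfl
    · exact ⟨1, 0, 0, 0, by norm_num, by norm_num, by norm_num, by norm_num, by norm_num, by simp⟩
    · exact ⟨0, 1, 0, 0, by norm_num, by norm_num, by norm_num, by norm_num, by norm_num, by simp⟩
    · exact ⟨0, 0, 1, 0, by norm_num, by norm_num, by norm_num, by norm_num, by norm_num, by simp⟩
    · exact ⟨0, 0, 0, 1, by norm_num, by norm_num, by norm_num, by norm_num, by norm_num, by simp⟩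
  · rintro _ ⟨l₁, l₂, l₃, l₄, h₁, h₂, h₃, h₄, hl, rfl⟩ _ ⟨m₁, m₂, m₃, m₄, g₁, g₂, g₃, g₄, hm, rfl⟩
      s t hs ht hst
    refine ⟨s * l₁ + t * m₁, s * l₂ + t * m₂, s * l₃ + t * m₃, s * l₄ + t * m₄, by positivity,
      by positivity, by positivity, by positivity, ?_, by module⟩
    linear_combination s * hl + t * hm + hst

theorem sgn_Slice {k k' p q : ℝ} (hp : 0 < p) (hq : 0 < q) (h : k * p + k' * q = 0) (hk : 0 < k) :
    k' < 0 := by
  by_contra h'
  have := mul_nonneg (not_lt.mp h') hq.le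
  have := mul_pos hk hp
  linarith

theorem dep_Slice [FiniteDimensional ℝ E] {V : Submodule ℝ E} (hV : finrank ℝ V ≤ 2)
    {u v w : E} (hu : u ∈ V) (hv : v ∈ V) (hw : w ∈ V) :
    ∃ k₂ k₃ k₄ : ℝ, 0 ≤ k₄ ∧ ¬ (k₂ = 0 ∧ k₃ = 0 ∧ k₄ = 0) ∧ k₂ • u + k₃ • v + k₄ • w = 0 := by
  have h : ¬ LinearIndependent ℝ (![⟨u, hu⟩, ⟨v, hv⟩, ⟨w, hw⟩] : Fin 3 → V) := by
    intro h
    have := h.fintype_card_le_finrank
    rw [Fintype.card_fin] at this
    omega
  obtain ⟨g, hg, i, hi⟩ := Fintype.not_linearIndependent_iff.mp h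
  rw [Fin.sum_univ_three] at hg
  have hg' : g 0 • u + g 1 • v + g 2 • w = 0 := congrArg Subtype.val hg
  have hn : ¬ (g 0 = 0 ∧ g 1 = 0 ∧ g 2 = 0) := by
    rintro ⟨h0, h1, h2⟩
    fin_cases i
    · exact hi h0
    · exact hi h1
    · exact hi h2
  rcases le_total 0 (g 2) with h2 | h2
  · exact ⟨g 0, g 1, g 2, h2, hn, hg'⟩
  · refine ⟨-g 0, -g 1, -g 2, neg_nonneg.mpr h2, by simpa using hn, ?_⟩
    rw [neg_smul, neg_smul, neg_smul, ← neg_add, ← neg_add, hg', neg_zero]

end

theorem slice : SliceStmt := by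
  intro E _ _ _ I s lo hi x V n
  classical
  induction s using Finset.induction_on generalizing V with
  | empty =>
    intro hV u hu _ _ _
    exact ⟨V, u, by simpa using hV, hu, fun ε => subset_convexHull ℝ _ ⟨ε, fun _ _ => rfl, rfl⟩⟩
  | insert i s his ih =>
    intro hV u hu hx hf ht
    have hi0 := Finset.mem_insert_self i s
    obtain ⟨al, be, hal, hbe, hor, h0⟩ : ∃ al be : ℝ, 0 ≤ al ∧ 0 ≤ be ∧ (0 < al ∨ 0 < be) ∧
        al * lo i x + be * hi i x = 0 := by
      obtain ⟨h1, h2⟩ := hx i hi0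
      rcases eq_or_lt_of_le h1 with h | h
      · exact ⟨1, 0, zero_le_one, le_rfl, Or.inl one_pos, by rw [← h]; ring⟩
      · exact ⟨-hi i x, lo i x, neg_nonneg.mpr h2, h1, Or.inr h, by ring⟩
    obtain ⟨ψ, hψ⟩ : ∃ ψ : Af E, ∀ y, ψ y = al * lo i y + be * hi i y :=
      ⟨al • lo i + be • hi i, fun y => by simp⟩
    have hψx : ψ x = 0 := by rw [hψ, h0]
    have hlt : V ⊓ LinearMap.ker ψ.linear < V := by
      refine lt_of_le_of_ne inf_le_left fun h => ?_
      have hz : ∀ ε, ψ (u ε) = 0 := by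
        intro ε
        have h1 : u ε - x ∈ V ⊓ LinearMap.ker ψ.linear := by rw [h]; exact hu ε
        have h2 := LinearMap.mem_ker.mp h1.2
        rwa [lin_Slice, hψx, sub_zero] at h2
      rcases hor with h1 | h1
      · have h2 := ht i hi0 (fun _ => true) rfl
        have h3 := hz fun _ => true
        rw [hψ, h2.2] at h3
        have := mul_pos h1 h2.1
        linarith
      · have h2 := hf i hi0 (fun _ => false) rfl
        have h3 := hz fun _ => false
        rw [hψ, h2.1] at h3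
        have := mul_neg_of_pos_of_neg h1 h2.2
        linarith
    have hV1 : finrank ℝ (V ⊓ LinearMap.ker ψ.linear : Submodule ℝ E) ≤ n + s.card := by
      have := Submodule.finrank_lt_finrank_of_lt hlt
      rw [Finset.card_insert_of_notMem his] at hV
      omega
    have hex : ∀ ε : I → Bool, ∃ t : ℝ, 0 ≤ t ∧ t ≤ 1 ∧
        (1 - t) * ψ (u (Function.update ε i false)) + t * ψ (u (Function.update ε i true)) = 0 := by
      intro ε
      have h1 := hf i hi0 (Function.update ε i false) (Function.update_self ..)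
      have h2 := ht i hi0 (Function.update ε i true) (Function.update_self ..)
      refine ivt_Slice ?_ ?_
      · rw [hψ, h1.1]
        have := mul_nonneg hbe (neg_pos.mpr h1.2).le
        linarith
      · rw [hψ, h2.2]
        have := mul_nonneg hal h2.1.le
        linarith
    choose t t0 t1 tψ using hex
    have hne : ∀ j ∈ s, j ≠ i := fun j hj h => his (h ▸ hj)
    obtain ⟨V', w, hV', hw, hc⟩ := ih (V ⊓ LinearMap.ker ψ.linear) hV1
      (fun ε => (1 - t ε) • u (Function.update ε i false) + t ε • u (Function.update ε i true))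
      (fun ε => by
        refine ⟨?_, ?_⟩
        · have e : (1 - t ε) • u (Function.update ε i false) + t ε • u (Function.update ε i true)
              - x = (1 - t ε) • (u (Function.update ε i false) - x) +
                t ε • (u (Function.update ε i true) - x) := by module
          rw [e]
          exact V.add_mem (V.smul_mem _ (hu _)) (V.smul_mem _ (hu _))
        · refine LinearMap.mem_ker.mpr ?_
          rw [lin_Slice, comb_Slice, tψ, hψx, sub_zero])
      (fun j hj => hx j (Finset.mem_insert_of_mem hj))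
      (fun j hj ε hε => by
        have h1 := hf j (Finset.mem_insert_of_mem hj) (Function.update ε i false)
          (by rw [Function.update_of_ne (hne j hj), hε])
        have h2 := hf j (Finset.mem_insert_of_mem hj) (Function.update ε i true)
          (by rw [Function.update_of_ne (hne j hj), hε])
        rw [comb_Slice, comb_Slice, h1.1, h2.1]
        exact ⟨by ring, neg_Slice h1.2 h2.2 (t0 ε) (t1 ε)⟩)
      (fun j hj ε hε => by
        have h1 := ht j (Finset.mem_insert_of_mem hj) (Function.update ε i false)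
          (by rw [Function.update_of_ne (hne j hj), hε])
        have h2 := ht j (Finset.mem_insert_of_mem hj) (Function.update ε i true)
          (by rw [Function.update_of_ne (hne j hj), hε])
        rw [comb_Slice, comb_Slice, h1.2, h2.2]
        exact ⟨pos_Slice h1.1 h2.1 (t0 ε) (t1 ε), by ring⟩)
    refine ⟨V', w, hV', hw, fun ε => convexHull_min ?_ (convex_convexHull ℝ _) (hc ε)⟩
    rintro _ ⟨ε', hε', rfl⟩
    have hm : ∀ b : Bool, u (Function.update ε' i b) ∈ convexHull ℝ
        {p | ∃ ε'' : I → Bool, (∀ j, j ∉ insert i s → ε'' j = ε j) ∧ p = u ε''} := by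
      intro b
      refine subset_convexHull ℝ _ ⟨Function.update ε' i b, fun j hj => ?_, rfl⟩
      rw [Finset.mem_insert, not_or] at hj
      rw [Function.update_of_ne hj.1, hε' j hj.2]
    exact convex_convexHull ℝ _ (hm false) (hm true) (sub_nonneg.mpr (t1 ε')) (t0 ε') (by ring)

theorem quad : QuadStmt := by
  intro E _ _ _ x V hV w hw la ha lb hb la0 ha0 lb0 hb0 hF hT hF' hT'
  obtain ⟨V', w', hV', hw', hc⟩ := slice E Bool Finset.univ (fun i => bif i then lb else la)
    (fun i => bif i then hb else ha) x V 0 (by simpa using hV) (fun ε => w (ε false) (ε true))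
    (fun ε => hw _ _)
    (by
      rintro (_ | _) -
      · exact ⟨la0, ha0⟩
      · exact ⟨lb0, hb0⟩)
    (by
      rintro (_ | _) - ε hε
      · simp only [hε]; exact hF _
      · simp only [hε]; exact hF' _)
    (by
      rintro (_ | _) - ε hε
      · simp only [hε]; exact hT _
      · simp only [hε]; exact hT' _)
  have hbot : V' = ⊥ := Submodule.finrank_eq_zero.mp (Nat.le_zero.mp hV')
  have hx : w' (fun _ => false) = x := by
    have := hw' fun _ => false
    rwa [hbot, Submodule.mem_bot, sub_eq_zero] at this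
  have hc' := hc fun _ => false
  rw [hx] at hc'
  obtain ⟨l₁, l₂, l₃, l₄, h₁, h₂, h₃, h₄, hl, hxl⟩ := four_Slice (a := w false false)
    (b := w true false) (c := w false true) (d := w true true) (by
      rintro _ ⟨ε, -, rfl⟩
      cases ε false <;> cases ε true <;> simp) hc'
  have hd : ∀ a b, w a b - w false false ∈ V := fun a b => by
    have := V.sub_mem (hw a b) (hw false false)
    rwa [sub_sub_sub_cancel_right] at this
  obtain ⟨k₂, k₃, k₄, g₄, hk, h0⟩ := dep_Slice hV (hd true false) (hd false true) (hd true true)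
  have hg : ∀ g : Af E, -(k₂ + k₃ + k₄) * g (w false false) + k₂ * g (w true false) +
      k₃ * g (w false true) + k₄ * g (w true true) = 0 := by
    intro g
    have := congrArg g.linear h0
    rw [map_add, map_add, map_smul, map_smul, map_smul, lin_Slice, lin_Slice, lin_Slice,
      map_zero] at this
    simp only [smul_eq_mul] at this
    linear_combination this
  have e1 := hg la
  have e2 := hg lb
  have e3 := hg hb
  rw [(hF false).1, (hF true).1] at e1
  rw [(hF' false).1, (hF' true).1] at e2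
  rw [(hT' false).2, (hT' true).2] at e3
  have g₄' : 0 < k₄ := by
    refine lt_of_le_of_ne g₄ fun h => hk ⟨?_, ?_, h.symm⟩
    · rw [← h] at e1
      exact (mul_eq_zero.mp (show k₂ * la (w true false) = 0 by linarith)).resolve_right
        (hT false).1.ne'
    · rw [← h] at e2
      exact (mul_eq_zero.mp (show k₃ * lb (w false true) = 0 by linarith)).resolve_right
        (hT' false).1.ne'
  have g₂ : k₂ < 0 := sgn_Slice (hT true).1 (hT false).1 (by linarith) g₄'
  have g₃ : k₃ < 0 := sgn_Slice (hT' true).1 (hT' false).1 (by linarith) g₄'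
  have g₁ : - -(k₂ + k₃ + k₄) < 0 := sgn_Slice (neg_pos.mpr (hF' true).2)
    (neg_pos.mpr (hF' false).2) (by linarith) (neg_pos.mpr g₂)
  have h0' : -(k₂ + k₃ + k₄) • w false false + k₂ • w true false + k₃ • w false true +
      k₄ • w true true = 0 := by
    rw [← h0]; module
  constructor
  · rcases drop_Slice h₁ h₂ h₃ h₄ hl hxl (by linarith) g₂ g₃ g₄ (by ring) h0' with h | h
    · exact ⟨true, h _ ⟨false, false, by simp, rfl⟩ ⟨false, true, by simp, rfl⟩
        ⟨true, true, by simp, rfl⟩⟩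
    · exact ⟨false, h _ ⟨false, false, by simp, rfl⟩ ⟨true, false, by simp, rfl⟩
        ⟨true, true, by simp, rfl⟩⟩
  · rcases drop_Slice (a := w true false) (b := w false false) (c := w true true)
      (d := w false true) (k₁ := -k₂) (k₂ := - -(k₂ + k₃ + k₄)) (k₃ := -k₄) (k₄ := -k₃)
      h₂ h₁ h₄ h₃ (by linarith) (x := x) (by rw [hxl]; module) (by linarith) g₁ (by linarith)
      (by linarith) (by ring) (by rw [← neg_eq_zero, ← h0']; module) with h | h
    · exact ⟨false, h _ ⟨true, false, by simp, rfl⟩ ⟨true, true, by simp, rfl⟩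
        ⟨false, true, by simp, rfl⟩⟩
    · exact ⟨true, h _ ⟨true, false, by simp, rfl⟩ ⟨false, false, by simp, rfl⟩
        ⟨false, true, by simp, rfl⟩⟩

end Pool.Agent.MP_a2955b_co.Up
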