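import Pool.Agent.MP_a2955b_co.Up.Basic
set_option autoImplicit false
namespace Pool.Agent.MP_a2955b_co.Up
open Set Module

theorem sum_ncard_StageOne {α β : Type} [Fintype α] (C : Finset β) (B : β → Set α) (U : Set α)
    (h1 : ∀ O ∈ C, B O ⊆ U) (h2 : ∀ O ∈ C, ∀ O' ∈ C, ∀ x ∈ B O, x ∈ B O' → O = O') :
    ∑ O ∈ C, (B O).ncard ≤ U.ncard := by
  classical
  have h3 : ∑ O ∈ C, (B O).ncard = (C.biUnion fun O => (B O).toFinset).card := by
    rw [Finset.card_biUnion]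
    · exact Finset.sum_congr rfl fun O _ => Set.ncard_eq_toFinset_card' _
    · intro O hO O' hO' hne
      rw [Function.onFun, Finset.disjoint_left]
      intro x hx hx'
      exact hne (h2 O hO O' hO' x (Set.mem_toFinset.1 hx) (Set.mem_toFinset.1 hx'))
  rw [h3, ← Set.ncard_coe_finset]
  refine Set.ncard_le_ncard (fun x hx => ?_) (Set.toFinite _)
  obtain ⟨O, hO, hx⟩ := Finset.mem_biUnion.1 hx
  exact h1 O hO (Set.mem_toFinset.1 hx)

theorem stageOne_of (hA : ArrStmt) (hC : CutStmt) (hT : TraceStmt) : StageOneStmt := by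
  classical
  intro E _ _ _ D hD hD2 ι _ φ h hφ w0 H τ hτ W G U hWH hGH hW hG hK k t lam hl1 hl2
  obtain ⟨u, hu⟩ : ∃ u : E, u ≠ 0 := by
    have : Nontrivial E := Module.nontrivial_of_finrank_pos (R := ℝ) (by omega)
    exact exists_ne 0
  obtain ⟨a, ha⟩ : ∃ a : ι × G → Af E, ∀ x p, a x p = x.2.1 (p, h x.1 p) :=
    ⟨fun x => x.2.1.comp ((AffineMap.id ℝ E).prod (h x.1)), fun _ _ => rfl⟩
  choose ψ hψ0 hψu hψ using fun x : ι × G => hT E (by omega) u (φ x.1) (a x) (hφ x.1)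
  have hcard : Fintype.card (ι × G) ≤ Fintype.card ι * H := by
    rw [Fintype.card_prod, Fintype.card_coe]
    exact Nat.mul_le_mul_left _ hGH
  obtain ⟨C1, N, hC1, hS, hc1, -, hN⟩ := hC E D hD (by omega) (ι × G) ψ hψ0 univ w0 τ hτ W hW k t
    lam (lt_of_le_of_lt (by gcongr) hl1) ((Nat.mul_le_mul_left _ hcard).trans hl2)
  have hX : XX D ψ univ τ = 0 := by
    unfold XX
    rw [Set.ncard_eq_zero (Set.toFinite _)]
    refine Set.eq_empty_of_forall_notMem fun s hs => hu ?_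
    exact eq_zero_of_indep hD hs.2.1 fun i => hψu _
  have hN0 : N = 0 := by omega
  rw [hN0, add_zero] at hc1
  obtain ⟨C', hC', hc', hCS⟩ := hC1.prod
  have hfr : finrank ℝ (E × ℝ) = D + 1 := by
    rw [Module.finrank_prod, hD, Module.finrank_self]
  choose! Arr hArr hArrc hArr0 hArrs using
    fun O' (hO' : O' ∈ C') => hA (E × ℝ) O' (hC'.op O' hO') G hG
  obtain ⟨C, hCp, hCc, hCm⟩ := hC'.bind Arr hArr
  have hbase : ∀ O ∈ C, ∃ S ∈ C1, S ×ˢ (univ : Set ℝ) ∈ C' ∧ O ∈ Arr (S ×ˢ univ) := by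
    intro O hO
    obtain ⟨O', hO', h1⟩ := (hCm O).1 hO
    obtain ⟨S, hS, rfl⟩ := hCS O' hO'
    exact ⟨S, hS, hO', h1⟩
  choose! base hb1 hb2 hb3 using hbase
  have hfst : ∀ O ∈ C, ∀ z ∈ O, z.1 ∈ base O := fun O hO z hz =>
    ((hArr _ (hb2 O hO)).sub O (hb3 O hO) hz).1
  have hKK : C.card ≤ KK D w0 H k := by
    refine hCc.trans ((Finset.sum_le_card_nsmul _ _ ((H + 1) ^ (D + 2)) fun O' hO' =>
      (hArrc O' hO').trans ?_).trans ?_)
    · rw [hfr]
      gcongr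
    · rw [smul_eq_mul]
      unfold KK
      refine Nat.mul_le_mul_right _ (hc'.trans (hc1.trans ?_))
      gcongr
  refine ⟨C, base, hCp, fun O hO => ⟨(hS _ (hb1 O hO)).1, hfst O hO⟩, hKK, ?_⟩
  let short : Set E → Set ι := fun S => {e | ∃ g : G, ∃ x ∈ S, ψ (e, g) x = 0}
  let B : Set (E × ℝ) → Set (Fin D → ι) := fun O =>
    {s | ((∀ i, (O ∩ fl (φ (s i)) (h (s i))).Nonempty) ∧ Vx φ (base O) s) ∧
      ∃ i, s i ∉ short (base O)}
  have hshort : ∀ S ∈ C1, (short S).ncard ≤ (D + 1) ^ 2 * t := by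
    intro S hS1
    refine le_trans ?_ (hS S hS1).2.2
    refine le_trans (Set.ncard_le_ncard ?_ (Set.toFinite _)) (Set.ncard_image_le (f := Prod.fst))
    rintro e ⟨g, x, hx, h0⟩
    exact ⟨(e, g), ⟨mem_univ _, x, hx, h0⟩, rfl⟩
  have hsplit : ∀ O ∈ C, XX D φ {i | (O ∩ fl (φ i) (h i)).Nonempty} (base O) ≤
      (B O).ncard + ((D + 1) ^ 2 * t) ^ D := by
    intro O hO
    have h1 := (ncard_tuples D (short (base O)) (Set.toFinite _)).2
    refine le_trans ?_ (Nat.add_le_add_left (h1.le.trans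
      (Nat.pow_le_pow_left (hshort _ (hb1 O hO)) D)) _)
    refine le_trans (Set.ncard_le_ncard ?_ (Set.toFinite _)) (Set.ncard_union_le _ _)
    intro s hs
    by_cases h2 : ∀ i, s i ∈ short (base O)
    · exact Or.inr h2
    · exact Or.inl ⟨hs, not_forall.1 h2⟩
  have hsum : ∑ O ∈ C, (B O).ncard ≤ U.ncard := by
    refine sum_ncard_StageOne C B U ?_ ?_
    · rintro O hO s ⟨⟨h1, h2⟩, -⟩
      by_contra hs
      exact hK s (h2.mono (subset_univ _)) hs (base O) O (hS _ (hb1 O hO)).1.op.convex h2.2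
        (hS _ (hb1 O hO)).2.1 (hCp.op O hO).isOpen (hCp.op O hO).convex (hfst O hO)
        (hArr0 _ (hb2 O hO) O (hb3 O hO)) h1
    · rintro O hO O' hO' s ⟨⟨h1, hi, p, hp, hp0⟩, i, hsh⟩ ⟨⟨h1', -, p', hp', hp0'⟩, -⟩
      have hpp := zero_unique hD hi hp0 hp0'
      have hbb : base O' = base O := by
        by_contra hne
        exact Set.disjoint_left.1 (hC1.disj _ (hb1 O' hO') _ (hb1 O hO) hne) hp' (hpp ▸ hp)
      obtain ⟨z, hz, hz0, hz1⟩ := h1 i
      obtain ⟨z', hz', hz0', hz1'⟩ := h1' i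
      have hO'' := hb3 O' hO'
      rw [hbb] at hO''
      refine hArrs _ (hb2 O hO) O (hb3 O hO) O' hO'' z hz z' hz' fun g hg => ?_
      have e1 : g z = a (s i, ⟨g, hg⟩) z.1 := by rw [ha, ← hz1]
      have e2 : g z' = a (s i, ⟨g, hg⟩) z'.1 := by rw [ha, ← hz1']
      rcases hψ (s i, ⟨g, hg⟩) with h3 | h3
      · exact absurd (e1.trans (h3 _ hz0)) (hArr0 _ (hb2 O hO) O (hb3 O hO) g hg z hz)
      · rw [e1, e2]
        refine sign_eq_of_convex (S := base O ∩ {x | φ (s i) x = 0})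
          ((hS _ (hb1 O hO)).1.op.convex.inter (convex_zero _)) _ ?_ ⟨hfst O hO z hz, hz0⟩
          ⟨hbb ▸ hfst O' hO' z' hz', hz0'⟩
        rintro x ⟨hx, hx0⟩ h4
        exact hsh ⟨⟨g, hg⟩, x, hx, h3 x hx0 h4⟩
  refine (Finset.sum_le_sum hsplit).trans ?_
  rw [Finset.sum_add_distrib, Finset.sum_const, smul_eq_mul]
  exact Nat.add_le_add hsum (Nat.mul_le_mul_right _ hKK)

end Pool.Agent.MP_a2955b_co.Up
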