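import Pool.Agent.MP_a2955b_co.Up.Stmt

set_option autoImplicit false

namespace Pool.Agent.MP_a2955b_co.Up

open Set Module

theorem exists_kill_Trace {E : Type} [NormedAddCommGroup E] [NormedSpace ℝ E]
    [FiniteDimensional ℝ E] (h : 2 ≤ finrank ℝ E) (u : E) :
    ∃ f : E →ₗ[ℝ] ℝ, f ≠ 0 ∧ f u = 0 := by
  have h1 : Submodule.span ℝ {u} < ⊤ := by
    refine lt_top_iff_ne_top.2 fun h2 => ?_
    have h3 := finrank_span_le_card (R := ℝ) ({u} : Set E)
    rw [h2, finrank_top] at h3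
    simp at h3
    omega
  obtain ⟨f, hf, hk⟩ := Submodule.exists_le_ker_of_lt_top _ h1
  exact ⟨f, hf, hk (Submodule.mem_span_singleton_self u)⟩

theorem trace : TraceStmt := by
  intro E _ _ _ hE u φ a hφ
  by_cases hu : φ.linear u = 0
  · exact ⟨φ, hφ, hu, Or.inr fun _ hp _ => hp⟩
  by_cases hψ : (φ.linear u • a - a.linear u • φ).linear = 0
  · obtain ⟨f, hf, hfu⟩ := exists_kill_Trace hE u
    refine ⟨f.toAffineMap, hf, hfu, ?_⟩
    by_cases h0 : ∃ p₀, φ p₀ = 0 ∧ a p₀ = 0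
    · obtain ⟨p₀, h1, h2⟩ := h0
      refine Or.inl fun p hp => ?_
      have h3 := LinearMap.congr_fun hψ (p -ᵥ p₀)
      rw [AffineMap.linearMap_vsub] at h3
      simp only [AffineMap.coe_sub, AffineMap.coe_smul, Pi.sub_apply, Pi.smul_apply, hp, h1, h2,
        smul_eq_mul, mul_zero, sub_zero, vsub_eq_sub, LinearMap.zero_apply] at h3
      exact (mul_eq_zero.1 h3).resolve_left hu
    · exact Or.inr fun p h1 h2 => absurd ⟨p, h1, h2⟩ h0
  · refine ⟨_, hψ, ?_, Or.inr fun p h1 h2 => ?_⟩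
    · simp [mul_comm]
    · simp [h1, h2]

end Pool.Agent.MP_a2955b_co.Up
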