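import Pool.Agent.MP_a2955b_co.Up.Basic

/-! Barycentric triangulation of an arrangement inside a bounded cell. -/

set_option autoImplicit false

namespace Pool.Agent.MP_a2955b_co.Up

open Set Module

section

variable {E : Type} [NormedAddCommGroup E] [NormedSpace ℝ E]

/-- The open simplex spanned by a family of points. -/
def sx_Tri {D : ℕ} (b : Fin (D + 1) → E) : Set E :=
  {x | ∃ μ : Fin (D + 1) → ℝ, (∀ l, 0 < μ l) ∧ ∑ l, μ l = 1 ∧ x = ∑ l, μ l • b l}

theorem basis_Tri [FiniteDimensional ℝ E] {D : ℕ} (hD : finrank ℝ E = D) {b : Fin (D + 1) → E}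
    (hb : AffineIndependent ℝ b) : ∃ β : AffineBasis (Fin (D + 1)) ℝ E, ⇑β = b :=
  ⟨⟨b, hb, hb.affineSpan_eq_top_iff_card_eq_finrank_add_one.2 (by rw [Fintype.card_fin, hD])⟩, rfl⟩

theorem zero_Tri {D : ℕ} (β : AffineBasis (Fin (D + 1)) ℝ E) (f : Af E) (h : ∀ l, f (β l) = 0) :
    f.linear = 0 := by
  have h1 : ∀ x, f x = 0 := fun x => by
    rw [← β.linear_combination_coord_eq_self x, af_sum _ f _ _ (β.sum_coord_apply_eq_one x)]
    simp [h]
  refine LinearMap.ext fun u => ?_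
  have := af_eq f u
  rw [h1, h1, add_zero] at this
  exact this.symm

theorem pos_Tri {κ : Type} {g : κ → Af E} {A J : Finset κ} (hJ : J ⊆ A) {x y : E}
    (h : SameSg g A x y) (hy : ∀ j ∈ J, 0 < g j y) : ∀ j ∈ J, 0 < g j x := fun j hj => by
  rw [← sign_eq_one_iff, h j (hJ hj), sign_eq_one_iff]
  exact hy j hj

end

theorem tri_of (hS : SimpStmt) (hC : ChainStmt) (hE : ChainExStmt) (hN : ChainCountStmt) :
    TriStmt := by
  classical
  intro E _ _ _ D hD κ g A J hJ hA hB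
  obtain ⟨-, -, c3, c4, c5, c6⟩ := hC E κ g A
  rcases {x | ∀ j ∈ J, 0 < g j x}.eq_empty_or_nonempty with h | ⟨y, hy⟩
  · exact ⟨∅, h ▸ Part.of_empty, by simp, by simp⟩
  have hK := bounded_closed_region g J hB hy
  have hfin : {b : Fin (D + 1) → E | Chain g A b ∧ ∀ j ∈ J, 0 < g j (b (Fin.last D))}.Finite :=
    (ncard_tuples (D + 1) _ c3).1.subset fun b hb l => ⟨_, hb.1.fix l⟩
  have hmem : ∀ S, S ∈ hfin.toFinset.image sx_Tri ↔ ∃ b : Fin (D + 1) → E,
      (Chain g A b ∧ ∀ j ∈ J, 0 < g j (b (Fin.last D))) ∧ sx_Tri b = S := fun S => by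
    simp only [Finset.mem_image, Set.Finite.mem_toFinset, mem_ofPred_eq]
  have hsg : ∀ b : Fin (D + 1) → E, Chain g A b → ∀ x ∈ sx_Tri b,
      SameSg g A x (b (Fin.last D)) := by
    rintro b hb x ⟨μ, h0, h1, rfl⟩
    exact c5 D b μ hb h0 h1
  have hsx : ∀ β : AffineBasis (Fin (D + 1)) ℝ E, sx_Tri β = Simp β := fun β =>
    Set.ext fun x => ((hS E D β).2.2.1 x).symm
  refine ⟨hfin.toFinset.image sx_Tri, ⟨fun S hS' => ?_, fun S hS' => ?_, fun S hS' S' hS'' hne => ?_,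
    ?_⟩, fun S hS' => ?_, ?_⟩
  · obtain ⟨b, ⟨hb, -⟩, rfl⟩ := (hmem S).1 hS'
    obtain ⟨β, rfl⟩ := basis_Tri hD (c4 D b hb)
    rw [hsx]
    exact (hS E D β).2.1
  · obtain ⟨b, ⟨hb, h⟩, rfl⟩ := (hmem S).1 hS'
    exact fun x hx => pos_Tri hJ (hsg b hb x hx) h
  · obtain ⟨b, ⟨hb, -⟩, rfl⟩ := (hmem S).1 hS'
    obtain ⟨b', ⟨hb', -⟩, rfl⟩ := (hmem S').1 hS''
    rw [Set.disjoint_left]
    rintro x ⟨μ, h0, h1, e⟩ ⟨μ', h0', h1', e'⟩
    exact hne (congrArg _ (c6 D b b' μ μ' hb hb' h0 h1 h0' h1' (e.symm.trans e')))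
  · choose! F hF hF' using fun (T : Finset E) (h : T.card ≤ D ∧ T.Nonempty) =>
      exists_af_zero T (hD ▸ h.1) h.2
    refine cover_of_off (op_family g J).isOpen
      (F '' {T | T ∈ c3.toFinset.powerset ∧ T.card ≤ D ∧ T.Nonempty})
      ((c3.toFinset.powerset.finite_toSet.subset fun T hT => hT.1).image F) ?_ fun x hx hoff => ?_
    · rintro _ ⟨T, hT, rfl⟩
      exact hF T hT.2
    obtain ⟨r, b, μ, hb, h0, h1, e⟩ := hE E κ g A J hJ hK x fun j hj => (hx j hj).le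
    have hr : r ≤ D := by
      have h2 := (c4 r b hb).card_le_finrank_succ
      have h3 := Submodule.finrank_le (vectorSpan ℝ (range b))
      rw [Fintype.card_fin] at h2
      omega
    rcases hr.eq_or_lt with rfl | hr
    · have h2 : x ∈ sx_Tri b := ⟨μ, h0, h1, e⟩
      exact mem_biUnion ((hmem _).2 ⟨b, ⟨hb, pos_Tri hJ (fun j hj => (hsg b hb x h2 j hj).symm) hx⟩,
        rfl⟩) h2
    · exfalso
      have hT : (Finset.univ.image b).card ≤ D ∧ (Finset.univ.image b).Nonempty :=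
        ⟨Finset.card_image_le.trans (by rw [Finset.card_univ, Fintype.card_fin]; omega),
          Finset.univ_nonempty.image b⟩
      refine hoff (F (Finset.univ.image b)) ⟨_, ⟨?_, hT⟩, rfl⟩ (hF' _ hT x ?_)
      · refine Finset.mem_powerset.2 fun p hp => ?_
        obtain ⟨l, -, rfl⟩ := Finset.mem_image.1 hp
        exact c3.mem_toFinset.2 ⟨_, hb.fix l⟩
      · rw [e]
        exact (convex_convexHull ℝ _).sum_mem (fun l _ => (h0 l).le) h1 fun l _ =>
          subset_convexHull ℝ _ (Finset.mem_coe.2 (Finset.mem_image_of_mem b (Finset.mem_univ l)))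
  · obtain ⟨b, ⟨hb, -⟩, rfl⟩ := (hmem S).1 hS'
    obtain ⟨β, rfl⟩ := basis_Tri hD (c4 D b hb)
    refine ⟨⟨β, hsx β⟩, fun j hj x hx e => hA j hj (zero_Tri β _ fun l => ?_)⟩
    have h2 : g j (β (Fin.last D)) = 0 := by
      rw [← sign_eq_zero_iff, ← hsg β hb x hx j hj, e, sign_zero]
    rcases (Fin.le_last l).eq_or_lt with rfl | h
    · exact h2
    · exact (hb.below _ _ h j hj).elim id fun e' => by
        rwa [h2, sign_zero, sign_eq_zero_iff] at e'
  · refine Finset.card_image_le.trans ?_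
    rw [← Set.ncard_eq_toFinset_card _ hfin]
    exact hN E D hD κ g A J hJ

end Pool.Agent.MP_a2955b_co.Up
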