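import Pool.Agent.MP_a2955b_co.Up.Stmt

set_option autoImplicit false

namespace Pool.Agent.MP_a2955b_co.Up

open Set Module

section
variable {E : Type} [NormedAddCommGroup E] [NormedSpace ℝ E] {ι : Type} {D : ℕ} {φ h : ι → Af E}

theorem kills_mono_Walls {W W' : Finset (Af E)} {G G' : Finset (Af (E × ℝ))} {t : Fin D → ι}
    (hW : W ⊆ W') (hG : G ⊆ G') (hk : Kills φ h W G t) : Kills φ h W' G' t :=
  fun S O h1 h2 h3 h4 h5 h6 h7 =>
    hk S O h1 h2 (fun w hw => h3 w (hW hw)) h4 h5 h6 fun g hg => h7 g (hG hg)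

theorem kills_perm_Walls {W : Finset (Af E)} {G : Finset (Af (E × ℝ))} {t : Fin D → ι}
    (π : Equiv.Perm (Fin D)) (hk : Kills φ h W G (t ∘ π)) : Kills φ h W G t :=
  fun S O h1 h2 h3 h4 h5 h6 h7 h8 =>
    hk S O h1 (h2.imp fun _ hp => ⟨hp.1, fun i => hp.2 (π i)⟩) h3 h4 h5 h6 h7 fun i => h8 (π i)

theorem vx_perm_Walls (t : Fin D → ι) (π : Equiv.Perm (Fin D)) : vx φ (t ∘ π) = vx φ t := by
  unfold vx
  congr 1
  funext p
  exact propext ⟨fun hp i => by simpa using hp (π.symm i), fun hp i => hp (π i)⟩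

theorem srt_Walls {t : Fin D → ι} (ht : Vx φ univ t) :
    ∃ π : Equiv.Perm (Fin D), Srt φ h (t ∘ π) := by
  obtain ⟨h1, p, hp, h2⟩ := ht
  refine ⟨Tuple.sort fun i => h (t i) (vx φ t), ⟨h1.comp _ (Equiv.injective _), p, hp,
    fun i => h2 _⟩, ?_⟩
  rw [vx_perm_Walls]
  exact Tuple.monotone_sort fun i => h (t i) (vx φ t)

theorem card_perm_Walls [Fintype ι] (U : Set (Fin D → ι)) :
    {t : Fin D → ι | ∃ π : Equiv.Perm (Fin D), t ∘ π ∈ U}.ncard ≤ D.factorial * U.ncard := by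
  have h1 : {t : Fin D → ι | ∃ π : Equiv.Perm (Fin D), t ∘ π ∈ U} ⊆
      (fun x : Equiv.Perm (Fin D) × (Fin D → ι) => x.2 ∘ x.1.symm) '' (univ ×ˢ U) := by
    rintro t ⟨π, hπ⟩
    exact ⟨(π, t ∘ π), ⟨mem_univ _, hπ⟩, funext fun i => by simp⟩
  refine (ncard_le_ncard h1 (toFinite _)).trans ((ncard_image_le (toFinite _)).trans_eq ?_)
  rw [ncard_prod, ncard_univ, Nat.card_eq_fintype_card, Fintype.card_perm, Fintype.card_fin]

theorem greedy_Walls [Fintype ι] {c N q : ℕ}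
    (hK : ∀ o : Fin D → Bool → ι,
      ∃ (W : Finset (Af E)) (G : Finset (Af (E × ℝ))), W.card ≤ c ∧ G.card ≤ c ∧
        (∀ w ∈ W, w.linear ≠ 0) ∧ (∀ g ∈ G, g.linear ≠ 0) ∧
        ∀ t : Fin D → ι, Good φ h (box o t) → Kills φ h W G t)
    (hG : ∀ U : Set (Fin D → ι), (∀ t ∈ U, Srt φ h t) → Fintype.card ι ^ D ≤ q * U.ncard →
      ∃ o : Fin D → Bool → ι,
        Fintype.card ι ^ D ≤ N * {t | t ∈ U ∧ Good φ h (box o t)}.ncard) (r : ℕ) :
    ∃ (W : Finset (Af E)) (G : Finset (Af (E × ℝ))) (U : Set (Fin D → ι)),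
      W.card ≤ r * c ∧ G.card ≤ r * c ∧ (∀ w ∈ W, w.linear ≠ 0) ∧ (∀ g ∈ G, g.linear ≠ 0) ∧
      (∀ t ∈ U, Srt φ h t) ∧ (∀ t, Srt φ h t → t ∉ U → Kills φ h W G t) ∧
      (q * U.ncard ≤ Fintype.card ι ^ D ∨
        N * U.ncard + r * Fintype.card ι ^ D ≤ N * Fintype.card ι ^ D) := by
  classical
  induction r with
  | zero =>
    refine ⟨∅, ∅, {t | Srt φ h t}, by simp, by simp, by simp, by simp, fun t ht => ht,
      fun t ht hn => absurd ht hn, Or.inr ?_⟩
    rw [zero_mul, add_zero]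
    refine Nat.mul_le_mul_left _ ((ncard_le_ncard (subset_univ _) (toFinite _)).trans_eq ?_)
    rw [ncard_univ, Nat.card_eq_fintype_card, Fintype.card_fun, Fintype.card_fin]
  | succ r ih =>
    obtain ⟨W, G, U, h1, h2, h3, h4, h5, h6, h7⟩ := ih
    have hc : r * c ≤ (r + 1) * c := Nat.mul_le_mul_right _ (Nat.le_succ r)
    by_cases hq : q * U.ncard ≤ Fintype.card ι ^ D
    · exact ⟨W, G, U, h1.trans hc, h2.trans hc, h3, h4, h5, h6, Or.inl hq⟩
    obtain ⟨o, ho⟩ := hG U h5 (not_le.1 hq).le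
    obtain ⟨W', G', k1, k2, k3, k4, k5⟩ := hK o
    refine ⟨W ∪ W', G ∪ G', U \ {t | t ∈ U ∧ Good φ h (box o t)}, ?_, ?_, ?_, ?_,
      fun t ht => h5 t ht.1, fun t ht hn => ?_, Or.inr ?_⟩
    · refine (Finset.card_union_le _ _).trans ?_
      rw [add_mul, one_mul]
      exact add_le_add h1 k1
    · refine (Finset.card_union_le _ _).trans ?_
      rw [add_mul, one_mul]
      exact add_le_add h2 k2
    · exact fun w hw => (Finset.mem_union.1 hw).elim (h3 w) (k3 w)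
    · exact fun g hg => (Finset.mem_union.1 hg).elim (h4 g) (k4 g)
    · by_cases hU : t ∈ U
      · have hg : Good φ h (box o t) := by
          by_contra hg
          exact hn ⟨hU, fun h' => hg h'.2⟩
        exact kills_mono_Walls Finset.subset_union_right Finset.subset_union_right (k5 t hg)
      · exact kills_mono_Walls Finset.subset_union_left Finset.subset_union_left (h6 t ht hU)
    · have e := ncard_sdiff_add_ncard_of_subset (s := {t | t ∈ U ∧ Good φ h (box o t)}) (t := U)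
        (fun t ht => ht.1) (toFinite _)
      have h8 := h7.resolve_left hq
      rw [← e, mul_add] at h8
      rw [add_mul, one_mul]
      omega

end

theorem walls_of (hK : KillStmt) (hG : GoodCountStmt) : WallsStmt := by
  intro E _ _ _ n hn
  obtain ⟨c, hc⟩ := hK E n hn
  obtain ⟨c1, c2, hc'⟩ := hG E (n + 3)
  refine ⟨c * c1, c2, fun ι _ φ h hφ q _ => ?_⟩
  rcases isEmpty_or_nonempty ι with hι | hι
  · exact ⟨∅, ∅, ∅, by simp, by simp, by simp, by simp, by simp,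
      fun t => (hι.false (t 0)).elim⟩
  obtain ⟨W, G, U, h1, h2, h3, h4, h5, h6, h7⟩ :=
    greedy_Walls (N := c1 * q ^ c2) (q := q) (hc ι φ h hφ) (fun U => hc' ι φ h U q) (c1 * q ^ c2)
  have e : c1 * q ^ c2 * c = c * c1 * q ^ c2 := by ring
  have hq : q * U.ncard ≤ Fintype.card ι ^ (n + 3) := by
    by_contra hq
    obtain ⟨o, ho⟩ := hc' ι φ h U q h5 (not_le.1 hq).le
    have h8 := h7.resolve_left hq
    have h9 : c1 * q ^ c2 * {t | t ∈ U ∧ Good φ h (box o t)}.ncard ≤ c1 * q ^ c2 * U.ncard :=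
      Nat.mul_le_mul_left _ (ncard_le_ncard (fun t ht => ht.1) (toFinite _))
    have h10 : 0 < Fintype.card ι ^ (n + 3) := pow_pos Fintype.card_pos _
    omega
  refine ⟨W, G, {t | ∃ π : Equiv.Perm (Fin (n + 3)), t ∘ π ∈ U}, e ▸ h1, e ▸ h2, h3, h4, ?_,
    fun t ht hn' => ?_⟩
  · refine (Nat.mul_le_mul_left q (card_perm_Walls U)).trans ?_
    rw [mul_left_comm]
    exact Nat.mul_le_mul_left _ hq
  · obtain ⟨π, hπ⟩ := srt_Walls (h := h) ht
    exact kills_perm_Walls π (h6 _ hπ fun hU => hn' ⟨π, hU⟩)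

end Pool.Agent.MP_a2955b_co.Up
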