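import Pool.Agent.MP_a2955b_co.Up.MainOf
import Pool.Agent.MP_a2955b_co.Up.Sgn
import Pool.Agent.MP_a2955b_co.Up.Simp
import Pool.Agent.MP_a2955b_co.Up.Chain
import Pool.Agent.MP_a2955b_co.Up.ChainEx
import Pool.Agent.MP_a2955b_co.Up.ChainCount
import Pool.Agent.MP_a2955b_co.Up.Sample
import Pool.Agent.MP_a2955b_co.Up.Slice
import Pool.Agent.MP_a2955b_co.Up.Hull
import Pool.Agent.MP_a2955b_co.Up.KillA
import Pool.Agent.MP_a2955b_co.Up.KillC
import Pool.Agent.MP_a2955b_co.Up.Ramsey
import Pool.Agent.MP_a2955b_co.Up.Super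
import Pool.Agent.MP_a2955b_co.Up.GoodCount
import Pool.Agent.MP_a2955b_co.Up.Walls
import Pool.Agent.MP_a2955b_co.Up.NumNat
import Pool.Agent.MP_a2955b_co.Up.Num
import Pool.Agent.MP_a2955b_co.Up.Coord
import Pool.Agent.MP_a2955b_co.Up.Face
import Pool.Agent.MP_a2955b_co.Up.Trace
import Pool.Agent.MP_a2955b_co.Up.Arr
import Pool.Agent.MP_a2955b_co.Up.Tri
import Pool.Agent.MP_a2955b_co.Up.Cut
import Pool.Agent.MP_a2955b_co.Up.Kill
import Pool.Agent.MP_a2955b_co.Up.StageOne
import Pool.Agent.MP_a2955b_co.Up.StageTwo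
import Pool.Agent.MP_a2955b_co.Up.Rec
import Pool.Agent.MP_a2955b_co.Up.Poly

/-! Assembly of the upper bound. -/

set_option autoImplicit false

namespace Pool.Agent.MP_a2955b_co.Up

theorem arr_all : ArrStmt := arr_of sgn

theorem cut_all : CutStmt :=
  cut_of sgn simp_facts
    (tri_of simp_facts chain_facts (chainEx_of chain_facts) (chainCount_of chain_facts)) sample

theorem walls_all : WallsStmt :=
  walls_of (kill_of slice above (killC_of slice quad) (killA_of slice))
    (goodCount_of super (goodSub_of ramsey_prod))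

theorem step_all : StepStmt :=
  step_of (stageTwo_of cut_all walls_all (stageOne_of arr_all cut_all trace)) (num_of numNat)

theorem main_all : MainStmt :=
  main_of (rec_of arr_all free step_all) (toPart_of poly) coord face

end Pool.Agent.MP_a2955b_co.Up
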