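import Pool.Agent.MP_a2955b_co.Up.Basic

/-! From the recursion to convex partitions of polyhedra. -/

set_option autoImplicit false

namespace Pool.Agent.MP_a2955b_co.Up

open Set Module

theorem exists_enum_MainOf {X : Type} (V : Finset X) (v D : ℕ) (hV : V.card ≤ v) :
    ∃ T : Fin (2 ^ v) → Finset X, (∀ l, T l ⊆ V ∧ (T l).card ≤ D) ∧
      ∀ T0 : Finset X, T0 ⊆ V → T0.card ≤ D → ∃ l, T l = T0 := by
  classical
  let Q : Finset (Finset X) := V.powerset.filter (fun T => T.card ≤ D)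
  have hQ : Fintype.card Q ≤ Fintype.card (Fin (2 ^ v)) := by
    rw [Fintype.card_coe, Fintype.card_fin]
    calc Q.card ≤ V.powerset.card := Finset.card_filter_le _ _
      _ = 2 ^ V.card := Finset.card_powerset V
      _ ≤ 2 ^ v := Nat.pow_le_pow_right (by norm_num) hV
  obtain ⟨e⟩ := Function.Embedding.nonempty_of_card_le hQ
  have : Nonempty Q := ⟨⟨∅, by simp [Q]⟩⟩
  refine ⟨fun l => (Function.invFun e l : Q), fun l => ?_, fun T0 h1 h2 => ?_⟩
  · have := (Function.invFun e l : Q).2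
    simp only [Q, Finset.mem_filter, Finset.mem_powerset] at this
    exact this
  · have hm : T0 ∈ Q := by simp [Q, h1, h2]
    refine ⟨e ⟨T0, hm⟩, ?_⟩
    have := Function.leftInverse_invFun e.injective ⟨T0, hm⟩
    simp only [this]

theorem main_of (hR : RecStmt) (hP : ToPartStmt) (hC : CoordStmt) (hF : FaceStmt) :
    MainStmt := by
  classical
  intro d hd
  obtain ⟨n', rfl⟩ : ∃ n', d = n' + 3 + 1 := ⟨d - 4, by omega⟩
  obtain ⟨δ, hδ, hδ2, hrec⟩ := hR (Fin (n' + 3) → ℝ) n' (by simp)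
  refine ⟨δ, hδ, fun v => ?_⟩
  obtain ⟨A, hA0, hA⟩ := hrec (2 ^ v) Nat.one_le_two_pow
  refine ⟨1 + A, fun n P hn hPV => ?_⟩
  obtain ⟨hcpt, hreg, F, hpoly, hV, hfr, hint⟩ := hPV
  choose V hVc hFV using hV
  have hX : finrank ℝ (EuclideanSpace ℝ (Fin (n' + 3 + 1))) = n' + 3 + 1 := by simp
  have hne : ∀ i, (V i).Nonempty := by
    intro i
    obtain ⟨V0, _, h0, h1, _⟩ := hpoly i
    have h2 : (F i).Nonempty := by rw [h1]; exact h0.convexHull
    rw [hFV i, convexHull_nonempty_iff] at h2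
    exact Finset.coe_nonempty.1 h2
  have hdim : ∀ i, finrank ℝ (vectorSpan ℝ (convexHull ℝ
      (V i : Set (EuclideanSpace ℝ (Fin (n' + 3 + 1)))))) = n' + 3 := by
    intro i
    obtain ⟨V0, _, _, _, h3⟩ := hpoly i
    rw [← hFV i, h3]; rfl
  choose ψ hψ hψ0 hfree using fun i => hF _ (n' + 3) hX (V i) (hne i) (hdim i)
  choose T hT hTsurj using fun i => exists_enum_MainOf (V i) v (n' + 3) (hVc i)
  obtain ⟨Ψ, hΨ⟩ := hC _ (n' + 3) hX (by omega) (range (fun p : Fin n × Fin (2 ^ v) => T p.1 p.2))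
    (finite_range _) (by rintro _ ⟨p, rfl⟩; exact (hT p.1 p.2).2)
  choose φ h hφ hfl using fun (i : Fin n) (l : Fin (2 ^ v)) => hΨ (T i l) ⟨(i, l), rfl⟩
  let Ψa := Ψ.toLinearEquiv.toLinearMap.toAffineMap
  let Ψs := Ψ.symm.toLinearEquiv.toLinearMap.toAffineMap
  obtain ⟨σ, hσ, hPσ⟩ := exists_cell
    (Ψ.toContinuousLinearMap.lipschitz.isBounded_image hcpt.isBounded)
  obtain ⟨C, hC1, hC2, hC3⟩ := hA (Fin n) (fun i => Ψs ⁻¹' F i) (fun i => (ψ i).comp Ψs) φ h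
    (fun i => by
      rw [hFV i]; exact (convex_convexHull ℝ _).affine_preimage Ψs)
    (fun i hi => by
      apply hψ i
      ext x
      have := congrArg (fun f => f (Ψ x)) hi
      simpa [Ψs] using this)
    (fun i x hx => by
      rw [mem_preimage, hFV i] at hx
      exact hψ0 i _ hx)
    hφ
    (fun O hO i hdis hmeet j hji x hx h0 => by
      have hO' : Convex ℝ (Ψa ⁻¹' O) := hO.affine_preimage Ψa
      have hxO : Ψs x ∈ Ψa ⁻¹' O := by simpa [Ψa, Ψs] using hx.1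
      have h1 := hfree i (Ψa ⁻¹' O) hO' (fun T0 hT0 hc => by
        obtain ⟨l, rfl⟩ := hTsurj i T0 hT0 hc
        rw [Set.disjoint_left]
        intro y hy hy2
        exact Set.disjoint_left.1 (hdis l) hy (hfl i l y hy2))
        (by
          obtain ⟨y, hy1, hy2⟩ := hmeet
          refine ⟨Ψs y, by simpa [Ψa, Ψs] using hy1, ?_⟩
          rw [← hFV i]; exact hy2) (Ψs x) hxO h0
      rw [← hFV i] at h1
      exact h1.2 (hint i j (Ne.symm hji) ⟨h1.1, hx.2⟩).1)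
    Finset.univ σ hσ.op hσ.1
  obtain ⟨C', hC'1, hC'2, hC'3⟩ := hC1.comap Ψa Ψ.toHomeomorph.isOpenMap
  have hbd : Bornology.IsBounded (Ψa ⁻¹' σ) := by
    refine (Ψ.symm.toContinuousLinearMap.lipschitz.isBounded_image hσ.1).subset ?_
    intro x hx
    exact ⟨Ψ x, hx, by simp⟩
  obtain ⟨M, K, hK, hM⟩ := hP _ P (Ψa ⁻¹' σ) hreg (fun x hx => hPσ ⟨x, hx, rfl⟩) hbd C' hC'1
    (fun O' hO' => by
      obtain ⟨O, hO, rfl⟩ := hC'3 O' hO'
      rw [hfr, Set.disjoint_left]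
      intro x hx hx2
      obtain ⟨i, hi⟩ := mem_iUnion.1 hx2
      refine Set.disjoint_left.1 (hC2 O hO i (Finset.mem_univ i)) hx ?_
      simpa [Ψa, Ψs] using hi)
  refine ⟨M, K, hK, ?_⟩
  have he : ((n' + 3 + 1 : ℕ) : ℝ) - 1 - δ = ((n' + 3 : ℕ) : ℝ) - δ := by push_cast; ring
  rw [he]
  rw [Finset.card_univ, Fintype.card_fin] at hC3
  have h1 : (1 : ℝ) ≤ (n : ℝ) ^ (((n' + 3 : ℕ) : ℝ) - δ) := by
    apply Real.one_le_rpow (by exact_mod_cast hn)
    have : (0 : ℝ) ≤ (n' : ℝ) := Nat.cast_nonneg _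
    push_cast; linarith
  have h2 : (M : ℝ) ≤ C.card := by exact_mod_cast hM.trans hC'2
  nlinarith

end Pool.Agent.MP_a2955b_co.Up
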