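import Pool.Agent.MP_a2955b_co.Defs

set_option autoImplicit false

namespace Pool.Agent.MP_a2955b_co.Up

/-- `P` is a polyhedron in `ℝ^d` with `n` faces, each the convex hull of at most `v` points. -/
def IsPolyhedronV {d : ℕ} (P : Set (EuclideanSpace ℝ (Fin d))) (n v : ℕ) : Prop :=
  IsCompact P ∧ closure (interior P) = P ∧
    ∃ F : Fin n → Set (EuclideanSpace ℝ (Fin d)), (∀ i, IsPolytope (d - 1) (F i)) ∧
      (∀ i, ∃ V : Finset (EuclideanSpace ℝ (Fin d)), V.card ≤ v ∧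
        F i = convexHull ℝ (V : Set (EuclideanSpace ℝ (Fin d)))) ∧
      frontier P = ⋃ i, F i ∧
      ∀ i j, i ≠ j → F i ∩ F j ⊆ intrinsicFrontier ℝ (F i) ∩ intrinsicFrontier ℝ (F j)

end Pool.Agent.MP_a2955b_co.Up
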