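import Pool.Agent.MP_a2955b_co.Up.Basic

set_option autoImplicit false

namespace Pool.Agent.MP_a2955b_co.Up

open Set Module

theorem num_StageTwo {α : Type} (C : Finset α) (c N X : α → ℕ) {a P q M K b u f Y n : ℕ}
    (hn : n ≤ ∑ O ∈ C, c O) (hc : ∀ O ∈ C, c O ≤ a * (P + N O)) (hN : ∀ O ∈ C, N O * M ≤ b * X O)
    (hK : C.card ≤ K) (hX : ∑ O ∈ C, X O ≤ u + K * Y) (hu : q * u ≤ f * M) :
    q * n * M ≤ a * (q * K * P * M + b * (f * M + q * K * Y)) := by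
  have h1 : n ≤ a * (K * P + ∑ O ∈ C, N O) := by
    refine hn.trans ((Finset.sum_le_sum hc).trans ?_)
    rw [← Finset.mul_sum, Finset.sum_add_distrib, Finset.sum_const, smul_eq_mul]
    gcongr
  have h2 : (∑ O ∈ C, N O) * M ≤ b * (u + K * Y) := by
    rw [Finset.sum_mul]
    refine (Finset.sum_le_sum hN).trans ?_
    rw [← Finset.mul_sum]
    gcongr
  calc q * n * M ≤ q * (a * (K * P + ∑ O ∈ C, N O)) * M := by gcongr
    _ = a * (q * K * P * M + q * ((∑ O ∈ C, N O) * M)) := by ring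
    _ ≤ a * (q * K * P * M + q * (b * (u + K * Y))) := by gcongr
    _ = a * (q * K * P * M + b * (q * u + q * K * Y)) := by ring
    _ ≤ _ := by gcongr

theorem stageTwo_of (hC : CutStmt) (hW : WallsStmt) (h1 : StageOneStmt) : StageTwoStmt := by
  intro E _ _ _ n hn
  obtain ⟨c1, c2, hW⟩ := hW E n hn
  refine ⟨c1, c2, fun ι _ φ h hφ w0 τ hτ q k1 t1 k2 t2 lam hq l1 l2 l3 l4 => ?_⟩
  obtain ⟨W, G, U, hWc, hGc, hWl, hGl, hU, hK⟩ := hW ι φ h hφ q hq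
  obtain ⟨C, base, hP, hb, hCc, hX⟩ := h1 E (n + 3) hn (by omega) ι φ h hφ w0 (c1 * q ^ c2) τ hτ
    W G U hWc hGc hWl hGl hK k1 t1 lam l1 l2
  have key : ∀ O ∈ C, ∃ (C' : Finset (Set (E × ℝ))) (N : ℕ), Part O C' ∧
      (∀ O' ∈ C', {i | (O' ∩ fl (φ i) (h i)).Nonempty}.ncard ≤ (n + 3 + 1) ^ 2 * t2) ∧
      C'.card ≤ 2 ^ (n + 3) * ((n + 3) * (n + 3 + 1) * (n + 3 + 1 + k2) ^ (n + 3 - 1) + N) ∧
      N * Fintype.card ι ^ (n + 3) ≤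
        2 * k2 ^ (n + 3) * XX (n + 3) φ {i | (O ∩ fl (φ i) (h i)).Nonempty} (base O) := by
    intro O hO
    obtain ⟨C2, N, p1, p2, p3, p4, -⟩ := hC E (n + 3) hn (by omega) ι φ hφ
      {i | (O ∩ fl (φ i) (h i)).Nonempty} (n + 3 + 1) (base O) (hb O hO).1 ∅ (by simp) k2 t2 lam
      l3 l4
    obtain ⟨C3, q1, q2, q3⟩ := p1.prod
    obtain ⟨C4, r1, r2, r3⟩ := q1.inter (hP.op O hO) fun z hz => ⟨(hb O hO).2 z hz, mem_univ _⟩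
    refine ⟨C4, N, r1, fun O' hO' => ?_, r2.trans (q2.trans p3), p4⟩
    obtain ⟨O3, h3, rfl⟩ := r3 O' hO'
    obtain ⟨S, hS, rfl⟩ := q3 O3 h3
    refine le_trans (ncard_le_ncard ?_ (toFinite _)) (p2 S hS).2.2
    rintro i ⟨z, hz, hz'⟩
    exact ⟨⟨z, hz.2, hz'⟩, z.1, hz.1.1, hz'.1⟩
  choose! C' N k1' k2' k3' k4' using key
  obtain ⟨C'', s1, s2, s3⟩ := hP.bind C' k1'
  refine ⟨C'', s1, fun O' hO' => ?_, ?_⟩
  · obtain ⟨O, hO, h'⟩ := (s3 O').1 hO'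
    exact k2' O hO O' h'
  · exact num_StageTwo C (fun O => (C' O).card) N _ s2 k3' k4' hCc hX hU

theorem step_of (h2 : StageTwoStmt) (hN : NumStmt) : StepStmt := by
  intro E _ _ _ n hn w0
  obtain ⟨c1, c2, h2⟩ := h2 E n hn
  obtain ⟨δ, d1, d2, hN⟩ := hN (n + 3) w0 c1 c2 (by omega)
  refine ⟨δ, d1, d2, fun ε hε => ?_⟩
  obtain ⟨m0, hN⟩ := hN ε hε
  refine ⟨m0, fun ι _ φ h hφ hm τ hτ => ?_⟩
  obtain ⟨q, k1, t1, k2, t2, lam, hq, l1, l2, l3, l4, hN⟩ := hN _ hm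
  obtain ⟨C, p1, p2, p3⟩ := h2 ι φ h hφ w0 τ hτ q k1 t1 k2 t2 lam hq l1 l2 l3 l4
  exact ⟨C, _, p1, p2, hN _ p3⟩

end Pool.Agent.MP_a2955b_co.Up
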