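import Pool.Agent.MP_a2955b_co.Up.Defs

/-! The statements of the steps of the upper bound. -/

set_option autoImplicit false

namespace Pool.Agent.MP_a2955b_co.Up

open Set Module

/-- Number of positivity patterns of a finite family of affine functions. -/
def SgnStmt : Prop :=
  ∀ (E : Type) [NormedAddCommGroup E] [NormedSpace ℝ E] [FiniteDimensional ℝ E]
    (ι : Type) [Fintype ι] (φ : ι → Af E),
    {P : Set ι | ∃ x, P = {i | 0 < φ i x}}.ncard ≤ (Fintype.card ι + 1) ^ (finrank ℝ E + 1)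

/-- The cells of a hyperplane arrangement inside `σ`. -/
def ArrStmt : Prop :=
  ∀ (E : Type) [NormedAddCommGroup E] [NormedSpace ℝ E] [FiniteDimensional ℝ E]
    (σ : Set E), OP σ → ∀ G : Finset (Af E), (∀ g ∈ G, g.linear ≠ 0) →
    ∃ C : Finset (Set E), Part σ C ∧ C.card ≤ (G.card + 1) ^ (finrank ℝ E + 1) ∧
      (∀ O ∈ C, ∀ g ∈ G, ∀ x ∈ O, g x ≠ 0) ∧
      ∀ O ∈ C, ∀ O' ∈ C, ∀ x ∈ O, ∀ x' ∈ O',
        (∀ g ∈ G, SignType.sign (g x) = SignType.sign (g x')) → O = O'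

/-- Facts on open simplices. -/
def SimpStmt : Prop :=
  ∀ (E : Type) [NormedAddCommGroup E] [NormedSpace ℝ E] [FiniteDimensional ℝ E]
    (D : ℕ) (b : AffineBasis (Fin (D + 1)) ℝ E),
    (1 ≤ D → Cell (D + 1) (Simp b)) ∧ OP (Simp b) ∧
    (∀ x, x ∈ Simp b ↔
      ∃ μ : Fin (D + 1) → ℝ, (∀ l, 0 < μ l) ∧ ∑ l, μ l = 1 ∧ x = ∑ l, μ l • b l) ∧
    (∀ g : Af E, g.linear ≠ 0 → (∃ x ∈ Simp b, g x = 0) →
      ∃ l l', 0 < g (b l) ∧ g (b l') < 0) ∧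
    (∀ g : Af E, (∀ x ∈ Simp b, g x ≠ 0) → ∀ l l', ¬ (0 < g (b l) ∧ g (b l') < 0))

/-- Representatives and chains: independence, sign, uniqueness. -/
def ChainStmt : Prop :=
  ∀ (E : Type) [NormedAddCommGroup E] [NormedSpace ℝ E] (κ : Type) (g : κ → Af E)
    (A : Finset κ),
    (∀ x, SameSg g A x (rep g A x)) ∧
    (∀ x y, SameSg g A x y → rep g A x = rep g A y) ∧
    (range (rep g A)).Finite ∧
    (∀ (r : ℕ) (b : Fin (r + 1) → E), Chain g A b → AffineIndependent ℝ b) ∧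
    (∀ (r : ℕ) (b : Fin (r + 1) → E) (μ : Fin (r + 1) → ℝ), Chain g A b → (∀ l, 0 < μ l) →
      ∑ l, μ l = 1 → SameSg g A (∑ l, μ l • b l) (b (Fin.last r))) ∧
    (∀ (r : ℕ) (b b' : Fin (r + 1) → E) (μ μ' : Fin (r + 1) → ℝ), Chain g A b → Chain g A b' →
      (∀ l, 0 < μ l) → ∑ l, μ l = 1 → (∀ l, 0 < μ' l) → ∑ l, μ' l = 1 →
      ∑ l, μ l • b l = ∑ l, μ' l • b' l → b = b')

/-- Every point of a bounded region lies in the open simplex of a chain. -/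
def ChainExStmt : Prop :=
  ∀ (E : Type) [NormedAddCommGroup E] [NormedSpace ℝ E] (κ : Type) (g : κ → Af E)
    (A J : Finset κ), J ⊆ A → Bornology.IsBounded {x | ∀ j ∈ J, 0 ≤ g j x} →
    ∀ x, (∀ j ∈ J, 0 ≤ g j x) →
    ∃ (r : ℕ) (b : Fin (r + 1) → E) (μ : Fin (r + 1) → ℝ), Chain g A b ∧ (∀ l, 0 < μ l) ∧
      ∑ l, μ l = 1 ∧ x = ∑ l, μ l • b l

/-- Counting maximal chains. -/
def ChainCountStmt : Prop :=
  ∀ (E : Type) [NormedAddCommGroup E] [NormedSpace ℝ E] [FiniteDimensional ℝ E]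
    (D : ℕ), finrank ℝ E = D → ∀ (κ : Type) (g : κ → Af E) (A J : Finset κ), J ⊆ A →
    {b : Fin (D + 1) → E | Chain g A b ∧ ∀ j ∈ J, 0 < g j (b (Fin.last D))}.ncard ≤
      2 ^ D * {t : Fin D → κ | (∀ i, t i ∈ A) ∧
        ((∃ i, t i ∈ J) ∨ Vx g {x | ∀ j ∈ J, 0 < g j x} t)}.ncard

/-- Barycentric triangulation of an arrangement inside a bounded cell. -/
def TriStmt : Prop :=
  ∀ (E : Type) [NormedAddCommGroup E] [NormedSpace ℝ E] [FiniteDimensional ℝ E]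
    (D : ℕ), finrank ℝ E = D → ∀ (κ : Type) (g : κ → Af E) (A J : Finset κ), J ⊆ A →
    (∀ j ∈ A, (g j).linear ≠ 0) → Bornology.IsBounded {x | ∀ j ∈ J, 0 < g j x} →
    ∃ C : Finset (Set E), Part {x | ∀ j ∈ J, 0 < g j x} C ∧
      (∀ S ∈ C, (∃ b : AffineBasis (Fin (D + 1)) ℝ E, S = Simp b) ∧
        ∀ j ∈ A, ∀ x ∈ S, g j x ≠ 0) ∧
      C.card ≤ 2 ^ D * {t : Fin D → κ | (∀ i, t i ∈ A) ∧
        ((∃ i, t i ∈ J) ∨ Vx g {x | ∀ j ∈ J, 0 < g j x} t)}.ncard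

/-- A random sample: a net for the ranges containing few of the given tuples. -/
def SampleStmt : Prop :=
  ∀ (ι : Type) [Fintype ι] (D : ℕ) (Rg : Set (Set ι)) (X : Set (Fin D → ι)),
    (∀ x ∈ X, Function.Injective x) → ∀ k t lam : ℕ, 2 * Rg.ncard < 2 ^ lam →
    lam * Fintype.card ι ≤ t * k →
    ∃ R : Finset ι, R.card ≤ k ∧ (∀ r ∈ Rg, Disjoint r (R : Set ι) → r.ncard ≤ t) ∧
      {x | x ∈ X ∧ ∀ i, x i ∈ R}.ncard * Fintype.card ι ^ D ≤ 2 * k ^ D * X.ncard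

/-- Vertex sensitive cutting. -/
def CutStmt : Prop :=
  ∀ (E : Type) [NormedAddCommGroup E] [NormedSpace ℝ E] [FiniteDimensional ℝ E]
    (D : ℕ), finrank ℝ E = D → 1 ≤ D → ∀ (ι : Type) [Fintype ι] (φ : ι → Af E),
    (∀ i, (φ i).linear ≠ 0) → ∀ (F : Set ι) (w0 : ℕ) (τ : Set E), Cell w0 τ →
    ∀ W : Finset (Af E), (∀ w ∈ W, w.linear ≠ 0) → ∀ k t lam : ℕ,
    2 * (Fintype.card ι + 1) ^ (2 * (D + 1)) < 2 ^ lam → lam * Fintype.card ι ≤ t * k →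
    ∃ (C : Finset (Set E)) (N : ℕ), Part τ C ∧
      (∀ S ∈ C, Cell (D + 1) S ∧ (∀ w ∈ W, ∀ x ∈ S, w x ≠ 0) ∧
        {i | i ∈ F ∧ ∃ x ∈ S, φ i x = 0}.ncard ≤ (D + 1) ^ 2 * t) ∧
      C.card ≤ 2 ^ D * (D * (w0 + W.card) * (w0 + W.card + k) ^ (D - 1) + N) ∧
      N * Fintype.card ι ^ D ≤ 2 * k ^ D * XX D φ F τ ∧ N ≤ XX D φ F τ

/-- Slicing a combinatorial cube through a point. -/
def SliceStmt : Prop :=
  ∀ (E : Type) [NormedAddCommGroup E] [NormedSpace ℝ E] [FiniteDimensional ℝ E]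
    (I : Type) (s : Finset I) (lo hi : I → Af E) (x : E) (V : Submodule ℝ E) (n : ℕ),
    finrank ℝ V ≤ n + s.card → ∀ u : (I → Bool) → E, (∀ ε, u ε - x ∈ V) →
    (∀ i ∈ s, 0 ≤ lo i x ∧ hi i x ≤ 0) →
    (∀ i ∈ s, ∀ ε, ε i = false → lo i (u ε) = 0 ∧ hi i (u ε) < 0) →
    (∀ i ∈ s, ∀ ε, ε i = true → 0 < lo i (u ε) ∧ hi i (u ε) = 0) →
    ∃ (V' : Submodule ℝ E) (w : (I → Bool) → E), finrank ℝ V' ≤ n ∧ (∀ ε, w ε - x ∈ V') ∧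
      ∀ ε, w ε ∈ convexHull ℝ {p | ∃ ε' : I → Bool, (∀ i, i ∉ s → ε' i = ε i) ∧ p = u ε'}

/-- A point of a plane quadrilateral lies in a triangle of each of its two triangulations. -/
def QuadStmt : Prop :=
  ∀ (E : Type) [NormedAddCommGroup E] [NormedSpace ℝ E] [FiniteDimensional ℝ E]
    (x : E) (V : Submodule ℝ E), finrank ℝ V ≤ 2 → ∀ w : Bool → Bool → E,
    (∀ a b, w a b - x ∈ V) → ∀ la ha lb hb : Af E,
    0 ≤ la x → ha x ≤ 0 → 0 ≤ lb x → hb x ≤ 0 →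
    (∀ b, la (w false b) = 0 ∧ ha (w false b) < 0) →
    (∀ b, 0 < la (w true b) ∧ ha (w true b) = 0) →
    (∀ a, lb (w a false) = 0 ∧ hb (w a false) < 0) →
    (∀ a, 0 < lb (w a true) ∧ hb (w a true) = 0) →
    (∃ α, x ∈ convexHull ℝ {p | ∃ a b, ¬ (a = α ∧ b = !α) ∧ p = w a b}) ∧
    (∃ α, x ∈ convexHull ℝ {p | ∃ a b, ¬ (a = α ∧ b = α) ∧ p = w a b})

/-- Membership in a convex hull is decided by finitely many signs. -/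
def HullStmt : Prop :=
  ∀ (E : Type) [NormedAddCommGroup E] [NormedSpace ℝ E] [FiniteDimensional ℝ E]
    (T : Finset E), ∃ G : Finset (Af E), G.card ≤ 2 ^ T.card * (finrank ℝ E + 1) ∧
      (∀ g ∈ G, g.linear ≠ 0) ∧
      ∀ z z', (∀ g ∈ G, SignType.sign (g z) = SignType.sign (g z')) →
        z ∈ convexHull ℝ (T : Set E) → z' ∈ convexHull ℝ (T : Set E)

/-- The same for the region above a convex hull. -/
def AboveStmt : Prop :=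
  ∀ (E : Type) [NormedAddCommGroup E] [NormedSpace ℝ E] [FiniteDimensional ℝ E]
    (T : Finset (E × ℝ)) (M : ℝ), ∃ G : Finset (Af (E × ℝ)),
      G.card ≤ 2 ^ (2 * T.card) * (finrank ℝ E + 2) ∧ (∀ g ∈ G, g.linear ≠ 0) ∧
      ∀ z z', (∀ g ∈ G, SignType.sign (g z) = SignType.sign (g z')) →
        (∃ w ∈ convexHull ℝ (T : Set (E × ℝ)), w.1 = z.1 ∧ w.2 ≤ z.2 ∧ z.2 ≤ w.2 + M) →
        z' ∈ Above (T : Set (E × ℝ))

/-- The upper flat of a grid lies above a left and a right support. -/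
def KillCStmt : Prop :=
  ∀ (E : Type) [NormedAddCommGroup E] [NormedSpace ℝ E] [FiniteDimensional ℝ E]
    (n : ℕ), finrank ℝ E = n + 3 → ∀ (φ h : Fin (n + 3) → Fin 3 → Af E)
    (v : (Fin (n + 3) → Fin 3) → E), Grid φ h v → ∀ x, φ 2 1 x = 0 →
    (∀ i, 0 ≤ φ i 0 x ∧ φ i 2 x ≤ 0) →
    (∃ α, (x, h 2 1 x) ∈ Above (Lf v (h 1) α (!α))) ∧
    (∃ α, (x, h 2 1 x) ∈ Above (Lf v (h 1) α α))

/-- No point strictly below the lower flat lies above a left and a right support. -/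
def KillAStmt : Prop :=
  ∀ (E : Type) [NormedAddCommGroup E] [NormedSpace ℝ E] [FiniteDimensional ℝ E]
    (n : ℕ), finrank ℝ E = n + 3 → ∀ (φ h : Fin (n + 3) → Fin 3 → Af E)
    (v : (Fin (n + 3) → Fin 3) → E), Grid φ h v → ∀ (y : E) (z : ℝ), φ 0 1 y = 0 →
    z < h 0 1 y → ∀ α β : Bool, (y, z) ∈ Above (Lf v (h 1) α (!α)) →
    (y, z) ∈ Above (Lf v (h 1) β β) → False

/-- Boundedly many cuts depending on the outer walls kill every centre of a good box. -/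
def KillStmt : Prop :=
  ∀ (E : Type) [NormedAddCommGroup E] [NormedSpace ℝ E] [FiniteDimensional ℝ E]
    (n : ℕ), finrank ℝ E = n + 3 → ∃ c : ℕ, ∀ (ι : Type) [Fintype ι] (φ h : ι → Af E),
    (∀ i, (φ i).linear ≠ 0) → ∀ o : Fin (n + 3) → Bool → ι,
    ∃ (W : Finset (Af E)) (G : Finset (Af (E × ℝ))), W.card ≤ c ∧ G.card ≤ c ∧
      (∀ w ∈ W, w.linear ≠ 0) ∧ (∀ g ∈ G, g.linear ≠ 0) ∧
      ∀ t : Fin (n + 3) → ι, Good φ h (box o t) → Kills φ h W G t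

/-- Product Ramsey theorem for pairs and triples. -/
def RamseyStmt : Prop :=
  ∀ (D : ℕ) (C : Type) [Finite C], ∃ L : ℕ, ∀ χ : (Fin D → Fin L × Fin L) → C,
    ∃ s : Fin D → Fin 3 → Fin L, (∀ i, StrictMono (s i)) ∧ ∃ c : C,
      ∀ a b : Fin D → Fin 3, (∀ i, a i < b i) → χ (fun i => (s i (a i), s i (b i))) = c

/-- Supersaturation of boxes. -/
def SuperStmt : Prop :=
  ∀ (ι : Type) [Fintype ι] [Nonempty ι] (D L : ℕ), 0 < L → ∀ U : Set (Fin D → ι),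
    U.ncard ^ (L ^ D) * Fintype.card ι ^ (D * L) ≤
      {e : Fin D → Fin L → ι | ∀ j : Fin D → Fin L, (fun i => e i (j i)) ∈ U}.ncard *
        (Fintype.card ι ^ D) ^ (L ^ D)

/-- A large box of sorted tuples contains a good box. -/
def GoodSubStmt : Prop :=
  ∀ (E : Type) [NormedAddCommGroup E] [NormedSpace ℝ E] (D : ℕ), ∃ L : ℕ, 0 < L ∧
    ∀ (ι : Type) (φ h : ι → Af E) (e : Fin D → Fin L → ι),
    (∀ j : Fin D → Fin L, Srt φ h (fun i => e i (j i))) →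
    ∃ s : Fin D → Fin 3 → Fin L, (∀ i, StrictMono (s i)) ∧ Good φ h (fun i k => e i (s i k))

/-- A dense set of sorted tuples has many centres of good boxes with common outer walls. -/
def GoodCountStmt : Prop :=
  ∀ (E : Type) [NormedAddCommGroup E] [NormedSpace ℝ E] (D : ℕ), ∃ c1 c2 : ℕ,
    ∀ (ι : Type) [Fintype ι] [Nonempty ι] (φ h : ι → Af E) (U : Set (Fin D → ι)) (q : ℕ),
    (∀ t ∈ U, Srt φ h t) → Fintype.card ι ^ D ≤ q * U.ncard →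
    ∃ o : Fin D → Bool → ι,
      Fintype.card ι ^ D ≤ c1 * q ^ c2 * {t | t ∈ U ∧ Good φ h (box o t)}.ncard

/-- Polynomially many walls and cuts kill all but a `1/q` fraction of the vertex tuples. -/
def WallsStmt : Prop :=
  ∀ (E : Type) [NormedAddCommGroup E] [NormedSpace ℝ E] [FiniteDimensional ℝ E]
    (n : ℕ), finrank ℝ E = n + 3 → ∃ c1 c2 : ℕ, ∀ (ι : Type) [Fintype ι] (φ h : ι → Af E),
    (∀ i, (φ i).linear ≠ 0) → ∀ q : ℕ, 1 ≤ q →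
    ∃ (W : Finset (Af E)) (G : Finset (Af (E × ℝ))) (U : Set (Fin (n + 3) → ι)),
      W.card ≤ c1 * q ^ c2 ∧ G.card ≤ c1 * q ^ c2 ∧
      (∀ w ∈ W, w.linear ≠ 0) ∧ (∀ g ∈ G, g.linear ≠ 0) ∧
      q * U.ncard ≤ (n + 3).factorial * Fintype.card ι ^ (n + 3) ∧
      ∀ t : Fin (n + 3) → ι, Vx φ univ t → t ∉ U → Kills φ h W G t

/-- The trace of an affine function on a hyperplane lies in a hyperplane parallel to `u`. -/
def TraceStmt : Prop :=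
  ∀ (E : Type) [NormedAddCommGroup E] [NormedSpace ℝ E] [FiniteDimensional ℝ E],
    2 ≤ finrank ℝ E → ∀ (u : E) (φ a : Af E), φ.linear ≠ 0 →
    ∃ ψ : Af E, ψ.linear ≠ 0 ∧ ψ.linear u = 0 ∧
      ((∀ p, φ p = 0 → a p = 0) ∨ ∀ p, φ p = 0 → a p = 0 → ψ p = 0)

/-- First stage. -/
def StageOneStmt : Prop :=
  ∀ (E : Type) [NormedAddCommGroup E] [NormedSpace ℝ E] [FiniteDimensional ℝ E]
    (D : ℕ), finrank ℝ E = D → 2 ≤ D → ∀ (ι : Type) [Fintype ι] (φ h : ι → Af E),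
    (∀ i, (φ i).linear ≠ 0) → ∀ (w0 H : ℕ) (τ : Set E), Cell w0 τ →
    ∀ (W : Finset (Af E)) (G : Finset (Af (E × ℝ))) (U : Set (Fin D → ι)),
    W.card ≤ H → G.card ≤ H → (∀ w ∈ W, w.linear ≠ 0) → (∀ g ∈ G, g.linear ≠ 0) →
    (∀ t : Fin D → ι, Vx φ univ t → t ∉ U → Kills φ h W G t) → ∀ k t lam : ℕ,
    2 * (Fintype.card ι * H + 1) ^ (2 * (D + 1)) < 2 ^ lam →
    lam * (Fintype.card ι * H) ≤ t * k →
    ∃ (C : Finset (Set (E × ℝ))) (base : Set (E × ℝ) → Set E), Part (τ ×ˢ univ) C ∧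
      (∀ O ∈ C, Cell (D + 1) (base O) ∧ ∀ z ∈ O, z.1 ∈ base O) ∧ C.card ≤ KK D w0 H k ∧
      ∑ O ∈ C, XX D φ {i | (O ∩ fl (φ i) (h i)).Nonempty} (base O) ≤
        U.ncard + KK D w0 H k * ((D + 1) ^ 2 * t) ^ D

/-- Second stage. -/
def StageTwoStmt : Prop :=
  ∀ (E : Type) [NormedAddCommGroup E] [NormedSpace ℝ E] [FiniteDimensional ℝ E]
    (n : ℕ), finrank ℝ E = n + 3 → ∃ c1 c2 : ℕ, ∀ (ι : Type) [Fintype ι] (φ h : ι → Af E),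
    (∀ i, (φ i).linear ≠ 0) → ∀ (w0 : ℕ) (τ : Set E), Cell w0 τ →
    ∀ q k1 t1 k2 t2 lam : ℕ, 1 ≤ q →
    2 * (Fintype.card ι * (c1 * q ^ c2) + 1) ^ (2 * (n + 3 + 1)) < 2 ^ lam →
    lam * (Fintype.card ι * (c1 * q ^ c2)) ≤ t1 * k1 →
    2 * (Fintype.card ι + 1) ^ (2 * (n + 3 + 1)) < 2 ^ lam →
    lam * Fintype.card ι ≤ t2 * k2 →
    ∃ C : Finset (Set (E × ℝ)), Part (τ ×ˢ univ) C ∧
      (∀ O ∈ C, {i | (O ∩ fl (φ i) (h i)).Nonempty}.ncard ≤ (n + 3 + 1) ^ 2 * t2) ∧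
      q * C.card * Fintype.card ι ^ (n + 3) ≤
        RR (n + 3) w0 (c1 * q ^ c2) q k1 t1 k2 (Fintype.card ι)

/-- Choice of the parameters, integer form. -/
def NumNatStmt : Prop :=
  ∀ D w0 c1 c2 : ℕ, 1 ≤ D → ∃ Z : ℕ, 2 ≤ Z ∧ ∃ y0 : ℕ, ∀ y m : ℕ, y0 ≤ y →
    y ^ (2 * Z) ≤ m → m < (y + 1) ^ (2 * Z) →
    ∃ q k1 t1 t2 lam : ℕ, 1 ≤ q ∧
      2 * (m * (c1 * q ^ c2) + 1) ^ (2 * (D + 1)) < 2 ^ lam ∧
      lam * (m * (c1 * q ^ c2)) ≤ t1 * k1 ∧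
      2 * (m + 1) ^ (2 * (D + 1)) < 2 ^ lam ∧ lam * m ≤ t2 * y ^ Z ∧
      (D + 1) ^ 2 * t2 * y ^ Z ≤ y ^ 3 * m ∧
      RR D w0 (c1 * q ^ c2) q k1 t1 (y ^ Z) m * y ^ (3 * D + 2) ≤ q * y ^ (Z * D) * m ^ D

/-- Choice of the parameters, real form. -/
def NumStmt : Prop :=
  ∀ D w0 c1 c2 : ℕ, 1 ≤ D → ∃ δ : ℝ, 0 < δ ∧ δ ≤ 1 / 2 ∧ ∀ ε : ℝ, 0 < ε → ∃ m0 : ℕ,
    ∀ m : ℕ, m0 ≤ m → ∃ q k1 t1 k2 t2 lam : ℕ, 1 ≤ q ∧
      2 * (m * (c1 * q ^ c2) + 1) ^ (2 * (D + 1)) < 2 ^ lam ∧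
      lam * (m * (c1 * q ^ c2)) ≤ t1 * k1 ∧
      2 * (m + 1) ^ (2 * (D + 1)) < 2 ^ lam ∧ lam * m ≤ t2 * k2 ∧
      ∀ N : ℕ, q * N * m ^ D ≤ RR D w0 (c1 * q ^ c2) q k1 t1 k2 m →
        (N : ℝ) * (((D + 1) ^ 2 * t2 : ℕ) : ℝ) ^ ((D : ℝ) - δ) ≤ ε * (m : ℝ) ^ ((D : ℝ) - δ) ∧
        N ^ 2 ≤ m ^ D

/-- One step of the recursion. -/
def StepStmt : Prop :=
  ∀ (E : Type) [NormedAddCommGroup E] [NormedSpace ℝ E] [FiniteDimensional ℝ E]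
    (n : ℕ), finrank ℝ E = n + 3 → ∀ w0 : ℕ, ∃ δ : ℝ, 0 < δ ∧ δ ≤ 1 / 2 ∧ ∀ ε : ℝ, 0 < ε →
    ∃ m0 : ℕ, ∀ (ι : Type) [Fintype ι] (φ h : ι → Af E), (∀ i, (φ i).linear ≠ 0) →
    m0 ≤ Fintype.card ι → ∀ τ : Set E, Cell w0 τ →
    ∃ (C : Finset (Set (E × ℝ))) (m' : ℕ), Part (τ ×ˢ univ) C ∧
      (∀ O ∈ C, {i | (O ∩ fl (φ i) (h i)).Nonempty}.ncard ≤ m') ∧
      (C.card : ℝ) * (m' : ℝ) ^ (((n + 3 : ℕ) : ℝ) - δ) ≤
        ε * (Fintype.card ι : ℝ) ^ (((n + 3 : ℕ) : ℝ) - δ) ∧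
      C.card ^ 2 ≤ Fintype.card ι ^ (n + 3)

/-- Free cuts. -/
def FreeStmt : Prop :=
  ∀ (E : Type) [NormedAddCommGroup E] [NormedSpace ℝ E] [FiniteDimensional ℝ E]
    (κ : Type) (f : κ → Set E) (ψ : κ → Af E), (∀ i, Convex ℝ (f i)) → (∀ i, (ψ i).linear ≠ 0) →
    (∀ i, ∀ x ∈ f i, ψ i x = 0) → ∀ O : Set E, OP O → ∀ J : Finset κ,
    (∀ i ∈ J, ∀ j, j ≠ i → ∀ x ∈ O ∩ f j, ψ i x ≠ 0) →
    ∃ C : Finset (Set E), Part O C ∧ C.card ≤ J.card + 1 ∧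
      (∀ p ∈ C, ∀ i ∈ J, Disjoint p (f i)) ∧
      ∀ j, j ∉ J → ∀ p ∈ C, ∀ p' ∈ C, (p ∩ f j).Nonempty → (p' ∩ f j).Nonempty → p = p'

/-- The recursion. -/
def RecStmt : Prop :=
  ∀ (E : Type) [NormedAddCommGroup E] [NormedSpace ℝ E] [FiniteDimensional ℝ E]
    (n : ℕ), finrank ℝ E = n + 3 → ∃ δ : ℝ, 0 < δ ∧ δ ≤ 1 / 2 ∧ ∀ k : ℕ, 1 ≤ k → ∃ A : ℝ,
    0 ≤ A ∧ ∀ (κ : Type) (f : κ → Set (E × ℝ)) (ψ : κ → Af (E × ℝ))
      (φ h : κ → Fin k → Af E),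
    (∀ i, Convex ℝ (f i)) → (∀ i, (ψ i).linear ≠ 0) → (∀ i, ∀ x ∈ f i, ψ i x = 0) →
    (∀ i l, (φ i l).linear ≠ 0) →
    (∀ O : Set (E × ℝ), Convex ℝ O → ∀ i, (∀ l, Disjoint O (fl (φ i l) (h i l))) →
      (O ∩ f i).Nonempty → ∀ j, j ≠ i → ∀ x ∈ O ∩ f j, ψ i x ≠ 0) →
    ∀ (s : Finset κ) (σ : Set (E × ℝ)), OP σ → Bornology.IsBounded σ →
    ∃ C : Finset (Set (E × ℝ)), Part σ C ∧ (∀ O ∈ C, ∀ i ∈ s, Disjoint O (f i)) ∧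
      (C.card : ℝ) ≤ 1 + A * (s.card : ℝ) ^ (((n + 3 : ℕ) : ℝ) - δ)

/-- The closure of a bounded nonempty open polyhedral set is a polytope. -/
def PolyStmt : Prop :=
  ∀ (d : ℕ) (O : Set (EuclideanSpace ℝ (Fin d))), OP O → Bornology.IsBounded O → O.Nonempty →
    IsPolytope d (closure O)

/-- From cells missing the boundary to a convex partition. -/
def ToPartStmt : Prop :=
  ∀ (d : ℕ) (P σ : Set (EuclideanSpace ℝ (Fin d))), closure (interior P) = P → P ⊆ σ →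
    Bornology.IsBounded σ → ∀ C : Finset (Set (EuclideanSpace ℝ (Fin d))), Part σ C →
    (∀ O ∈ C, Disjoint O (frontier P)) →
    ∃ (M : ℕ) (K : Fin M → Set (EuclideanSpace ℝ (Fin d))), IsConvexPartition P K ∧ M ≤ C.card

/-- Coordinates in which small hulls lie in graph flats. -/
def CoordStmt : Prop :=
  ∀ (X : Type) [NormedAddCommGroup X] [NormedSpace ℝ X] [FiniteDimensional ℝ X]
    (D : ℕ), finrank ℝ X = D + 1 → 1 ≤ D → ∀ TT : Set (Finset X), TT.Finite →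
    (∀ T ∈ TT, T.card ≤ D) →
    ∃ Ψ : X ≃L[ℝ] ((Fin D → ℝ) × ℝ), ∀ T ∈ TT, ∃ φ h : Af (Fin D → ℝ), φ.linear ≠ 0 ∧
      ∀ x ∈ convexHull ℝ (T : Set X), Ψ x ∈ fl φ h

/-- A face crosses freely a convex set that misses its ridges. -/
def FaceStmt : Prop :=
  ∀ (X : Type) [NormedAddCommGroup X] [NormedSpace ℝ X] [FiniteDimensional ℝ X]
    (D : ℕ), finrank ℝ X = D + 1 → ∀ V : Finset X, V.Nonempty →
    finrank ℝ (vectorSpan ℝ (convexHull ℝ (V : Set X))) = D →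
    ∃ ψ : Af X, ψ.linear ≠ 0 ∧ (∀ x ∈ convexHull ℝ (V : Set X), ψ x = 0) ∧
      ∀ O : Set X, Convex ℝ O →
        (∀ T : Finset X, T ⊆ V → T.card ≤ D → Disjoint O (convexHull ℝ (T : Set X))) →
        (O ∩ convexHull ℝ (V : Set X)).Nonempty → ∀ x ∈ O, ψ x = 0 →
        x ∈ convexHull ℝ (V : Set X) ∧ x ∉ intrinsicFrontier ℝ (convexHull ℝ (V : Set X))

/-- The final statement. -/
def MainStmt : Prop :=
  ∀ d : ℕ, 4 ≤ d → ∃ δ : ℝ, 0 < δ ∧ ∀ v : ℕ, ∃ A : ℝ,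
    ∀ (n : ℕ) (P : Set (EuclideanSpace ℝ (Fin d))), 1 ≤ n → IsPolyhedronV P n v →
    ∃ (M : ℕ) (K : Fin M → Set (EuclideanSpace ℝ (Fin d))), IsConvexPartition P K ∧
      (M : ℝ) ≤ A * (n : ℝ) ^ ((d : ℝ) - 1 - δ)

end Pool.Agent.MP_a2955b_co.Up
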