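import Pool.Agent.MP_a2955b_co.Up.Stmt

/-! Supersaturation of boxes. -/

set_option autoImplicit false

namespace Pool.Agent.MP_a2955b_co.Up

open Set Module
open scoped BigOperators

theorem jensen_Super {α : Type} [Fintype α] [Nonempty α] {g : α → ℝ} (hg : ∀ a, 0 ≤ g a) {n : ℕ}
    (hn : 0 < n) : (𝔼 a, g a) ^ n ≤ 𝔼 a, g a ^ n := by
  obtain ⟨n, rfl⟩ := Nat.exists_eq_add_one_of_ne_zero hn.ne'
  have h := pow_sum_div_card_le_sum_pow (s := Finset.univ) (fun a _ => hg a) n
  rw [Fintype.expect_eq_sum_div_card, Fintype.expect_eq_sum_div_card, div_pow,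
    pow_succ (Fintype.card α : ℝ), ← div_div]
  exact div_le_div_of_nonneg_right h (Nat.cast_nonneg _)

theorem cons_Super {α : Type} [Fintype α] {D : ℕ} (g : (Fin (D + 1) → α) → ℝ) :
    𝔼 t, g t = 𝔼 x, 𝔼 t : Fin D → α, g (Fin.cons x t) := by
  rw [← Finset.expect_product', Finset.univ_product_univ]
  exact (Fintype.expect_equiv (Fin.consEquiv fun _ => α) _ _ fun _ => rfl).symm

theorem main_Super {ι : Type} [Fintype ι] [Nonempty ι] {L : ℕ} (hL : 0 < L) (D : ℕ) :
    ∀ f : (Fin D → ι) → ℝ, (∀ t, 0 ≤ f t) → (𝔼 t, f t) ^ (L ^ D) ≤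
      𝔼 e : Fin D → Fin L → ι, ∏ j : Fin D → Fin L, f fun i => e i (j i) := by
  classical
  induction D with
  | zero =>
    intro f _
    simp only [pow_zero, pow_one, Finset.univ_unique, Finset.expect_singleton,
      Finset.prod_singleton]
    exact (congrArg f (Subsingleton.elim _ _)).le
  | succ D ih =>
    intro f hf
    have h0 : ∀ (x : ι) (e : Fin D → Fin L → ι),
        0 ≤ ∏ j : Fin D → Fin L, f (Fin.cons x fun i => e i (j i)) := fun x e =>
      Finset.prod_nonneg fun _ _ => hf _
    calc (𝔼 t, f t) ^ (L ^ (D + 1)) = ((𝔼 x, 𝔼 t : Fin D → ι, f (Fin.cons x t)) ^ (L ^ D)) ^ L := by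
          rw [cons_Super, pow_succ, pow_mul]
      _ ≤ (𝔼 x, 𝔼 e : Fin D → Fin L → ι,
            ∏ j : Fin D → Fin L, f (Fin.cons x fun i => e i (j i))) ^ L := by
          have h1 : ∀ x, 0 ≤ 𝔼 t : Fin D → ι, f (Fin.cons x t) := fun x =>
            Finset.expect_nonneg fun _ _ => hf _
          refine pow_le_pow_left₀ (pow_nonneg (Finset.expect_nonneg fun x _ => h1 x) _)
            ((jensen_Super h1 (pow_pos hL D)).trans (Finset.expect_le_expect fun x _ => ?_)) L
          exact ih (fun t => f (Fin.cons x t)) fun _ => hf _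
      _ ≤ 𝔼 e : Fin D → Fin L → ι,
            (𝔼 x, ∏ j : Fin D → Fin L, f (Fin.cons x fun i => e i (j i))) ^ L := by
          rw [Finset.expect_comm]
          exact jensen_Super (fun e => Finset.expect_nonneg fun x _ => h0 x e) hL
      _ = _ := by
          rw [cons_Super, Finset.expect_comm]
          refine Finset.expect_congr rfl fun e _ => ?_
          rw [Finset.expect_pow, Fintype.piFinset_univ]
          refine Finset.expect_congr rfl fun p _ => ?_
          rw [← Finset.prod_product', Finset.univ_product_univ]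
          refine Fintype.prod_equiv (Fin.consEquiv fun _ => Fin L) _ _ fun j => congrArg f ?_
          funext i
          refine Fin.cases rfl (fun _ => rfl) i

theorem super : SuperStmt := by
  classical
  intro ι _ _ D L hL U
  have h := main_Super hL D (fun t => if t ∈ U then 1 else 0) fun t => by
    split_ifs
    exacts [zero_le_one, le_rfl]
  have hc : ∀ {α : Type} [Fintype α] (S : Set α),
      S.ncard = (Finset.univ.filter fun a => a ∈ S).card := fun S => by
    rw [← Set.ncard_coe_finset]
    congr 1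
    ext a
    simp
  have hm : (0 : ℝ) < Fintype.card ι := Nat.cast_pos.2 Fintype.card_pos
  simp only [Fintype.expect_eq_sum_div_card, Finset.prod_boole, Finset.sum_boole, Finset.mem_univ,
    forall_true_left, Fintype.card_fun, Fintype.card_fin, div_pow] at h
  rw [div_le_div_iff₀ (by positivity) (by positivity), ← pow_mul, mul_comm L] at h
  rw [hc, hc]
  convert (Nat.cast_le (α := ℝ)).1 (by exact_mod_cast h) using 3
  exact Finset.filter_congr_decidable _ _ _

end Pool.Agent.MP_a2955b_co.Up
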